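import Pool.Agent.Lib.MP_240c17_al.Tor.Spec

/-!
(T26) Elements algebraic over the prime field are in a finite field.
-/

set_option autoImplicit false

namespace Pool.Agent.Lib.MP_240c17_al.Tor

universe u

open Pool.Agent.Lib.MP_240c17_al.Two

private theorem algFin_one (k : Type u) [Field k] (p : ℕ) [hp : Fact p.Prime] [Algebra (ZMod p) k]
    (a : k) (ha : IsAlgebraic (ZMod p) a) : ∃ r : ℕ, 0 < r ∧ a ^ p ^ r = a := by
  have hfd : FiniteDimensional (ZMod p) (IntermediateField.adjoin (ZMod p) {a}) :=
    IntermediateField.adjoin.finiteDimensional ha.isIntegral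
  have hfin : Finite (IntermediateField.adjoin (ZMod p) {a}) :=
    Module.finite_of_finite (ZMod p)
  have hft : Fintype (IntermediateField.adjoin (ZMod p) {a}) := Fintype.ofFinite _
  have hchar : CharP (IntermediateField.adjoin (ZMod p) {a}) p :=
    charP_of_injective_algebraMap
      (algebraMap (ZMod p) (IntermediateField.adjoin (ZMod p) {a})).injective p
  obtain ⟨r, _, hr⟩ := FiniteField.card (IntermediateField.adjoin (ZMod p) {a}) p
  refine ⟨r, r.pos, ?_⟩
  have h1 := FiniteField.pow_card
    (⟨a, IntermediateField.mem_adjoin_simple_self (ZMod p) a⟩ :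
      IntermediateField.adjoin (ZMod p) {a})
  rw [hr] at h1
  have h2 := congrArg (fun x : IntermediateField.adjoin (ZMod p) {a} => (x : k)) h1
  exact h2

private theorem algFin_mul {k : Type u} [Field k] (p : ℕ) (a : k) {r : ℕ}
    (h : a ^ p ^ r = a) (t : ℕ) : a ^ p ^ (r * t) = a := by
  induction t with
  | zero => simp
  | succ t ih => rw [mul_add, mul_one, pow_add, pow_mul, ih, h]

theorem algFin : AlgFinProp.{u} := by
  intro k _ p _ _ m c
  induction m with
  | zero =>
    intro h
    obtain ⟨r, hr, h1⟩ := algFin_one k p (c 0) (h 0 le_rfl)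
    refine ⟨r, hr, fun i hi => ?_⟩
    rw [Nat.le_zero.mp hi]
    exact h1
  | succ m ih =>
    intro h
    obtain ⟨r, hr, h1⟩ := ih (fun i hi => h i (by omega))
    obtain ⟨r', hr', h1'⟩ := algFin_one k p (c (m + 1)) (h (m + 1) le_rfl)
    refine ⟨r * r', Nat.mul_pos hr hr', fun i hi => ?_⟩
    rcases Nat.lt_or_eq_of_le hi with hi | hi
    · exact algFin_mul p (c i) (h1 i (by omega)) r'
    · rw [hi, mul_comm]
      exact algFin_mul p (c (m + 1)) h1' r

end Pool.Agent.Lib.MP_240c17_al.Tor
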