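import Pool.Agent.Lib.MP_240c17_al.Tor.Spec

/-!
(T4) Balancedness for words with one more letter.
-/

set_option autoImplicit false

namespace Pool.Agent.Lib.MP_240c17_al.Tor

universe u

open Pool.Agent.Lib.MP_240c17_al.Two

/-- The computation in a commutative ring. -/
private theorem bounded_alg {R : Type u} [CommRing R] (p : ℕ) [hp : Fact p.Prime] [CharP R p]
    (I : Ideal R) (m : ℕ) (β χ : R) (ξ : ℕ → R) (s Q : ℕ)
    (ha : ∀ j < m, β ^ p ^ s * ξ j ^ p ^ s * (β ^ Q - ξ j ^ Q) *
      ((β * χ) ^ p ^ s * (β ^ Q - χ ^ Q)) ∈ I)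
    (hb : ∀ j < m, χ ^ p ^ s * ξ j ^ p ^ s * (χ ^ Q - ξ j ^ Q) *
      ((β * χ) ^ p ^ s * (β ^ Q - χ ^ Q)) ∈ I)
    (hc : (β + ∑ j ∈ Finset.range m, ξ j) ^ p ^ s * χ ^ p ^ s *
      ((β + ∑ j ∈ Finset.range m, ξ j) ^ Q - χ ^ Q) ∈ I) :
    (β * χ) ^ p ^ (2 * s + 2) * (β ^ (p ^ (s + 2) * Q) - χ ^ (p ^ (s + 2) * Q)) ∈ I := by
  obtain ⟨P, hP⟩ : ∃ P, P = p ^ s := ⟨_, rfl⟩
  have hp1 : 2 ≤ p := hp.out.two_le
  have hPpos : 0 < P := by rw [hP]; exact pow_pos hp.out.pos s
  rw [← hP] at ha hb hc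
  obtain ⟨q, hq⟩ : ∃ q, q = (β * χ) ^ P * (β ^ Q - χ ^ Q) := ⟨_, rfl⟩
  rw [← hq] at ha hb
  -- the `ξ j` kill `q ^ 2`
  have h1 : ∀ j < m, ξ j ^ P * q ^ 2 ∈ I := by
    intro j hj
    have h2 := I.sub_mem (I.mul_mem_left (χ ^ P) (ha j hj)) (I.mul_mem_left (β ^ P) (hb j hj))
    have h3 : χ ^ P * (β ^ P * ξ j ^ P * (β ^ Q - ξ j ^ Q) * q) -
        β ^ P * (χ ^ P * ξ j ^ P * (χ ^ Q - ξ j ^ Q) * q) = ξ j ^ P * q ^ 2 := by
      rw [hq]
      ring
    rwa [h3] at h2
  obtain ⟨S, hS⟩ : ∃ S, S = β + ∑ j ∈ Finset.range m, ξ j := ⟨_, rfl⟩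
  rw [← hS] at hc
  have hSP : S ^ P = β ^ P + ∑ j ∈ Finset.range m, ξ j ^ P := by
    rw [hS, hP, add_pow_char_pow, sum_pow_char_pow]
  have h4 : ∀ t, (S ^ (P * t) - β ^ (P * t)) * q ^ 2 ∈ I := by
    intro t
    rw [pow_mul, pow_mul]
    obtain ⟨r, hr⟩ := sub_dvd_pow_sub_pow (S ^ P) (β ^ P) t
    rw [hr, hSP, add_sub_cancel_left]
    have h5 : (∑ j ∈ Finset.range m, ξ j ^ P) * r * q ^ 2 =
        r * ∑ j ∈ Finset.range m, ξ j ^ P * q ^ 2 := by
      rw [← Finset.sum_mul]
      ring
    rw [h5]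
    exact I.mul_mem_left _ (I.sum_mem fun j hj => h1 j (Finset.mem_range.mp hj))
  have h5 : (S ^ (P * P) * χ ^ (P * P) * (S ^ (P * Q) - χ ^ (P * Q))) * q ^ 2 ∈ I := by
    have h6 := I.pow_mem_of_mem hc P hPpos
    have h7 : (S ^ P * χ ^ P * (S ^ Q - χ ^ Q)) ^ P =
        S ^ (P * P) * χ ^ (P * P) * (S ^ (P * Q) - χ ^ (P * Q)) := by
      have h8 : (S ^ Q - χ ^ Q) ^ P = S ^ (P * Q) - χ ^ (P * Q) := by
        rw [hP, sub_pow_char_pow, ← pow_mul, ← pow_mul, mul_comm]
      rw [mul_pow, mul_pow, h8, ← pow_mul, ← pow_mul]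
    rw [h7] at h6
    exact I.mul_mem_right _ h6
  have h6 : ((β * χ) ^ (P * P) * (β ^ (P * Q) - χ ^ (P * Q))) * q ^ 2 ∈ I := by
    have h7 := I.mul_mem_left (χ ^ (P * P)) (h4 (P + Q))
    have h8 := I.mul_mem_left (χ ^ (P * P + P * Q)) (h4 P)
    have h9 := I.add_mem (I.sub_mem h5 h7) h8
    have h10 : (S ^ (P * P) * χ ^ (P * P) * (S ^ (P * Q) - χ ^ (P * Q))) * q ^ 2 -
        χ ^ (P * P) * ((S ^ (P * (P + Q)) - β ^ (P * (P + Q))) * q ^ 2) +
        χ ^ (P * P + P * Q) * ((S ^ (P * P) - β ^ (P * P)) * q ^ 2) =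
        ((β * χ) ^ (P * P) * (β ^ (P * Q) - χ ^ (P * Q))) * q ^ 2 := by
      rw [mul_pow, mul_add, pow_add, pow_add, pow_add]
      ring
    rwa [h10] at h9
  have h7 : β ^ (P * Q) - χ ^ (P * Q) = (β ^ Q - χ ^ Q) ^ P := by
    rw [hP, sub_pow_char_pow, ← pow_mul, ← pow_mul, mul_comm]
  have h8 : (β * χ) ^ (P * P + 2 * P) * (β ^ Q - χ ^ Q) ^ (P + 2) ∈ I := by
    have h9 : ((β * χ) ^ (P * P) * (β ^ (P * Q) - χ ^ (P * Q))) * q ^ 2 =
        (β * χ) ^ (P * P + 2 * P) * (β ^ Q - χ ^ Q) ^ (P + 2) := by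
      rw [h7, hq, pow_add, pow_add, mul_comm 2 P, pow_mul (β * χ) P 2]
      ring
    rwa [h9] at h6
  have h9 : β ^ (p ^ (s + 2) * Q) - χ ^ (p ^ (s + 2) * Q) = (β ^ Q - χ ^ Q) ^ p ^ (s + 2) := by
    rw [sub_pow_char_pow, ← pow_mul, ← pow_mul, mul_comm]
  rw [h9]
  have h10 : P + 2 ≤ p ^ (s + 2) := by
    rw [pow_add, ← hP]
    nlinarith [mul_le_mul hp1 hp1 (by norm_num) (by omega)]
  have h11 : P * P + 2 * P ≤ p ^ (2 * s + 2) := by
    rw [pow_add, mul_comm 2 s, pow_mul, ← hP, pow_two P]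
    have h12 : 4 ≤ p ^ 2 := by nlinarith
    nlinarith [Nat.mul_le_mul_left (P * P) h12, Nat.mul_le_mul_left P hPpos]
  obtain ⟨t1, ht1⟩ := Nat.exists_eq_add_of_le h10
  obtain ⟨t2, ht2⟩ := Nat.exists_eq_add_of_le h11
  rw [ht1, ht2, pow_add (β * χ) (P * P + 2 * P) t2, pow_add (β ^ Q - χ ^ Q) (P + 2) t1]
  have h12 : (β * χ) ^ (P * P + 2 * P) * (β * χ) ^ t2 *
      ((β ^ Q - χ ^ Q) ^ (P + 2) * (β ^ Q - χ ^ Q) ^ t1) =
      ((β * χ) ^ t2 * (β ^ Q - χ ^ Q) ^ t1) *
      ((β * χ) ^ (P * P + 2 * P) * (β ^ Q - χ ^ Q) ^ (P + 2)) := by ring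
  rw [h12]
  exact I.mul_mem_left _ h8

/-- A polynomial ring acts through commuting endomorphisms. -/
private theorem bounded_hom {k : Type u} [Field k] {Q : Type u} [AddCommGroup Q] [Module k Q]
    {ι : Type} (f : ι → Module.End k Q) (hf : ∀ i j, f i * f j = f j * f i) :
    ∃ g : MvPolynomial ι k →ₐ[k] Module.End k Q, ∀ i, g (MvPolynomial.X i) = f i := by
  classical
  let A : Subalgebra k (Module.End k Q) := Algebra.adjoin k (Set.range f)
  letI : CommRing A := Algebra.adjoinCommRingOfComm k (by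
    rintro _ ⟨i, rfl⟩ _ ⟨j, rfl⟩
    exact hf i j)
  let e : ι → A := fun i => ⟨f i, Algebra.subset_adjoin ⟨i, rfl⟩⟩
  refine ⟨A.val.comp (MvPolynomial.aeval e), fun i => ?_⟩
  rw [AlgHom.comp_apply, MvPolynomial.aeval_X]
  rfl

section

variable {k : Type u} [Field k] {L : Type u} [LieRing L] [LieAlgebra k L]

private theorem bounded_modify {α : Type u} (f g : List α) (w : α) (h : α → α) :
    (f ++ w :: g).modify f.length h = f ++ h w :: g := by
  induction f with
  | nil => rfl
  | cons z f ih =>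
    rw [List.cons_append, List.length_cons]
    show z :: (f ++ w :: g).modify f.length h = _
    rw [ih]
    rfl

private theorem bounded_split {α : Type u} (zs : List α) (j : ℕ) (hj : j < zs.length) :
    ∃ (f : List α) (w : α) (g : List α), f.length = j ∧ zs = f ++ w :: g := by
  induction zs generalizing j with
  | nil => simp at hj
  | cons z zs ih =>
    rcases j with _ | j
    · exact ⟨[], z, zs, rfl, rfl⟩
    · obtain ⟨f, w, g, h1, h2⟩ := ih j (by simpa using hj)
      exact ⟨z :: f, w, g, by simp [h1], by simp [h2]⟩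

/-- Leibniz for words. -/
private theorem bounded_leib (y : L) (zs : List L) : ∀ a : L, ⁅wd a zs, y⁆ = wd ⁅a, y⁆ zs +
    ∑ j ∈ Finset.range zs.length, wd a (zs.modify j (fun z => ⁅z, y⁆)) := by
  induction zs with
  | nil => intro a; simp
  | cons z zs ih =>
    intro a
    rw [wd_cons, ih, List.length_cons, Finset.sum_range_succ', wd_cons, lie_lie_swap a z y, wd_add]
    have h1 : ∀ j, wd a ((z :: zs).modify (j + 1) (fun z => ⁅z, y⁆)) =
        wd ⁅a, z⁆ (zs.modify j (fun z => ⁅z, y⁆)) := fun j => rfl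
    have h2 : wd a ((z :: zs).modify 0 (fun z => ⁅z, y⁆)) = wd ⁅a, ⁅z, y⁆⁆ zs := rfl
    simp only [h1, h2]
    abel

/-- Moving a letter to the left. -/
private theorem bounded_left {i P Q : ℕ} (hB : BalW k L i P Q) (y a b w : L) : ∀ f g : List L,
    f.length + g.length ≤ i →
    ⁅wd (pw k y (P + Q) a) (f ++ w :: g), pw k y P b⁆ -
      ⁅wd ⁅pw k y (P + Q) a, w⁆ (f ++ g), pw k y P b⁆ =
    ⁅wd (pw k y P a) (f ++ w :: g), pw k y (P + Q) b⁆ -
      ⁅wd ⁅pw k y P a, w⁆ (f ++ g), pw k y (P + Q) b⁆ := by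
  intro f
  induction f using List.reverseRecOn with
  | nil => intro g _; simp
  | append_singleton f z ih =>
    intro g hg
    rw [List.length_append, List.length_singleton] at hg
    have h1 : ∀ c : L, wd c ((f ++ [z]) ++ w :: g) = wd c (f ++ w :: (z :: g)) +
        wd c (f ++ ⁅z, w⁆ :: g) := by
      intro c
      rw [List.append_assoc, List.singleton_append, wd_append, wd_append, wd_append, wd_cons,
        wd_cons, wd_cons, wd_cons, wd_cons, ← wd_add, ← lie_lie_swap]
    have h2 : ∀ c : L, wd c ((f ++ [z]) ++ g) = wd c (f ++ (z :: g)) := by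
      intro c
      rw [List.append_assoc, List.singleton_append]
    have h3 := ih (z :: g) (by rw [List.length_cons]; omega)
    have h4 := hB y a b (f ++ ⁅z, w⁆ :: g) (by
      rw [List.length_append, List.length_cons]; omega)
    rw [h1, h1, h2, h2, add_lie, add_lie, h4]
    have h5 := congrArg (fun t => t + ⁅wd (pw k y P a) (f ++ ⁅z, w⁆ :: g), pw k y (P + Q) b⁆) h3
    refine Eq.trans ?_ (h5.trans ?_)
    · show _ = _ + _
      abel
    · show _ + _ = _
      abel

/-- Moving a letter to the right. -/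
private theorem bounded_right {i P Q : ℕ} (hB : BalW k L i P Q) (y a b w : L) : ∀ g f : List L,
    f.length + g.length ≤ i →
    ⁅wd (pw k y (P + Q) a) (f ++ w :: g), pw k y P b⁆ -
      ⁅wd (pw k y (P + Q) a) (f ++ g), ⁅w, pw k y P b⁆⁆ =
    ⁅wd (pw k y P a) (f ++ w :: g), pw k y (P + Q) b⁆ -
      ⁅wd (pw k y P a) (f ++ g), ⁅w, pw k y (P + Q) b⁆⁆ := by
  intro g
  induction g with
  | nil =>
    intro f hf
    have h1 : ∀ A b : L, ⁅⁅A, w⁆, b⁆ - ⁅A, ⁅w, b⁆⁆ = ⁅⁅A, b⁆, w⁆ := by
      intro A b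
      rw [lie_lie_swap A w b]
      abel
    rw [List.append_nil, wd_concat, wd_concat, h1, h1, hB y a b f (by simpa using hf)]
  | cons z g ih =>
    intro f hg
    rw [List.length_cons] at hg
    have h1 : ∀ c : L, wd c (f ++ w :: (z :: g)) = wd c ((f ++ [z]) ++ w :: g) +
        wd c (f ++ ⁅w, z⁆ :: g) := by
      intro c
      rw [List.append_assoc, List.singleton_append, wd_append, wd_append, wd_append, wd_cons,
        wd_cons, wd_cons, wd_cons, wd_cons, ← wd_add, ← lie_lie_swap]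
    have h2 : ∀ c : L, wd c (f ++ (z :: g)) = wd c ((f ++ [z]) ++ g) := by
      intro c
      rw [List.append_assoc, List.singleton_append]
    have h3 := ih (f ++ [z]) (by rw [List.length_append, List.length_singleton]; omega)
    have h4 := hB y a b (f ++ ⁅w, z⁆ :: g) (by
      rw [List.length_append, List.length_cons]; omega)
    rw [h1, h1, h2, h2, add_lie, add_lie, h4]
    have h5 := congrArg (fun t => t + ⁅wd (pw k y P a) (f ++ ⁅w, z⁆ :: g), pw k y (P + Q) b⁆) h3
    refine Eq.trans ?_ (h5.trans ?_)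
    · show _ = _ + _
      abel
    · show _ + _ = _
      abel

/-- The maps on the arguments. -/
private def bdH (y : L) : ℕ ⊕ Bool → (L × List L × L) → (L × List L × L)
  | Sum.inl j => fun d => (d.1, d.2.1.modify j (fun z => ⁅z, y⁆), d.2.2)
  | Sum.inr true => fun d => (⁅d.1, y⁆, d.2.1, d.2.2)
  | Sum.inr false => fun d => (d.1, d.2.1, ⁅d.2.2, y⁆)

/-- Removing an entry. -/
private def bdRm : ℕ → List L → L × List L
  | _, [] => (0, [])
  | 0, (z :: zs) => (z, zs)
  | (j + 1), (z :: zs) => ((bdRm j zs).1, z :: (bdRm j zs).2)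

private theorem bdRm_eq (f g : List L) (w : L) : bdRm f.length (f ++ w :: g) = (w, f ++ g) := by
  induction f with
  | nil => rfl
  | cons z f ih =>
    show ((bdRm f.length (f ++ w :: g)).1, z :: (bdRm f.length (f ++ w :: g)).2) = _
    rw [ih]
    rfl

private theorem bdModify_comm {α : Type u} (l : List α) (i j : ℕ) (h : α → α) :
    (l.modify i h).modify j h = (l.modify j h).modify i h := by
  induction l generalizing i j with
  | nil => simp
  | cons z l ih =>
    rcases i with _ | i <;> rcases j with _ | j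
    · rfl
    · rfl
    · rfl
    · show z :: (l.modify i h).modify j h = z :: (l.modify j h).modify i h
      rw [ih]

private theorem bdH_comm (y : L) (s t : ℕ ⊕ Bool) (d : L × List L × L) :
    bdH y s (bdH y t d) = bdH y t (bdH y s d) := by
  rcases s with j | s <;> rcases t with l | t
  · show (d.1, (d.2.1.modify l _).modify j _, d.2.2) = (d.1, (d.2.1.modify j _).modify l _, d.2.2)
    rw [bdModify_comm]
  · cases t <;> rfl
  · cases s <;> rfl
  · cases s <;> cases t <;> rfl

private theorem bdH_len (y : L) (j e : ℕ) (a : L) (zs : List L) (b : L) :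
    ∃ zs', (bdH y (Sum.inl j))^[e] (a, zs, b) = (a, zs', b) ∧ zs'.length = zs.length := by
  induction e with
  | zero => exact ⟨zs, rfl, rfl⟩
  | succ e ih =>
    obtain ⟨zs', h1, h2⟩ := ih
    refine ⟨zs'.modify j (fun z => ⁅z, y⁆), ?_, ?_⟩
    · rw [Function.iterate_succ_apply', h1]
      rfl
    · rw [List.length_modify, h2]

private theorem bdH_true (y : L) (e : ℕ) (d : L × List L × L) :
    (bdH y (Sum.inr true))^[e] d = (pw k y e d.1, d.2.1, d.2.2) := by
  induction e with
  | zero => simp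
  | succ e ih => rw [Function.iterate_succ_apply', ih, pw_succ]; rfl

private theorem bdH_false (y : L) (e : ℕ) (d : L × List L × L) :
    (bdH y (Sum.inr false))^[e] d = (d.1, d.2.1, pw k y e d.2.2) := by
  induction e with
  | zero => simp
  | succ e ih => rw [Function.iterate_succ_apply', ih, pw_succ]; rfl

private theorem bdH_inl (y : L) (e : ℕ) (a : L) (f g : List L) (w b : L) :
    (bdH y (Sum.inl f.length))^[e] (a, f ++ w :: g, b) = (a, f ++ pw k y e w :: g, b) := by
  induction e with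
  | zero => simp
  | succ e ih =>
    rw [Function.iterate_succ_apply', ih, pw_succ]
    show (a, (f ++ pw k y e w :: g).modify f.length _, b) = _
    rw [bounded_modify]

end

theorem boundStep : BoundStepProp.{u} := by
  classical
  intro k _ p hp _ L _ _ i s Q hB
  obtain ⟨P, hP⟩ : ∃ P, P = p ^ s := ⟨_, rfl⟩
  rw [← hP] at hB
  have hp1 : 2 ≤ p := hp.out.two_le
  have hPle : P ≤ p ^ (2 * s + 2) := by
    rw [hP]
    exact Nat.pow_le_pow_right (by omega) (by omega)
  intro y a b zs hzs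
  by_cases hlen : zs.length ≤ i
  · exact hB.mono hPle (p ^ (s + 2)) y a b zs hlen
  have hlen' : zs.length = i + 1 := by omega
  -- operators on functions
  obtain ⟨g, hg⟩ := bounded_hom (k := k) (Q := (L × List L × L) → L) (ι := ℕ ⊕ Bool)
    (fun t => LinearMap.funLeft k L (bdH y t)) (by
      intro t t'
      apply LinearMap.ext
      intro φ
      funext d
      show φ (bdH y t' (bdH y t d)) = φ (bdH y t (bdH y t' d))
      rw [bdH_comm])
  have hgX : ∀ (t : ℕ ⊕ Bool) (e : ℕ) (φ : (L × List L × L) → L) (d : L × List L × L),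
      g (MvPolynomial.X t ^ e) φ d = φ ((bdH y t)^[e] d) := by
    intro t e φ
    induction e with
    | zero => intro d; simp
    | succ e ih =>
      intro d
      rw [pow_succ', map_mul, Module.End.mul_apply, hg]
      show g (MvPolynomial.X t ^ e) φ (bdH y t d) = _
      rw [ih, Function.iterate_succ_apply]
  let W : (L × List L × L) → L := fun d => if d.2.1.length = i + 1 then ⁅wd d.1 d.2.1, d.2.2⁆ else 0
  have hWd : ∀ a zs b, zs.length = i + 1 → W (a, zs, b) = ⁅wd a zs, b⁆ := by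
    intro a zs b h
    show (if zs.length = i + 1 then ⁅wd a zs, b⁆ else 0) = _
    rw [if_pos h]
  have hW0 : ∀ a zs b, zs.length ≠ i + 1 → W (a, zs, b) = 0 := by
    intro a zs b h
    show (if zs.length = i + 1 then ⁅wd a zs, b⁆ else 0) = _
    rw [if_neg h]
  -- the annihilator
  let I : Ideal (MvPolynomial (ℕ ⊕ Bool) k) :=
    { carrier := {r | g r W = 0}
      add_mem' := by
        intro r r' hr hr'
        show g (r + r') W = 0
        rw [map_add, LinearMap.add_apply, hr, hr', add_zero]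
      zero_mem' := by
        show g 0 W = 0
        rw [map_zero, LinearMap.zero_apply]
      smul_mem' := by
        intro r r' hr'
        show g (r * r') W = 0
        have h : g r' W = 0 := hr'
        rw [map_mul, Module.End.mul_apply, h, map_zero] }
  have hI : ∀ r, r ∈ I ↔ g r W = 0 := fun r => Iff.rfl
  have hkey := bounded_alg (R := MvPolynomial (ℕ ⊕ Bool) k) p I (i + 1)
    (MvPolynomial.X (Sum.inr true)) (MvPolynomial.X (Sum.inr false))
    (fun j => MvPolynomial.X (Sum.inl j)) s Q ?_ ?_ ?_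
  · rw [hI] at hkey
    have h1 := congrFun hkey (a, zs, b)
    have h2 : (MvPolynomial.X (Sum.inr true) * MvPolynomial.X (Sum.inr false)) ^
        p ^ (2 * s + 2) * (MvPolynomial.X (Sum.inr true) ^ (p ^ (s + 2) * Q) -
          MvPolynomial.X (Sum.inr false) ^ (p ^ (s + 2) * Q)) =
        (MvPolynomial.X (Sum.inr true) ^ (p ^ (2 * s + 2) + p ^ (s + 2) * Q) *
          MvPolynomial.X (Sum.inr false) ^ p ^ (2 * s + 2) -
        MvPolynomial.X (Sum.inr true) ^ p ^ (2 * s + 2) *
          MvPolynomial.X (Sum.inr false) ^ (p ^ (2 * s + 2) + p ^ (s + 2) * Q) :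
          MvPolynomial (ℕ ⊕ Bool) k) := by ring
    rw [h2, map_sub, map_mul, map_mul, LinearMap.sub_apply, Module.End.mul_apply,
      Module.End.mul_apply, Pi.sub_apply, hgX, hgX, hgX, hgX, bdH_true (k := k),
      bdH_true (k := k), bdH_false (k := k), bdH_false (k := k), hWd _ _ _ hlen',
      hWd _ _ _ hlen'] at h1
    exact sub_eq_zero.mp h1
  · -- (a)
    intro j hj
    let W1 : (L × List L × L) → L := fun d =>
      if d.2.1.length = i + 1 then ⁅wd ⁅d.1, (bdRm j d.2.1).1⁆ (bdRm j d.2.1).2, d.2.2⁆ else 0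
    have hW1d : ∀ a f w g' b, f.length = j → (f ++ w :: g').length = i + 1 →
        W1 (a, f ++ w :: g', b) = ⁅wd ⁅a, w⁆ (f ++ g'), b⁆ := by
      intro a f w g' b h h'
      show (if (f ++ w :: g').length = i + 1 then
        ⁅wd ⁅a, (bdRm j (f ++ w :: g')).1⁆ (bdRm j (f ++ w :: g')).2, b⁆ else 0) = _
      rw [if_pos h', ← h, bdRm_eq]
    have hW10 : ∀ a zs b, zs.length ≠ i + 1 → W1 (a, zs, b) = 0 := by
      intro a zs b h
      show (if zs.length = i + 1 then _ else 0) = _
      rw [if_neg h]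
    have h1 : g (MvPolynomial.X (Sum.inr true) ^ (P + Q) * MvPolynomial.X (Sum.inl j) ^ P -
        MvPolynomial.X (Sum.inr true) ^ P * MvPolynomial.X (Sum.inl j) ^ (P + Q)) W1 = 0 := by
      funext ⟨a, zs, b⟩
      rw [map_sub, map_mul, map_mul, LinearMap.sub_apply, Module.End.mul_apply,
        Module.End.mul_apply, Pi.sub_apply, hgX, hgX, hgX, hgX, bdH_true (k := k),
        bdH_true (k := k)]
      by_cases hzs : zs.length = i + 1
      · obtain ⟨f, w, g', hf, rfl⟩ := bounded_split zs j (by omega)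
        rw [← hf, bdH_inl (k := k), bdH_inl (k := k), hW1d _ f _ g' _ hf (by simpa using hzs),
          hW1d _ f _ g' _ hf (by simpa using hzs), ← sub_lie, ← wd_sub]
        have h2 := hB y a w [] (Nat.zero_le _)
        rw [wd_nil, wd_nil] at h2
        rw [h2, sub_self, wd_zero, zero_lie]
        rfl
      · obtain ⟨zs1, h1, h2⟩ := bdH_len y j P (pw k y (P + Q) a) zs b
        obtain ⟨zs2, h3, h4⟩ := bdH_len y j (P + Q) (pw k y P a) zs b
        rw [h1, h3, hW10 _ _ _ (by omega), hW10 _ _ _ (by omega), sub_self]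
        rfl
    have h2 : g (MvPolynomial.X (Sum.inr true) ^ (P + Q) * MvPolynomial.X (Sum.inr false) ^ P -
        MvPolynomial.X (Sum.inr true) ^ P * MvPolynomial.X (Sum.inr false) ^ (P + Q)) (W - W1) =
        0 := by
      funext ⟨a, zs, b⟩
      generalize hD : W - W1 = D
      rw [map_sub, map_mul, map_mul, LinearMap.sub_apply, Module.End.mul_apply,
        Module.End.mul_apply, Pi.sub_apply, hgX, hgX, hgX, hgX, bdH_true (k := k),
        bdH_true (k := k), bdH_false (k := k), bdH_false (k := k), ← hD, Pi.sub_apply,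
        Pi.sub_apply]
      by_cases hzs : zs.length = i + 1
      · obtain ⟨f, w, g', hf, rfl⟩ := bounded_split zs j (by omega)
        rw [hWd _ _ _ hzs, hWd _ _ _ hzs, hW1d _ f _ g' _ hf hzs, hW1d _ f _ g' _ hf hzs]
        have h3 : f.length + g'.length ≤ i := by
          rw [List.length_append, List.length_cons] at hzs
          omega
        rw [bounded_left hB y a b w f g' h3, sub_self]
        rfl
      · rw [hW0 _ _ _ hzs, hW0 _ _ _ hzs, hW10 _ _ _ hzs, hW10 _ _ _ hzs, sub_self]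
        rfl
    rw [← hP, hI]
    have h3 : (MvPolynomial.X (Sum.inr true) ^ P * MvPolynomial.X (Sum.inl j) ^ P *
        (MvPolynomial.X (Sum.inr true) ^ Q - MvPolynomial.X (Sum.inl j) ^ Q) *
        ((MvPolynomial.X (Sum.inr true) * MvPolynomial.X (Sum.inr false)) ^ P *
        (MvPolynomial.X (Sum.inr true) ^ Q - MvPolynomial.X (Sum.inr false) ^ Q)) :
          MvPolynomial (ℕ ⊕ Bool) k) =
        (MvPolynomial.X (Sum.inr true) ^ (P + Q) * MvPolynomial.X (Sum.inl j) ^ P -
        MvPolynomial.X (Sum.inr true) ^ P * MvPolynomial.X (Sum.inl j) ^ (P + Q)) *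
        (MvPolynomial.X (Sum.inr true) ^ (P + Q) * MvPolynomial.X (Sum.inr false) ^ P -
        MvPolynomial.X (Sum.inr true) ^ P * MvPolynomial.X (Sum.inr false) ^ (P + Q)) := by
      ring
    have h4 : W = W1 + (W - W1) := by abel
    rw [h3, h4, map_add, map_mul, Module.End.mul_apply, Module.End.mul_apply, h2, map_zero,
      add_zero, ← Module.End.mul_apply, ← map_mul, mul_comm, map_mul, Module.End.mul_apply, h1,
      map_zero]
  · -- (b)
    intro j hj
    let W1 : (L × List L × L) → L := fun d =>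
      if d.2.1.length = i + 1 then ⁅wd d.1 (bdRm j d.2.1).2, ⁅(bdRm j d.2.1).1, d.2.2⁆⁆ else 0
    have hW1d : ∀ a f w g' b, f.length = j → (f ++ w :: g').length = i + 1 →
        W1 (a, f ++ w :: g', b) = ⁅wd a (f ++ g'), ⁅w, b⁆⁆ := by
      intro a f w g' b h h'
      show (if (f ++ w :: g').length = i + 1 then
        ⁅wd a (bdRm j (f ++ w :: g')).2, ⁅(bdRm j (f ++ w :: g')).1, b⁆⁆ else 0) = _
      rw [if_pos h', ← h, bdRm_eq]
    have hW10 : ∀ a zs b, zs.length ≠ i + 1 → W1 (a, zs, b) = 0 := by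
      intro a zs b h
      show (if zs.length = i + 1 then _ else 0) = _
      rw [if_neg h]
    have h1 : g (MvPolynomial.X (Sum.inr false) ^ (P + Q) * MvPolynomial.X (Sum.inl j) ^ P -
        MvPolynomial.X (Sum.inr false) ^ P * MvPolynomial.X (Sum.inl j) ^ (P + Q)) W1 = 0 := by
      funext ⟨a, zs, b⟩
      rw [map_sub, map_mul, map_mul, LinearMap.sub_apply, Module.End.mul_apply,
        Module.End.mul_apply, Pi.sub_apply, hgX, hgX, hgX, hgX, bdH_false (k := k),
        bdH_false (k := k)]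
      by_cases hzs : zs.length = i + 1
      · obtain ⟨f, w, g', hf, rfl⟩ := bounded_split zs j (by omega)
        rw [← hf, bdH_inl (k := k), bdH_inl (k := k), hW1d _ f _ g' _ hf (by simpa using hzs),
          hW1d _ f _ g' _ hf (by simpa using hzs), ← lie_sub]
        have h2 := hB y w b [] (Nat.zero_le _)
        rw [wd_nil, wd_nil] at h2
        rw [h2, sub_self, lie_zero]
        rfl
      · obtain ⟨zs1, h1, h2⟩ := bdH_len y j P a zs (pw k y (P + Q) b)
        obtain ⟨zs2, h3, h4⟩ := bdH_len y j (P + Q) a zs (pw k y P b)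
        rw [h1, h3, hW10 _ _ _ (by omega), hW10 _ _ _ (by omega), sub_self]
        rfl
    have h2 : g (MvPolynomial.X (Sum.inr true) ^ (P + Q) * MvPolynomial.X (Sum.inr false) ^ P -
        MvPolynomial.X (Sum.inr true) ^ P * MvPolynomial.X (Sum.inr false) ^ (P + Q)) (W - W1) =
        0 := by
      funext ⟨a, zs, b⟩
      generalize hD : W - W1 = D
      rw [map_sub, map_mul, map_mul, LinearMap.sub_apply, Module.End.mul_apply,
        Module.End.mul_apply, Pi.sub_apply, hgX, hgX, hgX, hgX, bdH_true (k := k),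
        bdH_true (k := k), bdH_false (k := k), bdH_false (k := k), ← hD, Pi.sub_apply,
        Pi.sub_apply]
      by_cases hzs : zs.length = i + 1
      · obtain ⟨f, w, g', hf, rfl⟩ := bounded_split zs j (by omega)
        rw [hWd _ _ _ hzs, hWd _ _ _ hzs, hW1d _ f _ g' _ hf hzs, hW1d _ f _ g' _ hf hzs]
        have h3 : f.length + g'.length ≤ i := by
          rw [List.length_append, List.length_cons] at hzs
          omega
        rw [bounded_right hB y a b w g' f h3, sub_self]
        rfl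
      · rw [hW0 _ _ _ hzs, hW0 _ _ _ hzs, hW10 _ _ _ hzs, hW10 _ _ _ hzs, sub_self]
        rfl
    rw [← hP, hI]
    have h3 : (MvPolynomial.X (Sum.inr false) ^ P * MvPolynomial.X (Sum.inl j) ^ P *
        (MvPolynomial.X (Sum.inr false) ^ Q - MvPolynomial.X (Sum.inl j) ^ Q) *
        ((MvPolynomial.X (Sum.inr true) * MvPolynomial.X (Sum.inr false)) ^ P *
        (MvPolynomial.X (Sum.inr true) ^ Q - MvPolynomial.X (Sum.inr false) ^ Q)) :
          MvPolynomial (ℕ ⊕ Bool) k) =
        (MvPolynomial.X (Sum.inr false) ^ (P + Q) * MvPolynomial.X (Sum.inl j) ^ P -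
        MvPolynomial.X (Sum.inr false) ^ P * MvPolynomial.X (Sum.inl j) ^ (P + Q)) *
        (MvPolynomial.X (Sum.inr true) ^ (P + Q) * MvPolynomial.X (Sum.inr false) ^ P -
        MvPolynomial.X (Sum.inr true) ^ P * MvPolynomial.X (Sum.inr false) ^ (P + Q)) := by
      ring
    have h4 : W = W1 + (W - W1) := by abel
    rw [h3, h4, map_add, map_mul, Module.End.mul_apply, Module.End.mul_apply, h2, map_zero,
      add_zero, ← Module.End.mul_apply, ← map_mul, mul_comm, map_mul, Module.End.mul_apply, h1,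
      map_zero]
  · -- (c)
    obtain ⟨S, hS⟩ : ∃ S : MvPolynomial (ℕ ⊕ Bool) k, S = MvPolynomial.X (Sum.inr true) +
      ∑ j ∈ Finset.range (i + 1), MvPolynomial.X (Sum.inl j) := ⟨_, rfl⟩
    have hSe : ∀ e, g (S ^ e) W = fun d =>
        if d.2.1.length = i + 1 then ⁅pw k y e (wd d.1 d.2.1), d.2.2⁆ else 0 := by
      intro e
      induction e with
      | zero =>
        rw [pow_zero, map_one]
        funext d
        simp only [pw_zero]
        rfl
      | succ e ih =>
        rw [pow_succ', map_mul, Module.End.mul_apply, ih]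
        funext ⟨a, zs, b⟩
        rw [hS, map_add, map_sum, LinearMap.add_apply, LinearMap.sum_apply, Pi.add_apply,
          Finset.sum_apply, hg]
        simp only [hg]
        show (if zs.length = i + 1 then ⁅pw k y e (wd ⁅a, y⁆ zs), b⁆ else 0) +
          ∑ j ∈ Finset.range (i + 1), (if (zs.modify j (fun z => ⁅z, y⁆)).length = i + 1 then
            ⁅pw k y e (wd a (zs.modify j (fun z => ⁅z, y⁆))), b⁆ else 0) =
          if zs.length = i + 1 then ⁅pw k y (e + 1) (wd a zs), b⁆ else 0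
        simp only [List.length_modify]
        by_cases hzs : zs.length = i + 1
        · simp only [if_pos hzs]
          rw [pw_succ', bounded_leib, map_add, map_sum, add_lie, hzs]
          congr 1
          exact (map_sum (adr k b) _ _).symm
        · simp only [if_neg hzs]
          simp
    rw [← hP, hI, ← hS]
    have h3 : (S ^ P * MvPolynomial.X (Sum.inr false) ^ P *
        (S ^ Q - MvPolynomial.X (Sum.inr false) ^ Q) : MvPolynomial (ℕ ⊕ Bool) k) =
        MvPolynomial.X (Sum.inr false) ^ P * S ^ (P + Q) -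
        MvPolynomial.X (Sum.inr false) ^ (P + Q) * S ^ P := by ring
    funext ⟨a, zs, b⟩
    rw [h3, map_sub, map_mul, map_mul, LinearMap.sub_apply, Module.End.mul_apply,
      Module.End.mul_apply, Pi.sub_apply, hSe, hSe, hgX, hgX, bdH_false (k := k),
      bdH_false (k := k)]
    show (if zs.length = i + 1 then ⁅pw k y (P + Q) (wd a zs), pw k y P b⁆ else 0) -
      (if zs.length = i + 1 then ⁅pw k y P (wd a zs), pw k y (P + Q) b⁆ else 0) = 0
    by_cases hzs : zs.length = i + 1
    · rw [if_pos hzs, if_pos hzs]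
      have h2 := hB y (wd a zs) b [] (Nat.zero_le _)
      rw [wd_nil, wd_nil] at h2
      rw [h2, sub_self]
    · rw [if_neg hzs, if_neg hzs, sub_self]

end Pool.Agent.Lib.MP_240c17_al.Tor
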