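import Pool.Agent.Lib.MP_240c17_al.Tor.Spec

/-!
(T23) Relative versions of the annihilator lemma and of separation from a finite dimensional space.
-/

set_option autoImplicit false

namespace Pool.Agent.Lib.MP_240c17_al.Tor

universe u

open Pool.Agent.Lib.MP_240c17_al.Two

section

variable {k : Type u} [Field k] {X : Type u} [AddCommGroup X] [Module k X]

/-- Finite codimension in a subspace, as a subspace of that subspace. -/
theorem rel_fc_comap {Y Z : Submodule k X} (h : FC Y Z) : FC (Y.comap Z.subtype) ⊤ := by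
  classical
  obtain ⟨W, hW⟩ := h
  let f : ↥Z →ₗ[k] X ⧸ Y := Y.mkQ.comp Z.subtype
  let V' : Submodule k (X ⧸ Y) := Submodule.span k ((W.image Y.mkQ : Finset (X ⧸ Y)) : Set (X ⧸ Y))
  have hfd : FiniteDimensional k V' := FiniteDimensional.span_finset k _
  have hle : LinearMap.range f ≤ V' := by
    rintro _ ⟨z, rfl⟩
    obtain ⟨a, ha, b, hb, hab⟩ := Submodule.mem_sup.mp (hW z.2)
    show Y.mkQ (z : X) ∈ V'
    rw [← hab, map_add]
    have h1 : Y.mkQ a = 0 := by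
      rw [← LinearMap.mem_ker, Submodule.ker_mkQ]; exact ha
    rw [h1, zero_add]
    have h4 : Y.mkQ b ∈ Submodule.map Y.mkQ (Submodule.span k (W : Set X)) := ⟨b, hb, rfl⟩
    rw [Submodule.map_span] at h4
    show Y.mkQ b ∈ Submodule.span k ((W.image Y.mkQ : Finset (X ⧸ Y)) : Set (X ⧸ Y))
    rw [Finset.coe_image]
    exact h4
  have hfd2 : FiniteDimensional k (LinearMap.range f) := Submodule.finiteDimensional_of_le hle
  have hfd3 : FiniteDimensional k (↥Z ⧸ LinearMap.ker f) :=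
    LinearEquiv.finiteDimensional f.quotKerEquivRange.symm
  have h5 : LinearMap.ker f = Y.comap Z.subtype := by
    ext z
    show Y.mkQ (z : X) = 0 ↔ (z : X) ∈ Y
    rw [← LinearMap.mem_ker, Submodule.ker_mkQ]
  rw [← h5]
  exact (fc_top_iff (LinearMap.ker f)).mpr hfd3

/-- The converse. -/
theorem rel_fc_map {Z : Submodule k X} {D : Submodule k ↥Z} (h : FC D ⊤) :
    FC (D.map Z.subtype) Z := by
  classical
  obtain ⟨W, hW⟩ := h
  refine ⟨W.image (fun w : ↥Z => (w : X)), ?_⟩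
  intro z hz
  obtain ⟨a, ha, b, hb, hab⟩ :=
    Submodule.mem_sup.mp (hW (Submodule.mem_top : (⟨z, hz⟩ : ↥Z) ∈ (⊤ : Submodule k ↥Z)))
  have h3 : (a : X) + (b : X) = z := by
    have := congrArg (fun w : ↥Z => (w : X)) hab
    simpa using this
  rw [← h3]
  refine Submodule.add_mem_sup ⟨a, ha, rfl⟩ ?_
  have h4 : (b : X) ∈ Submodule.map Z.subtype (Submodule.span k (W : Set ↥Z)) := ⟨b, hb, rfl⟩
  rw [Submodule.map_span] at h4
  rw [Finset.coe_image]
  exact h4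

theorem rel_fc_inf {Y C Z : Submodule k X} (h : FC Y Z) (hC : C ≤ Z) : FC (C ⊓ Y) C := by
  have h1 := rel_fc_map (rel_fc_comap (h.mono le_rfl hC))
  refine h1.mono ?_ le_rfl
  rintro _ ⟨z, hz, rfl⟩
  exact ⟨z.2, hz⟩

/-- Generation in the subspace. -/
theorem rel_gen {ι : Type} {φ : ι → Module.End k X} {Y Z : Submodule k X} (hZ : Stab φ Z)
    (hYZ : Y ≤ Z) (h : ∃ S : Finset X, gen φ (S : Set X) ⊔ Y = Z) :
    ∃ S : Finset ↥Z, gen (fun i => (φ i).restrict (hZ i)) (S : Set ↥Z) ⊔ Y.comap Z.subtype = ⊤ := by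
  classical
  obtain ⟨S, hS⟩ := h
  have hSZ : ∀ s ∈ S, s ∈ Z := by
    intro s hs
    rw [← hS]
    exact (le_sup_left : gen φ (S : Set X) ≤ _) (subset_gen φ _ hs)
  refine ⟨S.attach.image (fun s => ⟨s.1, hSZ s.1 s.2⟩), ?_⟩
  rw [eq_top_iff]
  intro z _
  have h1 : gen φ (S : Set X) ≤ (gen (fun i => (φ i).restrict (hZ i))
      ((S.attach.image (fun s => (⟨s.1, hSZ s.1 s.2⟩ : ↥Z)) : Finset ↥Z) : Set ↥Z)).map
      Z.subtype := by
    apply gen_le
    · rintro i _ ⟨w, hw, rfl⟩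
      exact ⟨(φ i).restrict (hZ i) w, gen_stab _ _ i w hw, rfl⟩
    · intro s hs
      refine ⟨⟨s, hSZ s hs⟩, subset_gen _ _ ?_, rfl⟩
      rw [Finset.coe_image]
      exact ⟨⟨s, hs⟩, Finset.mem_coe.mpr (Finset.mem_attach S _), rfl⟩
  have h2 : (z : X) ∈ gen φ (S : Set X) ⊔ Y := by rw [hS]; exact z.2
  obtain ⟨a, ha, b, hb, hab⟩ := Submodule.mem_sup.mp h2
  obtain ⟨a', ha', rfl⟩ := h1 ha
  have h3 : z = a' + ⟨b, hYZ hb⟩ := Subtype.ext hab.symm
  rw [h3]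
  exact Submodule.add_mem_sup ha' hb

end

theorem annRel (h : AnnProp.{u}) : AnnRelProp.{u} := by
  intro k _ X _ _ ι _ φ Y Z C hY hZ hc hgen hC hYC hCZ hfc
  let φ' : ι → Module.End k ↥Z := fun i => (φ i).restrict (hZ i)
  have hφ' : ∀ i (z : ↥Z), ((φ' i z : ↥Z) : X) = φ i z := fun i z => rfl
  obtain ⟨D, hD1, hD2, hD3, hD4⟩ := h k ↥Z ι φ' (Y.comap Z.subtype) (C.comap Z.subtype)
    (fun i z hz => hY i _ hz) (fun i j z _ => hc i j z z.2) (rel_gen hZ (hYC.trans hCZ) hgen)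
    (fun i z hz => hC i _ hz) (fun z hz => hYC hz) (rel_fc_comap hfc)
  refine ⟨D.map Z.subtype, ?_, ?_, rel_fc_map hD3, ?_⟩
  · intro y hy
    exact ⟨⟨y, (hYC.trans hCZ) hy⟩, hD1 (show (y : X) ∈ Y from hy), rfl⟩
  · rintro _ ⟨z, hz, rfl⟩
    exact hD2 hz
  · intro ψ hψZ hψY hψ
    rintro _ ⟨z, hz, rfl⟩
    have h1 := hD4 (ψ.restrict hψZ) (fun i => by
      apply LinearMap.ext
      intro w
      apply Subtype.ext
      exact hψ i w w.2) (fun y hy => hψY _ hy) z hz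
    exact ⟨_, h1, rfl⟩

theorem sepFd (h : RfdProp.{u}) : SepFdProp.{u} := by
  classical
  intro k _ X _ _ ι _ φ Y Z W U hY hc hgen hW hYW hWU hUZ hfc
  obtain ⟨F, hF⟩ := hfc
  have hZs : Stab φ Z := by
    obtain ⟨S, hS⟩ := hgen
    rw [← hS]
    exact (gen_stab _ _).sup hY
  let V' : Submodule k (X ⧸ W) := Submodule.span k ((F.image W.mkQ : Finset (X ⧸ W)) : Set (X ⧸ W))
  have hfd : FiniteDimensional k V' := FiniteDimensional.span_finset k _
  have hVV' : ∀ v ∈ U, W.mkQ v ∈ V' := by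
    intro v hv
    obtain ⟨a, ha, b, hb, rfl⟩ := Submodule.mem_sup.mp (hF hv)
    have h1 : W.mkQ a = 0 := by
      rw [← LinearMap.mem_ker, Submodule.ker_mkQ]; exact ha
    rw [map_add, h1, zero_add]
    have h4 : W.mkQ b ∈ Submodule.map W.mkQ (Submodule.span k (F : Set X)) := ⟨b, hb, rfl⟩
    rw [Submodule.map_span] at h4
    show W.mkQ b ∈ Submodule.span k ((F.image W.mkQ : Finset (X ⧸ W)) : Set (X ⧸ W))
    rw [Finset.coe_image]
    exact h4
  let P : ℕ → Prop := fun d => ∃ D : Submodule k X, W ≤ D ∧ D ≤ Z ∧ Stab φ D ∧ FC D Z ∧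
    Module.finrank k ↥(D.map W.mkQ ⊓ V') = d
  have hP : ∃ d, P d := ⟨_, Z, hWU.trans hUZ, le_rfl, hZs, FC.refl _, rfl⟩
  obtain ⟨D, hWD, hDZ, hDs, hDfc, hDd⟩ := Nat.find_spec hP
  have hmin := fun d (hd : d < Nat.find hP) => Nat.find_min hP hd
  refine ⟨D, hDs, hWD, hDZ, hDfc, ?_⟩
  intro x hx
  by_contra hxW
  obtain ⟨D2, hD2s, hWD2, _, hxD2, hD2fc⟩ := h k X ι φ Y Z W x hY hc hgen hW
    hYW (hWU.trans hUZ) (hUZ hx.2) hxW
  have hfc : FC (D ⊓ D2) Z := (rel_fc_inf hD2fc hDZ).trans hDfc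
  have hlt : (D ⊓ D2).map W.mkQ ⊓ V' < D.map W.mkQ ⊓ V' := by
    refine lt_of_le_of_ne (inf_le_inf_right _ (Submodule.map_mono inf_le_left)) ?_
    intro heq
    have h1 : W.mkQ x ∈ D.map W.mkQ ⊓ V' := ⟨⟨x, hx.1, rfl⟩, hVV' x hx.2⟩
    rw [← heq] at h1
    obtain ⟨⟨y, hy, hyx⟩, _⟩ := h1
    apply hxD2
    have h2 : x - y ∈ W := by
      rw [← Submodule.ker_mkQ W, LinearMap.mem_ker, map_sub, hyx, sub_self]
    have h3 := D2.add_mem (hWD2 h2) hy.2
    simpa using h3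
  have hle : Module.finrank k ↥((D ⊓ D2).map W.mkQ ⊓ V') < Module.finrank k ↥(D.map W.mkQ ⊓ V') :=
    by
      have hfd2 : FiniteDimensional k ↥(D.map W.mkQ ⊓ V') :=
        Submodule.finiteDimensional_of_le inf_le_right
      exact Submodule.finrank_lt_finrank_of_lt hlt
  rw [hDd] at hle
  exact hmin _ hle ⟨D ⊓ D2, le_inf hWD hWD2, inf_le_left.trans hDZ, hDs.inf hD2s, hfc, rfl⟩

end Pool.Agent.Lib.MP_240c17_al.Tor
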