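import Pool.Agent.Lib.MP_240c17_al.Tor.Spec

/-!
Consequences of the invertibility of the Vandermonde matrix.
-/

set_option autoImplicit false

namespace Pool.Agent.Lib.MP_240c17_al.Tor

universe u

open Pool.Agent.Lib.MP_240c17_al.Two

private theorem Vand_inv (k : Type u) [Field k] {n : ℕ} (ν : Fin n → k)
    (hν : Function.Injective ν) : ∃ W : Fin n → Fin n → k, ∀ i l : Fin n,
      ∑ s : Fin n, W i s * ν s ^ (l : ℕ) = if i = l then 1 else 0 := by
  have hdet : IsUnit (Matrix.vandermonde ν).det :=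
    isUnit_iff_ne_zero.2 (Matrix.det_vandermonde_ne_zero_iff.2 hν)
  refine ⟨fun i s => (Matrix.vandermonde ν)⁻¹ i s, ?_⟩
  intro i l
  have h1 := Matrix.nonsing_inv_mul (Matrix.vandermonde ν) hdet
  have h2 := congrFun (congrFun h1 i) l
  rw [Matrix.mul_apply, Matrix.one_apply] at h2
  simpa [Matrix.vandermonde_apply] using h2

theorem weights : WeightsProp.{u} := by
  intro k _ _ c
  let lam : ℕ → k := Infinite.natEmbedding k
  obtain ⟨W, hW⟩ := Vand_inv k (fun s : Fin (c + 1) => lam s)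
    (fun a b h => Fin.ext ((Infinite.natEmbedding k).injective h))
  refine ⟨lam, fun i s => if h : i < c + 1 ∧ s < c + 1 then W ⟨i, h.1⟩ ⟨s, h.2⟩ else 0, ?_⟩
  intro i hi l hl
  have hi' : i < c + 1 := Nat.lt_succ_iff.2 hi
  have hl' : l < c + 1 := Nat.lt_succ_iff.2 hl
  have h1 := hW ⟨i, hi'⟩ ⟨l, hl'⟩
  rw [Finset.sum_range]
  have h2 : ∀ s : Fin (c + 1), (if h : i < c + 1 ∧ (s : ℕ) < c + 1 then
      W ⟨i, h.1⟩ ⟨(s : ℕ), h.2⟩ else 0) * lam s ^ l = W ⟨i, hi'⟩ s * lam s ^ l := by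
    intro s
    rw [dif_pos ⟨hi', s.2⟩]
  rw [Finset.sum_congr rfl (fun s _ => h2 s), h1]
  simp only [Fin.mk.injEq]

theorem lagrange : LagrangeProp.{u} := by
  intro k _ r ν hν
  obtain ⟨W, hW⟩ := Vand_inv k ν hν
  refine ⟨fun μ i => ∑ j : Fin r, μ ^ (j : ℕ) * W j i, ?_⟩
  intro μ l hl
  have h1 : ∑ i : Fin r, (∑ j : Fin r, μ ^ (j : ℕ) * W j i) * ν i ^ l =
      ∑ j : Fin r, μ ^ (j : ℕ) * ∑ i : Fin r, W j i * ν i ^ l := by
    simp only [Finset.sum_mul, Finset.mul_sum]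
    rw [Finset.sum_comm]
    simp only [mul_assoc]
  rw [h1]
  have h2 : ∀ j : Fin r, ∑ i : Fin r, W j i * ν i ^ l = if j = ⟨l, hl⟩ then 1 else 0 :=
    fun j => hW j ⟨l, hl⟩
  simp only [h2]
  simp

theorem momSpan : MomSpanProp.{u} := by
  intro k _ F _ _ n x ν hν j
  obtain ⟨W, hW⟩ := Vand_inv k ν hν
  have h1 : x j = ∑ i : Fin n, W j i • mom k x (ν i) := by
    simp only [mom, Finset.smul_sum, smul_smul]
    rw [Finset.sum_comm]
    simp only [← Finset.sum_smul, hW]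
    simp
  rw [h1]
  refine Submodule.sum_mem _ (fun i _ => Submodule.smul_mem _ _ ?_)
  exact Submodule.subset_span ⟨i, rfl⟩

end Pool.Agent.Lib.MP_240c17_al.Tor
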