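import Pool.Agent.Lib.MP_240c17_al.Tor.Spec
import Pool.Agent.Lib.MP_240c17_al.Tor.Vand
import Pool.Agent.Lib.MP_240c17_al.Tor.Rel

/-!
(T22) The relative version of (T21).
-/

set_option autoImplicit false

namespace Pool.Agent.Lib.MP_240c17_al.Tor

universe u

open Pool.Agent.Lib.MP_240c17_al.Two

/-- The coefficients of a polynomial family with values in a subspace are in the subspace. -/
private theorem closedQ_pf {k : Type u} [Field k] [Infinite k] {X : Type u} [AddCommGroup X]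
    [Module k X] {d : ℕ} {f : k → X} (Z : Submodule k X) (hf : PF k d f) (hZ : ∀ μ, f μ ∈ Z) :
    ∃ q : ℕ → X, (∀ l, q l ∈ Z) ∧ ∀ μ, f μ = ∑ l ∈ Finset.range (d + 1), μ ^ l • q l := by
  obtain ⟨q, hq⟩ := hf
  obtain ⟨lam, g, hg⟩ := weights k d
  refine ⟨fun i => ∑ s ∈ Finset.range (d + 1), g i s • f (lam s), ?_, ?_⟩
  · intro l
    exact Submodule.sum_mem _ fun s _ => Submodule.smul_mem _ _ (hZ _)
  · intro μ
    rw [hq]
    apply Finset.sum_congr rfl
    intro l hl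
    rw [Finset.mem_range] at hl
    congr 1
    simp only [hq, Finset.smul_sum]
    rw [Finset.sum_comm]
    have h4 : ∀ i ∈ Finset.range (d + 1), ∑ s ∈ Finset.range (d + 1),
        g l s • lam s ^ i • q i = if i = l then q l else 0 := by
      intro i hi
      rw [Finset.mem_range] at hi
      simp only [smul_smul]
      rw [← Finset.sum_smul, hg l (by omega) i (by omega)]
      by_cases h : l = i
      · rw [if_pos h, if_pos h.symm, one_smul, h]
      · rw [if_neg h, if_neg (fun h' => h h'.symm), zero_smul]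
    rw [Finset.sum_congr rfl h4, Finset.sum_ite_eq' (Finset.range (d + 1)) l,
      if_pos (Finset.mem_range.mpr hl)]

theorem closedQ (h : ClosedTProp.{u}) : ClosedQProp.{u} := by
  classical
  intro k _ _ X _ _ n d a b z T ν Y Z B ζ ha hYB hBZ hzY hTY hzZ hTZ hz hT hzz hTT hzT hrel hgen
    hB hBgen hζZ hζ
  let Y' : Submodule k ↥Z := Y.comap Z.subtype
  let Q := ↥Z ⧸ Y'
  let pr : ↥Z →ₗ[k] Q := Y'.mkQ
  have hpr : Function.Surjective pr := Y'.mkQ_surjective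
  have hpr0 : ∀ w : ↥Z, pr w = 0 ↔ (w : X) ∈ Y := by
    intro w
    rw [← LinearMap.mem_ker]
    show w ∈ LinearMap.ker Y'.mkQ ↔ _
    rw [Submodule.ker_mkQ]
    exact Iff.rfl
  -- induced operators
  have hop : ∀ ψ : Module.End k X, (∀ w ∈ Z, ψ w ∈ Z) → (∀ w ∈ Y, ψ w ∈ Y) →
      ∃ ψ' : Module.End k Q, ∀ (w : X) (hw : w ∈ Z) (hw' : ψ w ∈ Z), ψ' (pr ⟨w, hw⟩) = pr ⟨ψ w, hw'⟩ := by
    intro ψ hψZ hψY
    refine ⟨Y'.mapQ Y' (ψ.restrict hψZ) (fun w hw => hψY _ hw), ?_⟩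
    intro w hw hw'
    rfl
  choose z' hz' using fun μ => hop (z μ) (hzZ μ) (hzY μ)
  choose T' hT' using fun μ => hop (T μ) (hTZ μ) (hTY μ)
  have hzp : ∀ (μ : k) (w : X) (hw : w ∈ Z), z' μ (pr ⟨w, hw⟩) = pr ⟨z μ w, hzZ μ w hw⟩ :=
    fun μ w hw => hz' μ w hw _
  have hTp : ∀ (μ : k) (w : X) (hw : w ∈ Z), T' μ (pr ⟨w, hw⟩) = pr ⟨T μ w, hTZ μ w hw⟩ :=
    fun μ w hw => hT' μ w hw _
  have heq : ∀ (w w' : X) (hw : w ∈ Z) (hw' : w' ∈ Z), w - w' ∈ Y → pr ⟨w, hw⟩ = pr ⟨w', hw'⟩ := by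
    intro w w' hw hw' h
    rw [← sub_eq_zero, ← map_sub, hpr0]
    exact h
  have hcommute : ∀ ψ ψ' : Module.End k Q, (∀ (w : X) (hw : w ∈ Z),
      ψ (ψ' (pr ⟨w, hw⟩)) = ψ' (ψ (pr ⟨w, hw⟩))) → Commute ψ ψ' := by
    intro ψ ψ' h
    apply LinearMap.ext
    intro q
    obtain ⟨w, rfl⟩ := hpr q
    exact h w.1 w.2
  have hpf : ∀ (f : k → X) (hf : ∀ μ, f μ ∈ Z), PF k d f → PF k d (fun μ => pr ⟨f μ, hf μ⟩) := by
    intro f hf hfd
    obtain ⟨q, hq1, hq2⟩ := closedQ_pf Z hfd hf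
    refine ⟨fun l => pr ⟨q l, hq1 l⟩, fun μ => ?_⟩
    simp only [← map_smul, ← map_sum]
    congr 1
    apply Subtype.ext
    rw [AddSubmonoidClass.coe_finset_sum]
    exact hq2 μ
  have hpow : ∀ (ψ : Module.End k X) (ψ' : Module.End k Q) (hψ : ∀ w ∈ Z, ψ w ∈ Z),
      (∀ (w : X) (hw : w ∈ Z), ψ' (pr ⟨w, hw⟩) = pr ⟨ψ w, hψ w hw⟩) → ∀ (e : ℕ) (w : X)
      (hw : w ∈ Z), ∃ hw' : (ψ ^ e) w ∈ Z, (ψ' ^ e) (pr ⟨w, hw⟩) = pr ⟨(ψ ^ e) w, hw'⟩ := by
    intro ψ ψ' hψ h1 e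
    induction e with
    | zero => intro w hw; exact ⟨hw, rfl⟩
    | succ e ih =>
      intro w hw
      obtain ⟨hw', h2⟩ := ih w hw
      refine ⟨?_, ?_⟩
      · rw [pow_succ', Module.End.mul_apply]
        exact hψ _ hw'
      · rw [pow_succ', Module.End.mul_apply, h2, h1]
        congr 1
        apply Subtype.ext
        show ψ ((ψ ^ e) w) = (ψ ^ (e + 1)) w
        rw [pow_succ', Module.End.mul_apply]
  -- the subspace
  let B' : Submodule k Q := (B.comap Z.subtype).map pr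
  have hB' : ∀ (w : X) (hw : w ∈ Z), pr ⟨w, hw⟩ ∈ B' ↔ w ∈ B := by
    intro w hw
    constructor
    · rintro ⟨w', hw', h1⟩
      have h2 : (w : X) - w' ∈ Y := by
        have h3 := (hpr0 (⟨w, hw⟩ - w')).mp (by rw [map_sub, h1, sub_self])
        exact h3
      have h3 : (w' : X) ∈ B := hw'
      have h4 := B.add_mem (hYB h2) h3
      rwa [sub_add_cancel] at h4
    · intro h1
      exact ⟨⟨w, hw⟩, h1, rfl⟩
  -- generation
  have hgenQ : ∀ (φ : Fin n → Module.End k X) (φ' : Fin n → Module.End k Q)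
      (hφ : ∀ i, ∀ w ∈ Z, φ i w ∈ Z),
      (∀ (i : Fin n) (w : X) (hw : w ∈ Z), φ' i (pr ⟨w, hw⟩) = pr ⟨φ i w, hφ i w hw⟩) →
      ∀ (C : Submodule k X), Y ≤ C → C ≤ Z → (∃ S : Finset X, gen φ (S : Set X) ⊔ Y = C) →
      ∃ S : Finset Q, gen φ' (S : Set Q) = (C.comap Z.subtype).map pr := by
    intro φ φ' hφ h1 C hYC hCZ hS
    obtain ⟨S, hS⟩ := hS
    have hSC : ∀ s ∈ S, s ∈ C := by
      intro s hs
      rw [← hS]
      exact (le_sup_left : gen φ (S : Set X) ≤ _) (subset_gen φ _ hs)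
    refine ⟨S.attach.image (fun s => pr ⟨s.1, hCZ (hSC s.1 s.2)⟩), le_antisymm ?_ ?_⟩
    · apply gen_le
      · rintro i _ ⟨w, hw, rfl⟩
        have h2 : (w : X) ∈ gen φ (S : Set X) ⊔ Y := by rw [hS]; exact hw
        obtain ⟨u, hu, y, hy, huy⟩ := Submodule.mem_sup.mp h2
        have huZ : u ∈ Z := by
          have h3 : u ∈ C := by rw [← hS]; exact (le_sup_left : gen φ (S : Set X) ≤ _) hu
          exact hCZ h3
        have h3 : pr w = pr ⟨u, huZ⟩ := by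
          apply heq
          rw [← huy, add_sub_cancel_left]
          exact hy
        rw [h3, h1]
        refine ⟨⟨φ i u, hφ i u huZ⟩, ?_, rfl⟩
        show φ i u ∈ C
        rw [← hS]
        exact (le_sup_left : gen φ (S : Set X) ≤ _) (gen_stab φ _ i u hu)
      · intro s hs
        rw [Finset.coe_image] at hs
        obtain ⟨s, _, rfl⟩ := hs
        exact ⟨⟨s.1, hCZ (hSC s.1 s.2)⟩, hSC s.1 s.2, rfl⟩
    · rintro _ ⟨w, hw, rfl⟩
      have h2 : (w : X) ∈ gen φ (S : Set X) ⊔ Y := by rw [hS]; exact hw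
      obtain ⟨u, hu, y, hy, huy⟩ := Submodule.mem_sup.mp h2
      -- the elements of `Z` whose image is in the generated subspace
      let G' : Submodule k Q := gen φ' ((S.attach.image (fun s =>
        pr ⟨s.1, hCZ (hSC s.1 s.2)⟩) : Finset Q) : Set Q)
      have h3 : gen φ (S : Set X) ≤ (G'.comap pr).map Z.subtype := by
        apply gen_le
        · rintro i _ ⟨w', hw', rfl⟩
          refine ⟨⟨φ i w', hφ i w' w'.2⟩, ?_, rfl⟩
          show pr ⟨φ i w', hφ i w' w'.2⟩ ∈ G'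
          rw [← h1 i w' w'.2]
          exact gen_stab φ' _ i _ hw'
        · intro s hs
          refine ⟨⟨s, hCZ (hSC s hs)⟩, ?_, rfl⟩
          show pr ⟨s, hCZ (hSC s hs)⟩ ∈ G'
          apply subset_gen
          rw [Finset.coe_image]
          exact ⟨⟨s, hs⟩, Finset.mem_coe.mpr (Finset.mem_attach S _), rfl⟩
      obtain ⟨u', hu', rfl⟩ := h3 hu
      have h4 : pr w = pr u' := by
        apply heq w.1 u'.1 w.2 u'.2
        rw [← huy]
        show (u' : X) + y - u' ∈ Y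
        rw [add_sub_cancel_left]
        exact hy
      rw [h4]
      exact hu'
  have hZtop : (Z.comap Z.subtype).map pr = ⊤ := by
    rw [eq_top_iff]
    intro q _
    obtain ⟨w, rfl⟩ := hpr q
    exact ⟨w, w.2, rfl⟩
  obtain ⟨D, hD1, hD2, hD3⟩ := h k Q n d a b z' T' ν B' (pr ⟨ζ, hζZ⟩) ha
    (by
      intro q
      obtain ⟨w, rfl⟩ := hpr q
      have h1 := hpf (fun μ => z μ w) (fun μ => hzZ μ w w.2) (hz w)
      have h2 : (fun μ => z' μ (pr w)) = fun μ => pr ⟨z μ w, hzZ μ w w.2⟩ := by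
        funext μ
        exact hzp μ w w.2
      rw [h2]
      exact h1)
    (by
      intro q
      obtain ⟨w, rfl⟩ := hpr q
      have h1 := hpf (fun μ => T μ w) (fun μ => hTZ μ w w.2) (hT w)
      have h2 : (fun μ => T' μ (pr w)) = fun μ => pr ⟨T μ w, hTZ μ w w.2⟩ := by
        funext μ
        exact hTp μ w w.2
      rw [h2]
      exact h1)
    (fun μ μ' => hcommute _ _ (fun w hw => by
      rw [hzp, hzp, hzp, hzp]
      exact heq _ _ _ _ (hzz μ μ' w hw)))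
    (fun μ μ' => hcommute _ _ (fun w hw => by
      rw [hTp, hTp, hTp, hTp]
      exact heq _ _ _ _ (hTT μ μ' w hw)))
    (fun μ μ' => hcommute _ _ (fun w hw => by
      rw [hTp, hzp, hzp, hTp]
      exact heq _ _ _ _ (hzT μ μ' w hw)))
    (by
      intro μ
      apply LinearMap.ext
      intro q
      obtain ⟨w, rfl⟩ := hpr q
      rw [Module.End.mul_apply]
      obtain ⟨h1, h2⟩ := hpow (T μ) (T' μ) (hTZ μ) (hTp μ) a w w.2
      obtain ⟨h3, h4⟩ := hpow (z μ) (z' μ) (hzZ μ) (hzp μ) (1 + b) w w.2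
      have h5 : pr w = pr ⟨(w : X), w.2⟩ := rfl
      rw [h5, h2, h4, hzp]
      exact heq _ _ _ _ (hrel μ w w.2))
    (by
      obtain ⟨S, hS⟩ := hgenQ (fun i => T (ν i)) (fun i => T' (ν i)) (fun i => hTZ (ν i))
        (fun i w hw => hTp (ν i) w hw) Z (hYB.trans hBZ) le_rfl hgen
      exact ⟨S, by rw [hS, hZtop]⟩)
    (by
      rintro i _ ⟨w, hw, rfl⟩
      have h5 : pr w = pr ⟨(w : X), w.2⟩ := rfl
      rw [h5, hzp, hB']
      exact hB i w hw)
    (hgenQ (fun i => z (ν i)) (fun i => z' (ν i)) (fun i => hzZ (ν i))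
        (fun i w hw => hzp (ν i) w hw) B hYB hBZ hBgen)
    (fun h1 => hζ ((hB' ζ hζZ).mp h1))
  refine ⟨(D.comap pr).map Z.subtype, ?_, ?_, ?_, ?_, ?_⟩
  · intro y hy
    refine ⟨⟨y, (hYB.trans hBZ) hy⟩, ?_, rfl⟩
    show pr _ ∈ D
    rw [(hpr0 _).mpr hy]
    exact D.zero_mem
  · rintro _ ⟨w, _, rfl⟩
    exact w.2
  · rintro i _ ⟨w, hw, rfl⟩
    refine ⟨⟨T (ν i) w, hTZ (ν i) w w.2⟩, ?_, rfl⟩
    show pr _ ∈ D
    rw [← hTp (ν i) w w.2]
    exact hD1 i _ hw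
  · apply rel_fc_map
    obtain ⟨W, hW⟩ := hD2
    obtain ⟨r, hr⟩ := hpr.hasRightInverse
    refine ⟨W.image r, ?_⟩
    intro w _
    obtain ⟨u, hu, v, hv, huv⟩ := Submodule.mem_sup.mp (hW (Submodule.mem_top : pr w ∈ ⊤))
    have h1 : Submodule.span k (W : Set Q) ≤
        (Submodule.span k ((W.image r : Finset ↥Z) : Set ↥Z)).map pr := by
      rw [Submodule.span_le]
      intro w hw
      refine ⟨r w, Submodule.subset_span (by simpa using ⟨w, hw, rfl⟩), hr w⟩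
    obtain ⟨v', hv', rfl⟩ := h1 hv
    refine Submodule.mem_sup.mpr ⟨w - v', ?_, v', hv', by abel⟩
    show pr (w - v') ∈ D
    rw [map_sub, ← huv, add_sub_cancel_right]
    exact hu
  · intro h1
    obtain ⟨u, hu, v, ⟨v', hv', hvv⟩, huv⟩ := Submodule.mem_sup.mp h1
    apply hD3
    have huZ : u ∈ Z := hBZ hu
    have h2 : pr ⟨ζ, hζZ⟩ = pr ⟨u, huZ⟩ + pr v' := by
      rw [← map_add]
      congr 1
      apply Subtype.ext
      show ζ = u + v'
      rw [← huv, ← hvv]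
      rfl
    rw [h2]
    exact Submodule.add_mem_sup ((hB' u huZ).mpr hu) hv'

end Pool.Agent.Lib.MP_240c17_al.Tor
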