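import Pool.Agent.Lib.MP_240c17_al.Tor.Spec
import Pool.Agent.Lib.MP_240c17_al.Two.Mod
import Pool.Agent.Lib.MP_240c17_al.Two.Hilbert
import Pool.Agent.Lib.MP_240c17_al.Two.Rfd
import Pool.Agent.Lib.MP_240c17_al.Two.Ann
import Pool.Agent.Lib.MP_240c17_al.Two.Integral
import Pool.Agent.Lib.MP_240c17_al.Two.Closed

/-!
(T21) Closedness for commuting families with `z μ * T μ ^ a = z μ ^ (1 + b)`.
-/

set_option autoImplicit false

namespace Pool.Agent.Lib.MP_240c17_al.Tor

universe u

open Pool.Agent.Lib.MP_240c17_al.Two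

theorem closedT (h : X0Prop.{u}) : ClosedTProp.{u} := by
  classical
  intro k _ _ X _ _ n d a b z T ν B ζ ha hz hT hzz hTT hzT hrel hgen hB hBgen hζ
  obtain ⟨X₀, q, hX1, hX2, hX3, hX4⟩ := h k X d a b z T hz hT hzz hTT hzT hrel
  have hcl : ClosedProp.{u} := closed (hilbert mod_) (rfd mod_) (ann mod_) polyFd
  let σ : Fin n → Module.End k X := fun i => z (ν i)
  let τ : Fin n → Module.End k X := fun i => T (ν i)
  have hsX : Stab (Sum.elim σ τ) X₀ :=
    stab_elim.mpr ⟨fun i w hw => hX1 (ν i) w hw, fun i w hw => hX2 (ν i) w hw⟩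
  have hgen2 : ∃ S : Finset X, gen (Sum.elim σ τ) (S : Set X) = ⊤ := by
    obtain ⟨S, hS⟩ := hgen
    refine ⟨S, ?_⟩
    rw [eq_top_iff, ← hS]
    exact gen_le (stab_elim.mp (gen_stab (Sum.elim σ τ) (S : Set X))).2 (subset_gen _ _)
  have hcomm : ∀ i j x, (Sum.elim σ τ) i ((Sum.elim σ τ) j x) =
      (Sum.elim σ τ) j ((Sum.elim σ τ) i x) := by
    rintro (i | i) (j | j) x
    · exact LinearMap.congr_fun (hzz (ν i) (ν j)).eq x
    · exact LinearMap.congr_fun (hzT (ν i) (ν j)).eq x
    · exact (LinearMap.congr_fun (hzT (ν j) (ν i)).eq x).symm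
    · exact LinearMap.congr_fun (hTT (ν i) (ν j)).eq x
  have hint : ∃ S : Finset X, gen σ (S : Set X) ⊔ X₀ = ⊤ := by
    apply integral k X (Fin n) (Fin n) σ τ X₀ ⊤ hsX
    · intro i j x _
      rw [hcomm, sub_self]
      exact X₀.zero_mem
    · obtain ⟨S, hS⟩ := hgen2
      exact ⟨S, by rw [hS, top_sup_eq]⟩
    · intro j
      refine ⟨a, fun l => if l = 0 then σ j ^ b else 0, ?_, ?_⟩
      · intro l
        by_cases hl : l = 0
        · simp only [if_pos hl]
          have h5 : σ j ∈ Algebra.adjoin k (Set.range σ) := Algebra.subset_adjoin ⟨j, rfl⟩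
          exact pow_mem h5 b
        · simp only [if_neg hl]
          exact zero_mem _
      · intro x _
        rw [Finset.sum_eq_single 0]
        · simp only [if_true, pow_zero, Module.End.one_apply]
          exact hX4 (ν j) x
        · intro l _ hl
          simp only [if_neg hl, LinearMap.zero_apply]
        · intro h0
          exact absurd (Finset.mem_range.mpr ha) h0
  obtain ⟨D, _, hD2, hD3, hD4⟩ := hcl k X n σ τ ⊥ X₀ B q ζ (fun i j => hzz _ _)
    (fun i j => hTT _ _) (fun i j => hzT _ _) (stab_bot _) hsX bot_le bot_le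
    (fun i w hw => hB i w hw) (by
      obtain ⟨S, hS⟩ := hgen2
      exact ⟨S, by rw [hS, top_sup_eq]⟩) (by
      obtain ⟨S, hS⟩ := hBgen
      refine ⟨S, ?_⟩
      rw [sup_bot_eq]
      exact hS) hint (fun i x hx => by
      rw [Submodule.mem_bot]
      exact hX3 (ν i) x hx) hζ
  exact ⟨D, fun i w hw => (stab_elim.mp hD2).2 i w hw, hD3, hD4⟩

end Pool.Agent.Lib.MP_240c17_al.Tor
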