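import Pool.Agent.Lib.MP_240c17_al.Tor.Spec
import Pool.Agent.Lib.MP_240c17_al.Two.LieGen

/-!
MP_240c17_al, module Cof (helper72): finite codimension of an ideal containing high powers.
-/

set_option autoImplicit false

namespace Pool.Agent.Lib.MP_240c17_al.Tor

universe u

open Pool.Agent.Lib.MP_240c17_al.Two

namespace Cofaux

variable {k : Type u} [Field k] {F : Type u} [LieRing F] [LieAlgebra k F]

/-- Letters may be permuted modulo `gam 2`. -/
theorem wd_perm {l l' : List F} (h : l.Perm l') : ∀ a ∈ gam k F 1, wd a l - wd a l' ∈ gam k F 2 := by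
  induction h with
  | nil =>
    intro a _
    simp
  | cons z _ ih =>
    intro a ha
    exact ih _ (lie_mem_right ha z)
  | swap z w l =>
    intro a ha
    simp only [wd_cons]
    rw [← wd_sub]
    exact wd_mem (lie_comm_mod le_rfl ha _ _) _
  | trans _ _ ih1 ih2 =>
    intro a ha
    have := add_mem (ih1 a ha) (ih2 a ha)
    simpa using this

theorem wd_replicate (y : F) (M : ℕ) (b : F) : wd b (List.replicate M y) = pw k y M b := by
  induction M generalizing b with
  | zero => simp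
  | succ M ih => rw [List.replicate_succ, wd_cons, ih, ← pw_succ']

/-- A word with many equal letters. -/
theorem wd_many {n : ℕ} {x : Fin n → F} {M : ℕ} {G : LieIdeal k F}
    (hG : ∀ (j : Fin n) (w : F), pw k (x j) M w ∈ G) {a : F} (ha : a ∈ gam k F 1)
    (ls : List (Fin n)) (j : Fin n) (hj : M ≤ ls.count j) :
    wd a (ls.map x) ∈ G.toSubmodule ⊔ (gam k F 2).toSubmodule := by
  obtain ⟨rest, hr⟩ := (List.replicate_sublist_iff.2 hj).exists_perm_append
  have h1 : (ls.map x).Perm (List.replicate M (x j) ++ rest.map x) := by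
    have := hr.map x
    rwa [List.map_append, List.map_replicate] at this
  have h2 := wd_perm h1 a ha
  have h3 : wd a (List.replicate M (x j) ++ rest.map x) ∈ G := by
    rw [wd_append, wd_replicate (k := k)]
    exact wd_mem (hG j a) _
  have h4 : wd a (ls.map x) = wd a (List.replicate M (x j) ++ rest.map x) +
      (wd a (ls.map x) - wd a (List.replicate M (x j) ++ rest.map x)) := by abel
  rw [h4]
  exact Submodule.add_mem_sup h3 h2

theorem length_le {n M : ℕ} (ls : List (Fin n)) (h : ∀ j, ls.count j < M) :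
    ls.length ≤ n * M := by
  classical
  rw [← List.sum_toFinset_count_eq_length]
  calc ∑ a ∈ ls.toFinset, ls.count a ≤ ∑ a ∈ ls.toFinset, M :=
        Finset.sum_le_sum fun a _ => (h a).le
    _ ≤ ∑ _a : Fin n, M := Finset.sum_le_sum_of_subset (Finset.subset_univ _)
    _ = n * M := by simp

theorem step1 {n : ℕ} {x : Fin n → F} {M : ℕ} {G : LieIdeal k F}
    (hx : LieSubalgebra.lieSpan k F (Set.range x) = ⊤)
    (hG : ∀ (j : Fin n) (w : F), pw k (x j) M w ∈ G) :
    FC (G.toSubmodule ⊔ (gam k F 2).toSubmodule) (gam k F 1).toSubmodule := by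
  classical
  have hfin : {l : List (Fin n) | l.length ≤ n * M}.Finite := List.finite_length_le (Fin n) (n * M)
  let W : Finset F := ((Finset.univ ×ˢ Finset.univ) ×ˢ hfin.toFinset).image
    (fun p : (Fin n × Fin n) × List (Fin n) => wd ⁅x p.1.1, x p.1.2⁆ (p.2.map x))
  refine ⟨W, ?_⟩
  rw [gam_one, D1_words hx, Submodule.span_le]
  rintro _ ⟨i, j, ls, rfl⟩
  by_cases h : ∃ l, M ≤ ls.count l
  · obtain ⟨l, hl⟩ := h
    exact Submodule.mem_sup_left (wd_many hG (lie_mem_D1 _ _) ls l hl)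
  · push Not at h
    apply Submodule.mem_sup_right
    apply Submodule.subset_span
    rw [Finset.mem_coe, Finset.mem_image]
    refine ⟨((i, j), ls), ?_, rfl⟩
    simp only [Finset.mem_product, Finset.mem_univ, true_and, Set.Finite.mem_toFinset,
      Set.mem_ofPred_eq]
    exact length_le ls h

theorem bracket_span (W W' : Finset F) (U : Submodule k F)
    (h : ∀ w ∈ W, ∀ w' ∈ W', ⁅w, w'⁆ ∈ U) :
    ∀ s ∈ Submodule.span k (W : Set F), ∀ s' ∈ Submodule.span k (W' : Set F), ⁅s, s'⁆ ∈ U := by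
  intro s hs s' hs'
  have h1 : ∀ w ∈ W, ⁅w, s'⁆ ∈ U := by
    intro w hw
    have h2 : Submodule.span k (W' : Set F) ≤ U.comap (LieAlgebra.ad k F w : F →ₗ[k] F) := by
      rw [Submodule.span_le]
      intro w' hw'
      exact h w hw w' hw'
    exact h2 hs'
  have h3 : Submodule.span k (W : Set F) ≤ U.comap (adr k s') := by
    rw [Submodule.span_le]
    intro w hw
    exact h1 w hw
  exact h3 hs

theorem step2 {G : LieIdeal k F}
    (h1 : FC (G.toSubmodule ⊔ (gam k F 2).toSubmodule) (gam k F 1).toSubmodule) :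
    ∀ i : ℕ, 1 ≤ i → FC (G.toSubmodule ⊔ (gam k F (i + 1)).toSubmodule) (gam k F i).toSubmodule := by
  classical
  intro i hi
  induction i, hi using Nat.le_induction with
  | base => exact h1
  | succ i hi ih =>
    obtain ⟨W, hW⟩ := h1
    obtain ⟨Wi, hWi⟩ := ih
    let W2 : Finset F := (Wi ×ˢ W).image (fun p : F × F => ⁅p.1, p.2⁆)
    refine ⟨W2, ?_⟩
    refine gam_succ_le hi fun a ha b hb => ?_
    -- decompositions
    obtain ⟨y, hy, s, hs, hys⟩ := Submodule.mem_sup.1 (hWi ha)
    obtain ⟨g, hg, a', ha', hga⟩ := Submodule.mem_sup.1 hy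
    obtain ⟨y', hy', s', hs', hys'⟩ := Submodule.mem_sup.1 (hW hb)
    obtain ⟨g', hg', b', hb', hgb⟩ := Submodule.mem_sup.1 hy'
    have hg : g ∈ G := hg
    have hg' : g' ∈ G := hg'
    have ha' : a' ∈ gam k F (i + 1) := ha'
    have hb' : b' ∈ gam k F 2 := hb'
    have hss : ⁅s, s'⁆ ∈ Submodule.span k (W2 : Set F) := by
      refine bracket_span Wi W _ (fun w hw w' hw' => ?_) s hs s' hs'
      apply Submodule.subset_span
      rw [Finset.mem_coe, Finset.mem_image]
      exact ⟨(w, w'), Finset.mem_product.2 ⟨hw, hw'⟩, rfl⟩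
    have e : ⁅a, b⁆ = ((⁅g, b⁆ + ⁅s, g'⁆ - ⁅g, b'⁆) + (⁅a', b⁆ + ⁅a, b'⁆ - ⁅a', b'⁆)) + ⁅s, s'⁆ := by
      rw [← hys, ← hys', ← hga, ← hgb]
      simp only [add_lie, lie_add]
      abel
    rw [e]
    have hG1 : ⁅g, b⁆ + ⁅s, g'⁆ - ⁅g, b'⁆ ∈ G :=
      sub_mem (add_mem (lie_mem_right hg b) (lie_mem_left' hg' s)) (lie_mem_right hg b')
    have hG2 : ⁅a', b⁆ + ⁅a, b'⁆ - ⁅a', b'⁆ ∈ gam k F (i + 1 + 1) := by
      refine sub_mem (add_mem ?_ ?_) ?_
      · exact lie_mem_gam (by omega) ha' hb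
      · exact lie_mem_gam_gam hi (by norm_num) ha hb'
      · exact gam_anti (by omega) (lie_mem_gam_gam (i := i + 1) (by omega) (by norm_num) ha' hb')
    exact Submodule.add_mem_sup (Submodule.add_mem_sup hG1 hG2) hss

theorem step3 {G : LieIdeal k F}
    (h2 : ∀ i : ℕ, 1 ≤ i → FC (G.toSubmodule ⊔ (gam k F (i + 1)).toSubmodule)
      (gam k F i).toSubmodule) :
    ∀ i : ℕ, FC (G.toSubmodule ⊔ (gam k F (i + 1)).toSubmodule) (gam k F 1).toSubmodule := by
  intro i
  induction i with
  | zero => exact FC.of_le le_sup_right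
  | succ i ih =>
    have h3 : FC (G.toSubmodule ⊔ (gam k F (i + 1 + 1)).toSubmodule)
        (G.toSubmodule ⊔ (gam k F (i + 1)).toSubmodule) := by
      obtain ⟨W, hW⟩ := h2 (i + 1) (by omega)
      exact ⟨W, sup_le (le_sup_left.trans le_sup_left) hW⟩
    exact h3.trans ih

end Cofaux

theorem cof : CofProp.{u} := by
  intro k _ F _ _ n x c M G hx hc hG
  have h1 := Cofaux.step1 (G := G) hx hG
  have h3 := Cofaux.step3 (Cofaux.step2 h1) c
  rw [hc] at h3
  have h4 : FC G.toSubmodule (gam k F 1).toSubmodule := by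
    refine h3.mono ?_ le_rfl
    rw [LieSubmodule.bot_toSubmodule, sup_bot_eq]
  exact h4.trans (derFc k F n x hx)

end Pool.Agent.Lib.MP_240c17_al.Tor
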