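import Pool.Agent.Lib.MP_240c17_al.Tor.Spec
import Pool.Agent.Lib.MP_240c17_al.Two.Mod

/-!
Commuting operators, all of whose `r`-fold products of high powers vanish, are nilpotent.
-/

set_option autoImplicit false

namespace Pool.Agent.Lib.MP_240c17_al.Tor

universe u

open Pool.Agent.Lib.MP_240c17_al.Two

section

variable {k : Type u} [Field k] {X : Type u} [AddCommGroup X] [Module k X] {L : ℕ}
  {Z : Submodule k X} {Q : Type u} [AddCommGroup Q] [Module k Q] [Module (MvPolynomial (Fin L) k) Q]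
  [IsScalarTower k (MvPolynomial (Fin L) k) Q]

/-- The polynomial acts as the operator. -/
private def CRel (pr : ↥Z →ₗ[k] Q) (p : MvPolynomial (Fin L) k) (ψ : Module.End k X) : Prop :=
  ∀ z : ↥Z, ∃ h : ψ z ∈ Z, p • pr z = pr ⟨ψ z, h⟩

omit [IsScalarTower k (MvPolynomial (Fin L) k) Q] in
private theorem crel_one (pr : ↥Z →ₗ[k] Q) : CRel (L := L) pr 1 1 := fun z =>
  ⟨z.2, by rw [one_smul]; rfl⟩

omit [IsScalarTower k (MvPolynomial (Fin L) k) Q] in
private theorem crel_mul (pr : ↥Z →ₗ[k] Q) {p q : MvPolynomial (Fin L) k} {ψ χ : Module.End k X}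
    (h1 : CRel pr p ψ) (h2 : CRel pr q χ) : CRel pr (p * q) (ψ * χ) := by
  intro z
  obtain ⟨a, ha⟩ := h2 z
  obtain ⟨b, hb⟩ := h1 ⟨χ z, a⟩
  exact ⟨b, by rw [mul_smul, ha, hb]; rfl⟩

omit [IsScalarTower k (MvPolynomial (Fin L) k) Q] in
private theorem crel_pow (pr : ↥Z →ₗ[k] Q) {p : MvPolynomial (Fin L) k} {ψ : Module.End k X}
    (h1 : CRel pr p ψ) (m : ℕ) : CRel pr (p ^ m) (ψ ^ m) := by
  induction m with
  | zero => rw [pow_zero, pow_zero]; exact crel_one pr
  | succ m ih => rw [pow_succ, pow_succ]; exact crel_mul pr ih h1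

omit [IsScalarTower k (MvPolynomial (Fin L) k) Q] in
private theorem crel_prod (pr : ↥Z →ₗ[k] Q) {φ : Fin L → Module.End k X}
    (h : ∀ i, CRel pr (MvPolynomial.X i) (φ i)) (m : ℕ) (l : List (Fin L)) :
    CRel pr (l.map fun i => (MvPolynomial.X i : MvPolynomial (Fin L) k) ^ m).prod
      (l.map fun i => φ i ^ m).prod := by
  induction l with
  | nil => exact crel_one pr
  | cons i l ih =>
    rw [List.map_cons, List.map_cons, List.prod_cons, List.prod_cons]
    exact crel_mul pr (crel_pow pr (h i) m) ih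

private theorem crel_span (pr : ↥Z →ₗ[k] Q) {φ : Fin L → Module.End k X}
    (h : ∀ i, CRel pr (MvPolynomial.X i) (φ i)) (s : Set (Fin L)) (ψ : Module.End k X)
    (hψ : ψ ∈ Submodule.span k (φ '' s)) :
    ∃ p ∈ Submodule.span k ((MvPolynomial.X : Fin L → MvPolynomial (Fin L) k) '' s),
      CRel pr p ψ := by
  induction hψ using Submodule.span_induction with
  | mem x hx =>
    obtain ⟨i, hi, rfl⟩ := hx
    exact ⟨_, Submodule.subset_span ⟨i, hi, rfl⟩, h i⟩
  | zero =>
    refine ⟨0, Submodule.zero_mem _, fun z => ⟨Z.zero_mem, ?_⟩⟩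
    rw [zero_smul]
    exact (map_zero pr).symm
  | add x y _ _ hx hy =>
    obtain ⟨p, hp, hp'⟩ := hx
    obtain ⟨q, hq, hq'⟩ := hy
    refine ⟨p + q, Submodule.add_mem _ hp hq, fun z => ?_⟩
    obtain ⟨a, ha⟩ := hp' z
    obtain ⟨b, hb⟩ := hq' z
    refine ⟨Z.add_mem a b, ?_⟩
    rw [add_smul, ha, hb, ← map_add]
    rfl
  | smul c x _ hx =>
    obtain ⟨p, hp, hp'⟩ := hx
    refine ⟨c • p, Submodule.smul_mem _ c hp, fun z => ?_⟩
    obtain ⟨a, ha⟩ := hp' z
    refine ⟨Z.smul_mem c a, ?_⟩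
    rw [smul_assoc, ha, ← map_smul]
    rfl

/-- A linear combination of elements of an ideal. -/
private theorem comb_ideal (J : Ideal (MvPolynomial (Fin L) k)) (s : Set (Fin L))
    (hs : ∀ i ∈ s, (MvPolynomial.X i : MvPolynomial (Fin L) k) ∈ J)
    {p : MvPolynomial (Fin L) k}
    (hp : p ∈ Submodule.span k ((MvPolynomial.X : Fin L → MvPolynomial (Fin L) k) '' s)) :
    p ∈ J := by
  have h1 : Submodule.span k ((MvPolynomial.X : Fin L → MvPolynomial (Fin L) k) '' s) ≤
      J.restrictScalars k := by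
    rw [Submodule.span_le]
    rintro _ ⟨i, hi, rfl⟩
    exact hs i hi
  exact h1 hp

end

private theorem comb_prime {R : Type u} [CommRing R] {P : Ideal R} (hP : P.IsPrime) {ι : Type}
    (f : ι → R) (m : ℕ) (l : List ι) (h : (l.map fun i => f i ^ m).prod ∈ P) :
    ∃ i ∈ l, f i ∈ P := by
  induction l with
  | nil => exact absurd ((Ideal.eq_top_iff_one P).2 h) hP.ne_top
  | cons i l ih =>
    rw [List.map_cons, List.prod_cons] at h
    rcases hP.mem_or_mem h with h | h
    · exact ⟨i, List.mem_cons_self, hP.mem_of_pow_mem m h⟩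
    · obtain ⟨j, hj, hj'⟩ := ih h
      exact ⟨j, List.mem_cons_of_mem _ hj, hj'⟩

theorem comb : CombProp.{u} := by
  classical
  intro k _ X _ _ L n r P₀ φ Y Z A hYZ hAZ hAY hcomm hφA hrn hspan hprod
  rcases Nat.eq_zero_or_pos r with hr | hr
  · refine ⟨0, fun ψ _ z hz => ?_⟩
    have := hprod [] List.nodup_nil (by simp [hr]) z hz
    simpa using this
  obtain ⟨Q, iQ1, iQ2, iQ3, iQ4, pr, hpr1, hpr2, hpr3⟩ := mod_ k X (Fin L) φ Y Z
    (fun i z hz => hAZ _ (hφA i) z hz) (fun i y hy => hAY _ (hφA i) y hy) hYZ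
    (fun i j z hz => hcomm _ (hφA i) _ (hφA j) z hz)
  have hX : ∀ i, CRel pr (MvPolynomial.X i) (φ i) := fun i z => ⟨_, hpr3 i z⟩
  set R := MvPolynomial (Fin L) k with hR
  set I : Ideal R := Module.annihilator R Q with hI
  -- an operator with values in `Y`
  have hann : ∀ (p : R) (ψ : Module.End k X), CRel pr p ψ → (∀ z ∈ Z, ψ z ∈ Y) → p ∈ I := by
    intro p ψ h1 h2
    rw [hI, Module.mem_annihilator]
    intro q
    obtain ⟨z, rfl⟩ := hpr1 q
    obtain ⟨a, ha⟩ := h1 z
    rw [ha, hpr2]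
    exact h2 z z.2
  have huniq : ∀ (p q : R) (ψ : Module.End k X), CRel pr p ψ → CRel pr q ψ → p - q ∈ I := by
    intro p q ψ h1 h2
    rw [hI, Module.mem_annihilator]
    intro m
    obtain ⟨z, rfl⟩ := hpr1 m
    obtain ⟨a, ha⟩ := h1 z
    obtain ⟨b, hb⟩ := h2 z
    rw [sub_smul, ha, hb, sub_self]
  have hrad : ∀ j : Fin L, (MvPolynomial.X j : R) ∈ I.radical := by
    intro j
    rw [Ideal.radical_eq_sInf, Submodule.mem_sInf]
    rintro P ⟨hIP, hP⟩
    set T : Finset (Fin L) := Finset.univ.filter fun i => (MvPolynomial.X i : R) ∈ P with hT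
    by_cases hc : n ≤ T.card
    · obtain ⟨s, hsT, hs⟩ := Finset.exists_subset_card_eq hc
      obtain ⟨p, hp, hp'⟩ := crel_span pr hX (s : Set (Fin L)) (φ j) (hspan s hs (hφA j))
      have h1 : p ∈ P := comb_ideal P (s : Set (Fin L)) (fun i hi => by
        have := hsT (Finset.mem_coe.1 hi)
        rw [hT, Finset.mem_filter] at this
        exact this.2) hp
      have h2 := hIP (huniq _ _ _ (hX j) hp')
      have h3 := P.add_mem h2 h1
      rwa [sub_add_cancel] at h3
    · push Not at hc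
      have hcard : r ≤ (Tᶜ).card := by
        rw [Finset.card_compl, Fintype.card_fin]
        omega
      obtain ⟨s, hsT, hs⟩ := Finset.exists_subset_card_eq hcard
      have h1 := hann _ _ (crel_prod pr hX P₀ s.toList)
        (fun z hz => hprod s.toList s.nodup_toList (by rw [Finset.length_toList, hs]) z hz)
      have h2 := hIP h1
      obtain ⟨i, hi, hi'⟩ := comb_prime hP _ P₀ _ h2
      have h3 := hsT (Finset.mem_toList.1 hi)
      rw [Finset.mem_compl, hT, Finset.mem_filter] at h3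
      exact absurd ⟨Finset.mem_univ _, hi'⟩ h3
  set J : Ideal R := Ideal.span (Set.range (MvPolynomial.X : Fin L → R)) with hJ
  have hJrad : J ≤ I.radical := by
    rw [hJ, Ideal.span_le]
    rintro _ ⟨j, rfl⟩
    exact hrad j
  obtain ⟨M, hM⟩ := Ideal.exists_pow_le_of_le_radical_of_fg hJrad
    ⟨(Set.finite_range (MvPolynomial.X : Fin L → R)).toFinset, by rw [Set.Finite.coe_toFinset]⟩
  refine ⟨M, fun ψ hψ z hz => ?_⟩
  obtain ⟨s, -, hs⟩ := Finset.exists_subset_card_eq
    (show n ≤ (Finset.univ : Finset (Fin L)).card by rw [Finset.card_fin]; omega)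
  obtain ⟨p, hp, hp'⟩ := crel_span pr hX (s : Set (Fin L)) ψ (hspan s hs hψ)
  have h1 : p ∈ J := comb_ideal J (s : Set (Fin L))
    (fun i _ => Ideal.subset_span ⟨i, rfl⟩) hp
  have h2 : p ^ M ∈ I := hM (Ideal.pow_mem_pow h1 M)
  rw [hI, Module.mem_annihilator] at h2
  obtain ⟨a, ha⟩ := crel_pow pr hp' M ⟨z, hz⟩
  rw [h2] at ha
  exact (hpr2 _).1 ha.symm

end Pool.Agent.Lib.MP_240c17_al.Tor
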