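import Pool.Agent.Lib.MP_240c17_al.Tor.Spec

/-!
(T7) The operators `T` add `N` letters `v` to the first factor of a word.
-/

set_option autoImplicit false

namespace Pool.Agent.Lib.MP_240c17_al.Tor

universe u

open Pool.Agent.Lib.MP_240c17_al.Two

section

variable {k : Type u} [Field k] {F : Type u} [LieRing F] [LieAlgebra k F]

/-- The sum of the words where `i` letters `z` are replaced by `pw k v m z`. -/
private def exG (k : Type u) [Field k] {F : Type u} [LieRing F] [LieAlgebra k F] (v : F) (m : ℕ) :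
    List F → ℕ → F → F
  | [], 0, b => b
  | [], (_ + 1), _ => 0
  | (z :: ls), 0, b => exG k v m ls 0 ⁅b, z⁆
  | (z :: ls), (i + 1), b => exG k v m ls (i + 1) ⁅b, z⁆ + exG k v m ls i ⁅b, pw k v m z⁆

private theorem exG_zero (v : F) (m : ℕ) (ls : List F) : ∀ b, exG k v m ls 0 b = wd b ls := by
  induction ls with
  | nil => intro b; rfl
  | cons z ls ih => intro b; exact ih _

private theorem exG_add (v : F) (m : ℕ) (ls : List F) : ∀ (i : ℕ) (b b' : F),
    exG k v m ls i (b + b') = exG k v m ls i b + exG k v m ls i b' := by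
  induction ls with
  | nil =>
    intro i b b'
    rcases i with _ | i
    · rfl
    · show (0 : F) = 0 + 0
      rw [add_zero]
  | cons z ls ih =>
    intro i b b'
    rcases i with _ | i
    · show exG k v m ls 0 ⁅b + b', z⁆ = exG k v m ls 0 ⁅b, z⁆ + exG k v m ls 0 ⁅b', z⁆
      rw [add_lie, ih]
    · show exG k v m ls (i + 1) ⁅b + b', z⁆ + exG k v m ls i ⁅b + b', pw k v m z⁆ =
        (exG k v m ls (i + 1) ⁅b, z⁆ + exG k v m ls i ⁅b, pw k v m z⁆) +
        (exG k v m ls (i + 1) ⁅b', z⁆ + exG k v m ls i ⁅b', pw k v m z⁆)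
      rw [add_lie, add_lie, ih, ih]
      abel

private theorem exG_smul (v : F) (m : ℕ) (ls : List F) : ∀ (i : ℕ) (t : k) (b : F),
    exG k v m ls i (t • b) = t • exG k v m ls i b := by
  induction ls with
  | nil =>
    intro i t b
    rcases i with _ | i
    · rfl
    · show (0 : F) = t • (0 : F)
      rw [smul_zero]
  | cons z ls ih =>
    intro i t b
    rcases i with _ | i
    · show exG k v m ls 0 ⁅t • b, z⁆ = t • exG k v m ls 0 ⁅b, z⁆
      rw [smul_lie, ih]
    · show exG k v m ls (i + 1) ⁅t • b, z⁆ + exG k v m ls i ⁅t • b, pw k v m z⁆ =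
        t • (exG k v m ls (i + 1) ⁅b, z⁆ + exG k v m ls i ⁅b, pw k v m z⁆)
      rw [smul_lie, smul_lie, ih, ih, smul_add]

private theorem exG_mem {v : F} {m : ℕ} (hm : 0 < m) (ls : List F) : ∀ (i j : ℕ) (b : F),
    1 ≤ j → b ∈ gam k F j → exG k v m ls i b ∈ gam k F (j + i) := by
  induction ls with
  | nil =>
    intro i j b _ hb
    rcases i with _ | i
    · exact hb
    · show (0 : F) ∈ _
      exact zero_mem _
  | cons z ls ih =>
    intro i j b hj hb
    rcases i with _ | i
    · exact ih 0 j _ hj (lie_mem_right hb z)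
    · refine add_mem (ih (i + 1) j _ hj (lie_mem_right hb z)) ?_
      have h := ih i (j + 1) _ (by omega) (lie_mem_gam hj hb (pw_mem_D1 hm v z))
      rwa [show j + (i + 1) = j + 1 + i by ring]

private theorem exG_eq_zero {c : ℕ} (hgam : gam k F (c + 1) = ⊥) {v : F} {m : ℕ} (hm : 0 < m)
    (ls : List F) {i : ℕ} (hi : c ≤ i) {b : F} (hb : b ∈ D1 k F) : exG k v m ls i b = 0 := by
  have h := exG_mem (v := v) hm ls i 1 b le_rfl hb
  have h2 : gam k F (1 + i) ≤ gam k F (c + 1) := gam_anti (by omega)
  have h3 := h2 h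
  rw [hgam] at h3
  exact (LieSubmodule.mem_bot _).mp h3

/-- The expansion. -/
private theorem exG_expand {c : ℕ} (hgam : gam k F (c + 1) = ⊥) {v : F} {m : ℕ} (hm : 0 < m)
    (t : k) (ls : List F) : ∀ (R : ℕ), c ≤ R → ∀ (b : F), b ∈ D1 k F →
    wd b (ls.map fun z => z + t • pw k v m z) =
      ∑ i ∈ Finset.range R, t ^ i • exG k v m ls i b := by
  induction ls with
  | nil =>
    intro R hR b hb
    rw [List.map_nil, wd_nil]
    rcases R with _ | R
    · have h : exG k v m [] 0 b = 0 := exG_eq_zero hgam hm [] hR hb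
      rw [Finset.range_zero, Finset.sum_empty]
      exact h
    · rw [Finset.sum_range_succ']
      have h : ∀ i, exG k v m [] (i + 1) b = 0 := fun i => rfl
      simp only [h, smul_zero, Finset.sum_const_zero, zero_add, pow_zero, one_smul]
      rfl
  | cons z ls ih =>
    intro R hR b hb
    rw [List.map_cons, wd_cons, lie_add, wd_add, lie_smul, wd_smul]
    rw [ih R hR _ (lie_mem_right hb z), ih R hR _ (lie_mem_right hb _)]
    have h1 : ∀ R, ∑ i ∈ Finset.range (R + 1), t ^ i • exG k v m (z :: ls) i b =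
        ∑ i ∈ Finset.range (R + 1), t ^ i • exG k v m ls i ⁅b, z⁆ +
        t • ∑ i ∈ Finset.range R, t ^ i • exG k v m ls i ⁅b, pw k v m z⁆ := by
      intro R
      rw [Finset.sum_range_succ', Finset.sum_range_succ' (fun i => t ^ i • exG k v m ls i ⁅b, z⁆),
        Finset.smul_sum]
      have h2 : ∀ i, t ^ (i + 1) • exG k v m (z :: ls) (i + 1) b =
          t ^ (i + 1) • exG k v m ls (i + 1) ⁅b, z⁆ +
          t • t ^ i • exG k v m ls i ⁅b, pw k v m z⁆ := by
        intro i
        show t ^ (i + 1) • (exG k v m ls (i + 1) ⁅b, z⁆ + exG k v m ls i ⁅b, pw k v m z⁆) = _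
        rw [smul_add, smul_smul, ← pow_succ']
      simp only [h2, Finset.sum_add_distrib]
      have h3 : exG k v m (z :: ls) 0 b = exG k v m ls 0 ⁅b, z⁆ := rfl
      rw [h3]
      abel
    have h4 := h1 R
    rw [Finset.sum_range_succ, Finset.sum_range_succ (fun i => t ^ i • exG k v m ls i ⁅b, z⁆),
      exG_eq_zero hgam hm (z :: ls) hR hb, exG_eq_zero hgam hm ls hR (lie_mem_right hb z),
      smul_zero, add_zero, add_zero] at h4
    exact h4.symm

/-- Moving letters `v`. -/
private theorem exG_move {E Q : ℕ} (hbal : BalInf k F E Q) (v : F) {m t : ℕ} (ht : Q ∣ t)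
    (hm : E ≤ m) (a : F) (ls : List F) : ∀ (i e : ℕ) (pre : List F), E ≤ e →
    exG k v (m + t) ls i (wd (pw k v e a) pre) =
      exG k v m ls i (wd (pw k v (e + i * t) a) pre) := by
  induction ls with
  | nil =>
    intro i e pre _
    rcases i with _ | i
    · rw [zero_mul, add_zero]
      rfl
    · rfl
  | cons z ls ih =>
    intro i e pre he
    rcases i with _ | i
    · show exG k v (m + t) ls 0 ⁅wd (pw k v e a) pre, z⁆ =
        exG k v m ls 0 ⁅wd (pw k v (e + 0 * t) a) pre, z⁆
      rw [← wd_concat, ← wd_concat]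
      exact ih 0 e (pre ++ [z]) he
    · show exG k v (m + t) ls (i + 1) ⁅wd (pw k v e a) pre, z⁆ +
          exG k v (m + t) ls i ⁅wd (pw k v e a) pre, pw k v (m + t) z⁆ =
        exG k v m ls (i + 1) ⁅wd (pw k v (e + (i + 1) * t) a) pre, z⁆ +
          exG k v m ls i ⁅wd (pw k v (e + (i + 1) * t) a) pre, pw k v m z⁆
      have h1 : ⁅wd (pw k v e a) pre, pw k v (m + t) z⁆ =
          ⁅wd (pw k v (e + t) a) pre, pw k v m z⁆ := by
        obtain ⟨l, rfl⟩ := ht
        obtain ⟨e', rfl⟩ := Nat.exists_eq_add_of_le he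
        obtain ⟨m', rfl⟩ := Nat.exists_eq_add_of_le hm
        have h2 := hbal.mono le_rfl l v (pw k v e' a) (pw k v m' z) pre
        rw [← pw_add, ← pw_add, ← pw_add, ← pw_add] at h2
        rw [show E + m' + Q * l = E + l * Q + m' by ring,
          show E + e' + Q * l = E + l * Q + e' by ring]
        exact h2.symm
      rw [h1, ← wd_concat, ← wd_concat, ← wd_concat, ← wd_concat, ih (i + 1) e (pre ++ [z]) he,
        ih i (e + t) (pre ++ [pw k v m z]) (by omega)]
      rw [show e + t + i * t = e + (i + 1) * t by ring]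

end

theorem expand : ExpandProp.{u} := by
  intro k _ F _ _ n x c N E Q P₀ lam g v T hg hgam hbal hE hEP hdiv hv hop i ls
  obtain ⟨θ, hθ, hT⟩ := hop
  obtain ⟨a, ha⟩ : ∃ a, a = pw k v P₀ (x i) := ⟨_, rfl⟩
  have haD : a ∈ D1 k F := by rw [ha]; exact pw_mem_D1 (by omega) v (x i)
  obtain ⟨ls', hls'⟩ : ∃ ls', ls' = ls.map x := ⟨_, rfl⟩
  rw [← ha, ← hls']
  -- the homomorphisms
  have hm : ∀ j < c, 0 < N / (j + 1) := fun j hj =>
    hE.trans_le (hdiv (j + 1) (by omega) (by omega)).2
  have h1 : ∀ s, ∀ j < c, θ s j (wd a ls') =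
      wd (a + lam s • pw k v (N / (j + 1)) a)
        (ls'.map fun z => z + lam s • pw k v (N / (j + 1)) z) := by
    intro s j hj
    have hspan : ∀ u ∈ Submodule.span k (Set.range x),
        θ s j u = u + lam s • pw k v (N / (j + 1)) u := by
      intro u hu
      induction hu using Submodule.span_induction with
      | mem u hu => obtain ⟨l, rfl⟩ := hu; exact hθ s j l
      | zero => simp
      | add u w _ _ h1 h2 => rw [map_add, h1, h2, map_add, smul_add]; abel
      | smul t u _ h1 => rw [map_smul, h1, map_smul, smul_add, smul_comm]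
    have hvv : pw k v (N / (j + 1)) v = 0 := by
      obtain ⟨e, he⟩ := Nat.exists_eq_add_of_le' (hm j hj)
      rw [he, pw_succ', lie_self, map_zero]
    have hθv : θ s j v = v := by rw [hspan v hv, hvv, smul_zero, add_zero]
    have hθa : θ s j a = a + lam s • pw k v (N / (j + 1)) a := by
      rw [ha, pw_map, hθv, hθ, map_add, map_smul, pw_comm]
    rw [wd_map, hθa]
    congr 1
    rw [hls', List.map_map, List.map_map]
    apply List.map_congr_left
    intro l _
    exact hθ s j l
  have h2 : ∀ j < c, ∑ s ∈ Finset.range (c + 1), g (j + 1) s • θ s j (wd a ls') =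
      exG k v (N / (j + 1)) ls' (j + 1) a +
        exG k v (N / (j + 1)) ls' j (pw k v (N / (j + 1)) a) := by
    intro j hj
    obtain ⟨m, hmdef⟩ : ∃ m, m = N / (j + 1) := ⟨_, rfl⟩
    have hm' : 0 < m := by rw [hmdef]; exact hm j hj
    have h3 : ∀ s, θ s j (wd a ls') = ∑ i ∈ Finset.range (c + 1), lam s ^ i • exG k v m ls' i a +
        ∑ i ∈ Finset.range c, lam s ^ (i + 1) • exG k v m ls' i (pw k v m a) := by
      intro s
      rw [h1 s j hj, ← hmdef, wd_add, wd_smul, exG_expand hgam hm' (lam s) ls' (c + 1) (by omega) a haD,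
        exG_expand hgam hm' (lam s) ls' c le_rfl _ (pw_mem haD v m), Finset.smul_sum]
      congr 1
      apply Finset.sum_congr rfl
      intro i _
      rw [smul_smul, ← pow_succ']
    simp only [h3, smul_add, Finset.sum_add_distrib]
    rw [← hmdef]
    congr 1
    · simp only [Finset.smul_sum]
      rw [Finset.sum_comm]
      have h4 : ∀ i ∈ Finset.range (c + 1), ∑ s ∈ Finset.range (c + 1),
          g (j + 1) s • lam s ^ i • exG k v m ls' i a =
          if i = j + 1 then exG k v m ls' (j + 1) a else 0 := by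
        intro i hi
        rw [Finset.mem_range] at hi
        simp only [smul_smul]
        rw [← Finset.sum_smul, hg (j + 1) (by omega) i (by omega)]
        by_cases h : j + 1 = i
        · rw [if_pos h, if_pos h.symm, one_smul, h]
        · rw [if_neg h, if_neg (fun h' => h h'.symm), zero_smul]
      rw [Finset.sum_congr rfl h4, Finset.sum_ite_eq' (Finset.range (c + 1)) (j + 1),
        if_pos (Finset.mem_range.mpr (by omega))]
    · simp only [Finset.smul_sum]
      rw [Finset.sum_comm]
      have h4 : ∀ i ∈ Finset.range c, ∑ s ∈ Finset.range (c + 1),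
          g (j + 1) s • lam s ^ (i + 1) • exG k v m ls' i (pw k v m a) =
          if i = j then exG k v m ls' j (pw k v m a) else 0 := by
        intro i hi
        rw [Finset.mem_range] at hi
        simp only [smul_smul]
        rw [← Finset.sum_smul, hg (j + 1) (by omega) (i + 1) (by omega)]
        by_cases h : j = i
        · rw [if_pos (by omega), if_pos h.symm, one_smul, h]
        · rw [if_neg (by omega), if_neg (fun h' => h h'.symm), zero_smul]
      rw [Finset.sum_congr rfl h4, Finset.sum_ite_eq' (Finset.range c) j,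
        if_pos (Finset.mem_range.mpr hj)]
  have h3 : T (wd a ls') = ∑ j ∈ Finset.range c, (-1 : k) ^ j •
      (exG k v (N / (j + 1)) ls' (j + 1) a +
        exG k v (N / (j + 1)) ls' j (pw k v (N / (j + 1)) a)) := by
    rw [hT]
    apply Finset.sum_congr rfl
    intro j hj
    rw [← h2 j (Finset.mem_range.mp hj), Finset.smul_sum]
    apply Finset.sum_congr rfl
    intro s _
    rw [smul_smul]
  -- telescoping
  have h4 : ∀ R, R + 1 ≤ c → ∑ j ∈ Finset.range (R + 1), (-1 : k) ^ j •
      (exG k v (N / (j + 1)) ls' (j + 1) a +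
        exG k v (N / (j + 1)) ls' j (pw k v (N / (j + 1)) a)) =
      wd (pw k v (P₀ + N) (x i)) ls' + (-1 : k) ^ R • exG k v (N / (R + 1)) ls' (R + 1) a := by
    intro R
    induction R with
    | zero =>
      intro _
      rw [zero_add, Finset.sum_range_one, pow_zero, one_smul, one_smul, exG_zero, Nat.div_one,
        ha, ← pw_add, add_comm N P₀, add_comm]
    | succ R ih =>
      intro hR
      rw [Finset.sum_range_succ, ih (by omega)]
      have h5 : exG k v (N / (R + 1)) ls' (R + 1) a =
          exG k v (N / (R + 1 + 1)) ls' (R + 1) (pw k v (N / (R + 1 + 1)) a) := by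
        obtain ⟨⟨r, hr⟩, _⟩ := hdiv (R + 1) (by omega) (by omega)
        obtain ⟨_, hE2⟩ := hdiv (R + 1 + 1) (by omega) (by omega)
        have e1 : N / (R + 1) = Q * (R + 1) * r + Q * r := by
          apply Nat.div_eq_of_eq_mul_left (by omega)
          rw [hr]; ring
        have e2 : N / (R + 1 + 1) = Q * (R + 1) * r := by
          apply Nat.div_eq_of_eq_mul_left (by omega)
          rw [hr]; ring
        rw [e2] at hE2 ⊢
        rw [e1]
        have h6 := exG_move hbal v (t := Q * r) (Dvd.intro _ rfl) hE2 (x i) ls' (R + 1) P₀ [] hEP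
        rw [wd_nil, wd_nil, ← ha] at h6
        rw [h6, ha, ← pw_add]
        congr 2
        ring
      rw [h5, smul_add, pow_succ]
      have h7 : ∀ w w' : F, (-1 : k) ^ R • w + (((-1 : k) ^ R * -1) • w' +
          ((-1 : k) ^ R * -1) • w) = ((-1 : k) ^ R * -1) • w' := by
        intro w w'
        rw [mul_neg_one, neg_smul, neg_smul]
        abel
      rw [add_assoc, h7]
  rw [h3]
  rcases c with _ | c
  · have h5 : wd (pw k v (P₀ + N) (x i)) ls' ∈ gam k F (0 + 1) :=
      wd_mem (pw_mem_D1 (by omega) v (x i)) ls'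
    rw [hgam] at h5
    rw [(LieSubmodule.mem_bot _).mp h5]
    simp
  · rw [h4 c le_rfl, exG_eq_zero hgam (hm c (by omega)) ls' le_rfl haD, smul_zero, add_zero]

end Pool.Agent.Lib.MP_240c17_al.Tor
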