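import Pool.Agent.Lib.MP_240c17_al.Tor.Base

/-!
# Statements of the lemmas for nilpotent-by-abelian varieties in characteristic `p`

Every lemma is a `Prop`; the proof is in the docstring. The files proving them are independent.
`wd a [z₁, …, z_r] = ⁅…⁅a, z₁⁆ …, z_r⁆`, `pw k y e a = ⁅…⁅a, y⁆ …, y⁆` (`e` times; below written `a y^e`),
`gam k L i`: `⊤, L', ⁅L', L'⁆, ⁅⁅L', L'⁆, L'⁆ …` (`i = 0, 1, 2, 3, …`), `mom k x μ = ∑ μ^i x i`,
`Der k L e`: `a ↦ a y^e` is a derivation for all `y`; `BalW`, `BalInf`: see `Tor/Base.lean`, which also contains many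
basic lemmas (`lie_lie_swap`, `lie_lie_right`, `wd_mem`, `pw_mem`, `lie_mem_gam`, `wd_mem_gam`, `gam_anti`, `map_mem_gam`,
`words_span`, `D1_words`, `lie_comm_mod`, `br_span`, `gam_succ_le`, `pw_lie` …).
-/

set_option autoImplicit false

namespace Pool.Agent.Lib.MP_240c17_al.Tor

universe u

open Pool.Agent.Lib.MP_240c17_al.Two

/-! ## A. Powers -/

/-- (T1) PROOF. `pw_lie` (Leibniz) for `e = p ^ t`; for `0 < i < p ^ t` the coefficient `(p ^ t).choose i`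
is divisible by `p` (`Nat.Prime.dvd_choose_pow`), so this term vanishes in characteristic `p`. -/
def FrobProp : Prop :=
  ∀ (k : Type u) [Field k] (p : ℕ) [Fact p.Prime] [CharP k p] (L : Type u) [LieRing L]
    [LieAlgebra k L] (t : ℕ), Der k L (p ^ t)

/-- (T2) PROOF. `h = ∑ i ≤ m, c i X ^ i`. `F₀ = {x | x ^ (p ^ r) = x}` is a finite subfield of `k`
(roots of `X ^ (p ^ r) - X`; closed under addition by Frobenius) and `h` comes from `h₀ : F₀[X]`,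
`h₀ ≠ 0`. (A finite subring of `k` containing the `c i` is enough, but then make it a field to be able
to divide; a finite integral domain is a field.) `A = F₀[X] / (h₀)` is a finite ring (`AdjoinRoot h₀`
is a finite dimensional space over `F₀`); let `M = (card A)!`. For all `u : A`, `e ≥ card A` and
`M ∣ t` one has `u ^ (e + t) = u ^ e`: pigeonhole gives `i < j ≤ card A` with `u ^ i = u ^ j`, and
`(j - i) ∣ M`. Let `B = max m M` (`card A ≤ M`), `P = p ^ s ≥ B`, `P * M ∣ Q`. Let `u` be the class of `X`.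
`u ^ P * (u ^ Q - 1) = u ^ (P + Q) - u ^ P = 0`. `(u + 1) ^ (P + Q) - u ^ (P + Q) - 1 =
(u + 1) ^ P - u ^ P - 1 = 0` (Frobenius `add_pow_char_pow`). So `h₀` divides both polynomials in
`F₀[X]`; map to `k[X]`. -/
def PolyDivProp : Prop :=
  ∀ (k : Type u) [Field k] (p : ℕ) [Fact p.Prime] [CharP k p] (m r : ℕ) (c : ℕ → k), 0 < r →
    (∀ i ≤ m, c i ^ p ^ r = c i) → (∃ i ≤ m, c i ≠ 0) →
    ∃ B M : ℕ, m ≤ B ∧ 0 < M ∧ ∀ s Q : ℕ, B ≤ p ^ s → p ^ s * M ∣ Q →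
      (∑ i ∈ Finset.range (m + 1), Polynomial.C (c i) * Polynomial.X ^ i) ∣
        Polynomial.X ^ p ^ s * (Polynomial.X ^ Q - 1) ∧
      (∑ i ∈ Finset.range (m + 1), Polynomial.C (c i) * Polynomial.X ^ i) ∣
        (Polynomial.X + 1) ^ (p ^ s + Q) - Polynomial.X ^ (p ^ s + Q) - 1

/-- (T3) PROOF (uses T2). `h = ∑ i ≤ m, c i X ^ i ≠ 0`. LEMMA: if `f = h * g` and
`g = 0` or `m + g.natDegree ≤ D`, then `∑ j ∈ range (D + 1), f.coeff j • ⁅a y^j, b y^(D-j)⁆ = 0`: it is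
`∑ l ≤ D - m, g.coeff l • (∑ i ≤ m, c i • ⁅(a y^l) y^i, (b y^(D-m-l)) y^(m-i)⁆)`. Let `P = p ^ s ≥ B ≥ m`,
`P * M ∣ Q`. (i) `f = X ^ P * (X ^ Q - 1) = X ^ (P+Q) - X ^ P`, `D = 2 P + Q`; `f = h g`, and if
`g ≠ 0` then `g.natDegree ≤ f.natDegree ≤ P + Q ≤ D - m`. The lemma says
`⁅a y^(P+Q), b y^P⁆ - ⁅a y^P, b y^(P+Q)⁆ = 0`, which is `BalW k L 0 P Q` (the only list is `[]`).
(ii) `f = (X+1) ^ (P+Q) - X ^ (P+Q) - 1`, `D = P + Q`. If `Q = P * Q'` then by Frobenius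
`f = ((X+1) ^ (1+Q') - X ^ (1+Q') - 1) ^ P`, so `f.natDegree ≤ Q' * P = Q` and `m + g.natDegree ≤ P + Q`.
The lemma says `∑ j, ((P+Q).choose j) • ⁅a y^j, b y^(P+Q-j)⁆ = ⁅a y^(P+Q), b⁆ + ⁅a, b y^(P+Q)⁆`, and the
left hand side is `⁅a, b⁆ y^(P+Q)` by `pw_lie`. -/
def TorsionProp : Prop :=
  ∀ (k : Type u) [Field k] (p : ℕ) [Fact p.Prime] [CharP k p] (m r : ℕ) (c : ℕ → k), 0 < r →
    (∀ i ≤ m, c i ^ p ^ r = c i) → (∃ i ≤ m, c i ≠ 0) →
    ∃ B M : ℕ, 0 < M ∧ ∀ (L : Type u) [LieRing L] [LieAlgebra k L], IdI k L m c →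
      ∀ s Q : ℕ, B ≤ p ^ s → p ^ s * M ∣ Q → Der k L (p ^ s + Q) ∧ BalW k L 0 (p ^ s) Q

/-- (T4) PROOF. Let `P = p ^ s`, fix `y`. Words with at most `i` letters between are fine by `BalW.mono`
(`p ^ (2 s + 2) ≥ P`). For exactly `i + 1` letters consider the function
`W v = ⁅wd (v 0) [v 1, …, v (i+1)], v (i+2)⁆` of `v : Fin (i + 3) → L`, and on the space of all functions
`(Fin (i+3) → L) → L` the commuting linear operators `φ ↦ (v ↦ φ (Function.update v j ⁅v j, y⁆))`; call them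
`β` (`j = 0`), `ξ j` (`1 ≤ j ≤ i+1`), `χ` (`j = i + 2`). Put `q = (β χ) ^ P (β ^ Q - χ ^ Q)`. By the
hypothesis `q` kills all the functions of `v` which are words of the form `⁅wd (v 0) zs, v (i+2)⁆`, where
`zs` is a list of at most `i` elements of `L` made from the other `v j`.
(a) `β ^ P (ξ j) ^ P (β ^ Q - (ξ j) ^ Q) q W = 0`: by `lie_lie_swap` move the letter `v j` to the left, right
after `v 0`; the correction terms have `i` letters (two of them merged to `⁅v l, v j⁆`) and are killed by `q`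
(`q` only involves `v 0` and `v (i+2)`). In the main term `v 0` and `v j` occur as `⁅v 0, v j⁆`, use the
hypothesis with zero letters.
(b) `χ ^ P (ξ j) ^ P (χ ^ Q - (ξ j) ^ Q) q W = 0`: move `v j` to the right end (again corrections with
`i` letters), then `⁅⁅w, v j⁆, b⁆ = ⁅⁅w, b⁆, v j⁆ + ⁅w, ⁅v j, b⁆⁆` with `w` having `i` letters: the first
term is killed by `q`, the second one by `χ ^ P (ξ j) ^ P (χ ^ Q - (ξ j) ^ Q)` (zero letters).
(c) With `S = β + ∑ j, ξ j` one has `S ^ P χ ^ P (S ^ Q - χ ^ Q) W = 0`: `S` acts as `w ↦ ⁅w, y⁆` on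
`w = wd (v 0) [v 1, …, v (i+1)]` (Leibniz), use the hypothesis with zero letters for `w` and `v (i+2)`.
From (a) times `χ ^ P` and (b) times `β ^ P`: `(ξ j) ^ P q ^ 2 W = 0`. Raise the operator in (c) to the power
`P`: `S ^ (P P) χ ^ (P P) (S ^ (P Q) - χ ^ (P Q))` (characteristic `p`), and `S ^ P = β ^ P + ∑ (ξ j) ^ P`.
Apply to `q ^ 2 W`: `(β χ) ^ (P P) (β ^ (P Q) - χ ^ (P Q)) q ^ 2 W = 0`, i.e.
`(β χ) ^ (P P + 2 P) (β ^ Q - χ ^ Q) ^ (P + 2) W = 0`. Since `p * p * P ≥ P + 2` and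
`(β ^ Q - χ ^ Q) ^ (p p P) = β ^ (p p P Q) - χ ^ (p p P Q)`, and `p ^ (2 s + 2) ≥ P P + 2 P`, we get
`(β χ) ^ (p ^ (2 s + 2)) (β ^ (p ^ (s+2) Q) - χ ^ (p ^ (s+2) Q)) W = 0`, the assertion.
(All the operators commute; work in a commutative subalgebra of `Module.End k _`
(`Algebra.adjoinCommRingOfComm`), or use `mod_ : ModProp` from `Two/Mod.lean` with `Y = ⊥`, `Z = ⊤`; or work
with `Commute` lemmas.) -/
def BoundStepProp : Prop :=
  ∀ (k : Type u) [Field k] (p : ℕ) [Fact p.Prime] [CharP k p] (L : Type u) [LieRing L]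
    [LieAlgebra k L] (i s Q : ℕ), BalW k L i (p ^ s) Q →
    BalW k L (i + 1) (p ^ (2 * s + 2)) (p ^ (s + 2) * Q)

/-- (T5) PROOF. Fix `y`. `P = p ^ s`, `δ₀ = pw k y P`, `δ₁ = pw k y (P + Q)`, `D1 = gam 1` is the derived
algebra. For `j ≤ c` let `d j = p ^ (2 (c - j))`. CLAIM (j): for all `a₀ ∈ D1`, all `b`, and all lists
`zs` containing at least `j` letters from `D1`:
`⁅wd (δ₁ (δ₀ ^ (d j) a₀)) zs, δ₀ b⁆ = ⁅wd (δ₀ (δ₀ ^ (d j) a₀)) zs, δ₁ b⁆`.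
(So for `j = 0`, `a₀ = ⁅a, y⁆`, `b = b' y^(P p^(2c) + 1)` we get the assertion.) Descending induction on
`j`. `j = c`: both sides are zero (`wd_mem_gam`, `gam (c+1) = ⊥`). Now assume (j+1), `j < c`;
`d = d j = p ^ 2 * d (j+1)`, so `d - 2 ≥ d (j+1) ≥ 1`. Induction on the number of the letters of `zs` not in `D1`.
If there are none: if the length is `≥ c` both sides vanish, otherwise `BalW k L c P Q` applies.
If there are some, let `z` be the first one, `zs = f ++ z :: g`; induction on the length of `f`. If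
`f = f' ++ [w]` (`w ∈ D1`), then `wd A (f' ++ w :: z :: g) = wd A (f' ++ z :: w :: g) + wd A (f' ++ ⁅w, z⁆ :: g)`;
the first one by induction on the length of `f`, the second by induction on the number of letters not in
`D1` (`⁅w, z⁆ ∈ D1`). Let `f = []`, `zs = z :: g`. For `l = 0, 1` and `A l = δ_l (δ₀ ^ d a₀)`:
`⁅A l, z⁆ = δ_l ⁅δ₀ ^ d a₀, z⁆ - ⁅δ₀ ^ d a₀, δ_l z⁆` and `⁅δ₀ ^ d a₀, z⁆ = δ₀ ^ d ⁅a₀, z⁆ - ⁅a₀, δ₀ ^ d z⁆`
(`δ₀ ^ d = pw k y (p ^ (s + 2 (c - j)))` is a derivation), so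
`⁅A l, z⁆ = δ_l (δ₀ ^ d ⁅a₀, z⁆) - ⁅δ_l a₀, δ₀ ^ d z⁆ - ⁅a₀, δ_l (δ₀ ^ d z)⁆ - ⁅δ₀ ^ d a₀, δ_l z⁆`.
Insert this in both sides (word `g`). The first term: `⁅a₀, z⁆ ∈ D1`, the word `g` has one letter less
outside `D1` and as many letters in `D1`: induction. The third one:
`- ⁅a₀, δ_l (δ₀ ^ d z)⁆ = ⁅δ_l (δ₀ ^ (d - 1) (δ₀ z)), a₀⁆`: `δ₀ z ∈ D1`, the word is `a₀ :: g` with `≥ j + 1` letters
in `D1`, `δ₀ ^ (d-1) (δ₀ z) = δ₀ ^ (d (j+1)) (δ₀ ^ (d - 1 - d (j+1)) (δ₀ z))`: use (j+1). The second one: by `BalW`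
with no letters, `⁅δ_l u, δ₀ v⁆ = ⁅δ₀ u, δ_l v⁆`, so
`- ⁅δ_l a₀, δ₀ (δ₀ ^ (d-1) z)⁆ = - ⁅δ₀ a₀, δ_l (δ₀ ^ (d-1) z)⁆ = ⁅δ_l (δ₀ ^ (d-2) (δ₀ z)), δ₀ a₀⁆`: use (j+1) for the
word `δ₀ a₀ :: g`. The fourth one: `- ⁅δ₀ ^ d a₀, δ_l z⁆ = - ⁅δ_l (δ₀ ^ (d-1) a₀), δ₀ z⁆`: use (j+1) for the
word `δ₀ z :: g`. -/
def UnboundedProp : Prop :=
  ∀ (k : Type u) [Field k] (p : ℕ) [Fact p.Prime] [CharP k p] (L : Type u) [LieRing L]
    [LieAlgebra k L] (c s Q : ℕ), gam k L (c + 1) = ⊥ → (∀ t, Der k L (p ^ t)) →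
    Der k L (p ^ s + Q) → BalW k L c (p ^ s) Q → BalInf k L (p ^ s * (p ^ (2 * c) + 1) + 1) Q

/-! ## B. Vandermonde -/

/-- (T6a) PROOF. `k` is infinite: choose `lam` injective on `{0, …, c}`; invert the Vandermonde matrix. -/
def WeightsProp : Prop :=
  ∀ (k : Type u) [Field k] [Infinite k] (c : ℕ), ∃ (lam : ℕ → k) (g : ℕ → ℕ → k),
    ∀ i ≤ c, ∀ l ≤ c, ∑ s ∈ Finset.range (c + 1), g i s * lam s ^ l = if i = l then 1 else 0

/-- (T6b) PROOF. Vandermonde (or Lagrange interpolation). -/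
def LagrangeProp : Prop :=
  ∀ (k : Type u) [Field k] (r : ℕ) (ν : Fin r → k), Function.Injective ν →
    ∃ ℓ : k → Fin r → k, ∀ (μ : k) (l : ℕ), l < r → μ ^ l = ∑ i, ℓ μ i * ν i ^ l

/-- (T6c) PROOF. Vandermonde: the matrix `ν i ^ j` is invertible. -/
def MomSpanProp : Prop :=
  ∀ (k : Type u) [Field k] (F : Type u) [LieRing F] [LieAlgebra k F] (n : ℕ) (x : Fin n → F)
    (ν : Fin n → k), Function.Injective ν →
    ∀ j, x j ∈ Submodule.span k (Set.range fun i => mom k x (ν i))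

/-! ## C. The operators `T` -/

/-- (T7) PROOF. `θ s j` fixes `v` (because `⁅v, v⁆ = 0` and `N / (j+1) ≥ 1`), so it maps the word
`w = wd ((x i) v^P) (ls.map x)` to `wd (a + lam s • a v^m) (ls.map (fun l => x l + lam s • (x l) v^m))`, where
`a = (x i) v^P`, `m = N / (j+1)`. Let `G m i b ls` be the sum over the `i`-element sets of positions in the
list `ls` of the words `wd b ls'`, where `ls'` is obtained from `ls` by replacing the chosen letters `z` with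
`z v^m` (define by recursion on `ls`: `G m 0 b [] = b`, `G m (i+1) b [] = 0`,
`G m 0 b (z :: ls) = G m 0 ⁅b, z⁆ ls`, `G m (i+1) b (z :: ls) = G m (i+1) ⁅b, z⁆ ls + G m i ⁅b, z v^m⁆ ls`). It is
additive in `b`; `wd b (z + lam z v^m)_z = ∑ i, lam ^ i G m i b ls` (sum over `i ≤` length). Since `z v^m ∈ D1`
for `m ≥ 1` and `gam (c + 1) = ⊥`: `G m i b ls = 0` for `i > c`, and for `b ∈ D1`, `i ≥ c`. Since `a ∈ D1`, `θ s j w =
∑ i ≤ c, (lam s) ^ i (G m i a ls + G m (i-1) (a v^m) ls)` (second summand for `i ≥ 1` only), and the weights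
extract the coefficient of `lam ^ (j+1)`: the inner sum in `T w` is
`(-1) ^ j (G m (j+1) a ls + G m j (a v^m) ls)`, `m = N / (j+1)`.
MOVING: if `Q ∣ t`, `e ≥ E`, `m ≥ E` then `G (m + t) i (a' v^e) ls = G m i (a' v^(e + i t)) ls`; more generally
`G (m+t) i (wd (a' v^e) pre) ls = G m i (wd (a' v^(e + i t)) pre) ls` by induction on `ls`: for a chosen letter `z`,
`⁅wd (a' v^e) pre, z v^(m+t)⁆ = ⁅wd (a' v^(e+t)) pre, z v^m⁆` by `BalInf k F E Q` (`BalInf.mono` with the exponent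
`E`: `a' v^e = (a' v^(e-E)) v^E`, `z v^(m+t) = (z v^(m-E)) v^(E+t)`).
For `1 ≤ i < c` apply this with `m = N / (i+1)`, `t = N / i - N / (i+1) = N / (i (i+1))`, `i t = N / (i+1)`:
`G (N/i) i (a) ls = G (N/(i+1)) i (a v^(N/(i+1))) ls` (with `a = (x i) v^P`, `P ≥ E`). So
`T w = ∑ j < c, (-1) ^ j (G (N/(j+1)) (j+1) a ls + G (N/(j+1)) j (a v^(N/(j+1))) ls)` telescopes: the second
summand for `j + 1` cancels the first one for `j`; the first one for `j = c - 1` is zero; the second one for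
`j = 0` is `G N 0 (a v^N) ls = wd (a v^N) ls`, the assertion. For `c = 0` both sides are zero. -/
def ExpandProp : Prop :=
  ∀ (k : Type u) [Field k] (F : Type u) [LieRing F] [LieAlgebra k F] (n : ℕ) (x : Fin n → F)
    (c N E Q P₀ : ℕ) (lam : ℕ → k) (g : ℕ → ℕ → k) (v : F) (T : Module.End k F),
    (∀ i ≤ c, ∀ l ≤ c, ∑ s ∈ Finset.range (c + 1), g i s * lam s ^ l = if i = l then 1 else 0) →
    gam k F (c + 1) = ⊥ → BalInf k F E Q → 0 < E → E ≤ P₀ →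
    (∀ j, 1 ≤ j → j ≤ c → Q * (j * (j + 1)) ∣ N ∧ E ≤ N / j) →
    v ∈ Submodule.span k (Set.range x) → IsOp k x c N lam g v T →
    ∀ (i : Fin n) (ls : List (Fin n)),
      T (wd (pw k v P₀ (x i)) (ls.map x)) = wd (pw k v (P₀ + N) (x i)) (ls.map x)

/-- (T8) PROOF. (i) For a fixed `i`: let `H` be the smallest subspace of `F × F` which contains
`(pw k v P₀ (x i), pw k v R (x i))` and is stable under `(b, b') ↦ (⁅b, x j⁆, ⁅b', x j⁆)`; it is spanned by the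
pairs of words, so `T b = b'` for all `(b, b') ∈ H`. The set of `z ∈ F` such that `H` is stable under
`(b, b') ↦ (⁅b, z⁆, ⁅b', z⁆)` is a Lie subalgebra containing the `x j`, so it is everything. So the assertion
holds for `w = x i` and all lists `ls`. (ii) The set of the `w` such that the assertion holds for all lists `ls`
is a subspace and is closed under brackets: `pw k v P₀ ⁅w, z⁆ = ⁅pw k v P₀ w, z⁆ - ⁅pw k v P₀ z, w⁆` (`Der`), and the
same for `R`. So it is everything. -/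
def LinExtProp : Prop :=
  ∀ (k : Type u) [Field k] (F : Type u) [LieRing F] [LieAlgebra k F] (n : ℕ) (x : Fin n → F)
    (P₀ R : ℕ) (v : F) (T : Module.End k F), LieSubalgebra.lieSpan k F (Set.range x) = ⊤ →
    Der k F P₀ → Der k F R →
    (∀ (i : Fin n) (ls : List (Fin n)),
      T (wd (pw k v P₀ (x i)) (ls.map x)) = wd (pw k v R (x i)) (ls.map x)) →
    ∀ (w : F) (ls : List F), T (wd (pw k v P₀ w) ls) = wd (pw k v R w) ls

/-- (T9) PROOF. `T` is a linear combination of homomorphisms, which preserve `gam i` (`map_mem_gam`). Let `θ` be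
a homomorphism with `θ (x i) = x i + lam • (x i) v^m`, `m ≥ 1`. CLAIM: `θ a - a - lam • a v^m ∈ gam 2` for all
`a ∈ D1`. By `D1_words` it is enough to check it for `a = ⁅x i, x j⁆` and to pass from `a` to `⁅a, x l⁆`. Modulo
`gam 2` letters commute inside words starting in `D1` (`lie_comm_mod`). `θ ⁅x i, x j⁆ = ⁅x i, x j⁆ + lam (⁅(x i) v^m,
x j⁆ + ⁅x i, (x j) v^m⁆) + lam ^ 2 ⁅(x i) v^m, (x j) v^m⁆`, the last term is in `gam 2`, and
`⁅(x i) v^m, x j⁆ - ⁅(x j) v^m, x i⁆ ≡ (⁅⁅x i, v⁆, x j⁆ - ⁅⁅x j, v⁆, x i⁆) v^(m-1) = ⁅⁅x i, x j⁆, v⁆ v^(m-1)`. The step: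
`θ ⁅a, x l⁆ = ⁅θ a, x l + lam (x l) v^m⁆ ≡ ⁅θ a, x l⁆ ≡ ⁅a + lam a v^m, x l⁆ ≡ ⁅a, x l⁆ + lam ⁅a, x l⁆ v^m`.
So two such homomorphisms `θ, θ'` (for `v, lam, m` and `v', lam', m'`) commute on `D1` modulo `gam 2` (`a v^m v'^m'
≡ a v'^m' v^m`). By induction they commute on `gam i` modulo `gam (i + 1)` for all `i ≥ 1`: on `⁅a, b⁆`,
`a ∈ gam i`, `b ∈ D1`: `θ θ' ⁅a, b⁆ - θ' θ ⁅a, b⁆ = ⁅θ θ' a, θ θ' b⁆ - ⁅θ' θ a, θ' θ b⁆ =
⁅θ θ' a - θ' θ a, θ θ' b⁆ + ⁅θ' θ a, θ θ' b - θ' θ b⁆ ∈ gam (i + 2)` (`lie_mem_gam_gam`). Hence linear combinations of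
such homomorphisms commute on `gam i` modulo `gam (i+1)`. -/
def OpFiltProp : Prop :=
  ∀ (k : Type u) [Field k] (F : Type u) [LieRing F] [LieAlgebra k F] (n : ℕ) (x : Fin n → F)
    (c N : ℕ) (lam : ℕ → k) (g : ℕ → ℕ → k) (v v' : F) (T T' : Module.End k F),
    LieSubalgebra.lieSpan k F (Set.range x) = ⊤ → (∀ j < c, 0 < N / (j + 1)) →
    IsOp k x c N lam g v T → IsOp k x c N lam g v' T' →
    (∀ i, ∀ a ∈ gam k F i, T a ∈ gam k F i) ∧
    ∀ i, 1 ≤ i → ∀ a ∈ gam k F i, T (T' a) - T' (T a) ∈ gam k F (i + 1)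

/-- (T10a) PROOF. Induction on `e`: `⁅f μ, mom k x μ⁆ = ∑ i, μ ^ i ⁅f μ, x i⁆` has degree at most `d + n` if `f` has
degree at most `d`. (It is useful to prove closure lemmas for `PF`: sums, scalar multiples, brackets
(degrees add), monotonicity in `d`.) -/
def PwPolyProp : Prop :=
  ∀ (k : Type u) [Field k] (F : Type u) [LieRing F] [LieAlgebra k F] (n : ℕ) (x : Fin n → F)
    (e : ℕ) (w : F), PF k (e * n) (fun μ => pw k (mom k x μ) e w)

/-- (T10b) PROOF. `T μ w` is linear in `w`, so by `words_span` let `w = wd (x i) (ls.map x)`. It is enough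
to prove it for `θ w`, `θ` a homomorphism with `θ (x i) = x i + lam • (x i) v^m`, `v = mom k x μ`,
`1 ≤ m = N / (j+1) ≤ N`. Expand `θ w` in the words where some letters `x l` (including the first one) are replaced with
`lam • (x l) v^m`. If more than `c` letters are replaced, the word is zero, because `(x l) v^m ∈ D1` and
`gam (c+1) = ⊥`. If at most `c` letters are replaced, the word is in `PF` of degree `c * (m * n) ≤ c * N * n`
(T10a). (In Lean: show by induction on `ls`: for a family `f : k → F`, such that `f μ ∈ gam i` for all `μ` and `f` is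
in `PF` of degree `d`, and `i ≤ c + 1`, the family `wd (f μ) (ls.map (θ μ x))` is in `PF` of degree
`d + (c + 1 - i) * (m n)` if `i ≥ 1` (it is zero for `i = c + 1`), and `d + c * (m n)` if `i = 0`.) -/
def OpPolyProp : Prop :=
  ∀ (k : Type u) [Field k] (F : Type u) [LieRing F] [LieAlgebra k F] (n : ℕ) (x : Fin n → F)
    (c N : ℕ) (lam : ℕ → k) (g : ℕ → ℕ → k) (T : k → Module.End k F),
    LieSubalgebra.lieSpan k F (Set.range x) = ⊤ → gam k F (c + 1) = ⊥ →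
    (∀ j < c, 0 < N / (j + 1)) → (∀ μ, IsOp k x c N lam g (mom k x μ) (T μ)) →
    ∀ w, PF k (c * N * n) (fun μ => T μ w)

/-! ## D. The ideal on which the `T` are linear -/

/-- (T11) PROOF. Induction on `l`. `[]` is trivial. `l = h :: l'`, `y = y h`: `Mid (l.map y)` is spanned by the
`wd (m y^P) ls`, `m ∈ Mid (l'.map y)` (the span of these elements is an ideal); it is contained in
`Mid (l'.map y)`. For `i ∈ l'`: linearity holds on the larger ideal `Mid (l'.map y)`; so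
`T i (wd (m y^P) ls) = wd ((T i m) y^P) ls`, in `Mid (l.map y)` because `T i m ∈ Mid (l'.map y)`. For `i = h`:
`T h (wd (m y^P) ls) = wd (m y^(P+N)) ls = wd ((m y^N) y^P) ls ∈ Mid (l.map y)`, and
`T h ⁅wd (m y^P) ls, z⁆ = T h (wd (m y^P) (ls ++ [z])) = ⁅T h (wd (m y^P) ls), z⁆`. Commutativity of `T i` and `T j`:
if `i, j ∈ l'` it holds on the larger ideal; `T h (T j (wd (m y^P) ls)) = T h (wd ((T j m) y^P) ls) =
wd ((T j m) y^(P+N)) ls = T j (wd (m y^(P+N)) ls) = T j (T h (wd (m y^P) ls))` for `j ∈ l'`; `i = j` is trivial. -/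
def MidProp : Prop :=
  ∀ (k : Type u) [Field k] (F : Type u) [LieRing F] [LieAlgebra k F] (ι : Type) (P₀ N : ℕ)
    (y : ι → F) (T : ι → Module.End k F),
    (∀ (i : ι) (w : F) (ls : List F),
      T i (wd (pw k (y i) P₀ w) ls) = wd (pw k (y i) (P₀ + N) w) ls) →
    ∀ (l : List ι), ∀ i ∈ l,
      (∀ a ∈ Mid k P₀ (l.map y), T i a ∈ Mid k P₀ (l.map y)) ∧
      (∀ a ∈ Mid k P₀ (l.map y), ∀ z : F, T i ⁅a, z⁆ = ⁅T i a, z⁆) ∧
      ∀ j ∈ l, ∀ a ∈ Mid k P₀ (l.map y), T i (T j a) = T j (T i a)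

/-- (T12) PROOF (uses T11, T6b). Let `l` be a list of `r` distinct elements of `Fin L`. Since `d < r`, T6b
applied to the `r` nodes `ν i`, `i ∈ l`, gives `T μ = ∑ i ∈ l, ℓ μ i • T (ν i)` for all `μ` (as operators on
`F`: `T μ w = ∑_{l ≤ d} μ^l q_l`). By T11 for the family `i ↦ T (ν i)`, all the
`T μ` are linear (`T μ ⁅a, z⁆ = ⁅T μ a, z⁆`), stable and commute on `Mid (l.map …)`. `GG` is the sum of these
ideals (`LieSubmodule.iSup_toSubmodule`, `Submodule.iSup_induction` …); linear extension. The commutation of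
`T μ` and `T μ'` on `GG` and the other properties are additive. The last statement: for `a ∈ GG`,
`(T μ a) y^P = T μ (a y^P) = a y^(P+N)` with `y = mom k x μ`, by linearity and the hypothesis (`ls = []`). -/
def StrLinProp : Prop :=
  ∀ (k : Type u) [Field k] (F : Type u) [LieRing F] [LieAlgebra k F] (n : ℕ) (x : Fin n → F)
    (P₀ N d r L : ℕ) (ν : Fin L → k) (T : k → Module.End k F), Function.Injective ν → d < r →
    (∀ w, PF k d (fun μ => T μ w)) →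
    (∀ (μ : k) (w : F) (ls : List F),
      T μ (wd (pw k (mom k x μ) P₀ w) ls) = wd (pw k (mom k x μ) (P₀ + N) w) ls) →
    (∀ μ, ∀ a ∈ GG k x P₀ ν r, T μ a ∈ GG k x P₀ ν r) ∧
    (∀ μ, ∀ a ∈ GG k x P₀ ν r, ∀ z : F, T μ ⁅a, z⁆ = ⁅T μ a, z⁆) ∧
    (∀ μ μ', ∀ a ∈ GG k x P₀ ν r, T μ (T μ' a) = T μ' (T μ a)) ∧
    ∀ μ, ∀ a ∈ GG k x P₀ ν r, pw k (mom k x μ) P₀ (T μ a) = pw k (mom k x μ) (P₀ + N) a

/-- (T13) PROOF. All the operators in `A` act on `Z / Y` and commute there. CLAIM: for every list `l` without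
repetitions of length `s ≤ r` there is `M`, depending only on `s`, with `ψ ^ M (∏_{i ∈ l} (φ i) ^ P z) ∈ Y` for all
`ψ ∈ A`, `z ∈ Z`. Descending induction on `s`; `s = r` is the hypothesis (`M = 0`). If `s < r`, at
least `L - s ≥ n` indices are not in `l`; choose `n` of them, `J`; `ψ = ∑_{i ∈ J} c_i φ i`; every monomial in the
expansion of `ψ ^ (n P + 1)` modulo commutation contains some `(φ i) ^ P`, so
`ψ ^ (n P + 1) ∏_{i ∈ l} (φ i) ^ P z` is in `Y` plus the sum of the `∏_{i' ∈ i :: l} (φ i') ^ P z'`, `i ∈ J`,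
`z' ∈ Z`, and `ψ ^ M'` maps these to `Y`. (One can pass to `Q = Z / Y` and to the commutative subalgebra of
`Module.End k Q` generated by the operators; there one works with commutative polynomials; e.g. `mod_` in
`Two/Mod.lean` with `ι = Fin L` gives `Q` as a module over `MvPolynomial (Fin L) k`; if `r = 0` take `M = 0`; if `r ≥ 1` then
`n ≤ L` and `A` is contained in the span of the `φ i`.) -/
def CombProp : Prop :=
  ∀ (k : Type u) [Field k] (X : Type u) [AddCommGroup X] [Module k X] (L n r P₀ : ℕ)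
    (φ : Fin L → Module.End k X) (Y Z : Submodule k X) (A : Submodule k (Module.End k X)),
    Y ≤ Z → (∀ ψ ∈ A, ∀ z ∈ Z, ψ z ∈ Z) → (∀ ψ ∈ A, ∀ y ∈ Y, ψ y ∈ Y) →
    (∀ ψ ∈ A, ∀ ψ' ∈ A, ∀ z ∈ Z, ψ (ψ' z) - ψ' (ψ z) ∈ Y) → (∀ i, φ i ∈ A) → r + n ≤ L + 1 →
    (∀ s : Finset (Fin L), s.card = n → A ≤ Submodule.span k (φ '' (s : Set (Fin L)))) →
    (∀ l : List (Fin L), l.Nodup → l.length = r → ∀ z ∈ Z,
      (l.map fun i => φ i ^ P₀).prod z ∈ Y) →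
    ∃ M : ℕ, ∀ ψ ∈ A, ∀ z ∈ Z, (ψ ^ M) z ∈ Y

/-- (T14) PROOF (uses T13, T6c). Let `G = GG`. For `1 ≤ i ≤ c` apply T13 to `Z = gam i ⊔ G`,
`Y = gam (i+1) ⊔ G`, `φ j = adr k (mom k x (ν j))`, `A = {adr k v | v ∈ span (range x)}` (the image of a
subspace under a linear map). The commutation: `lie_comm_mod`. Any `n` of the `φ j` span `A`: T6c for these `n`
nodes. The product over a list `l` of `r` distinct indices applied to `z` is in `Mid k P₀ (l.map …) ≤ G`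
(`Mid (y :: l) ∋ m y^P₀` for `m ∈ Mid l`, `Mid [] = ⊤`). This gives `M i`. Since `v`-bracket maps `⊤` to `gam 1`, and
`gam (c+1) = ⊥`, `M = 1 + ∑ i ∈ {1, …, c}, M i` works. -/
def NilpProp : Prop :=
  ∀ (k : Type u) [Field k] (F : Type u) [LieRing F] [LieAlgebra k F] (n : ℕ) (x : Fin n → F)
    (c P₀ r L : ℕ) (ν : Fin L → k), Function.Injective ν → r + n ≤ L + 1 →
    gam k F (c + 1) = ⊥ →
    ∃ M : ℕ, ∀ v ∈ Submodule.span k (Set.range x), ∀ w : F, pw k v M w ∈ GG k x P₀ ν r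

/-- (T15) PROOF. (1) There is a finite set `W` with `D1 ≤ G ⊔ gam 2 ⊔ span W`: by `D1_words`, `D1` is spanned by the
`wd ⁅x i, x j⁆ (ls.map x)`; modulo `gam 2` the letters of `ls` can be permuted (`lie_comm_mod`), and if some letter
`x l` occurs `≥ M` times the word is in `G ⊔ gam 2` (move all these letters to the front; or to the end).
The remaining words: finitely many (`ls` of length `< n M + 1`; `n, i, j` finite).
(2) `FC (G ⊔ gam (i+1)) (gam i)` for all `i ≥ 1`: induction, `gam (i+1)` is spanned by the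
`⁅a, b⁆`, `a ∈ gam i`, `b ∈ D1`. Write `b = g' + b' + s'` (`g' ∈ G`, `b' ∈ gam 2`, `s' ∈ span W`),
`a = g + a' + s` (`a' ∈ gam (i+1)`, `s ∈ span W_i`): `⁅a, b⁆ ≡ ⁅a, s'⁆ ≡ ⁅s, s'⁆` modulo `G ⊔ gam (i+2)`
(`⁅a', s'⁆ = ⁅a', b - g' - b'⁆ ∈ gam (i+2) ⊔ G`). So `W_(i+1)` = all the brackets of elements of `W_i` and `W`.
(3) `FC (D1) ⊤` (`derFc`, Two/LieGen.lean), and `gam (c+1) = ⊥`; `FC.trans`. -/
def CofProp : Prop :=
  ∀ (k : Type u) [Field k] (F : Type u) [LieRing F] [LieAlgebra k F] (n : ℕ) (x : Fin n → F)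
    (c M : ℕ) (G : LieIdeal k F), LieSubalgebra.lieSpan k F (Set.range x) = ⊤ →
    gam k F (c + 1) = ⊥ → (∀ (j : Fin n) (w : F), pw k (x j) M w ∈ G) → FC G.toSubmodule ⊤

/-! ## E. Finite generation -/

/-- (T16) PROOF. For `e : Fin n → ℕ` let `M i j e = ⁅y i, y j⁆ y_0^(e 0) … y_(n-1)^(e (n-1))` (e.g. `wd ⁅y i, y j⁆` of a
list). Modulo `gam 2` letters commute in words starting in `D1` (`lie_comm_mod`), so by `D1_words` (for `y`) `D1` is
spanned by the `M i j e` modulo `gam 2`. Then `gam i` is spanned modulo `gam (i+1)` by the words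
`W = wd d_1 [d_2, …, d_i]`, all `d_l` of the form `M i j e` (induction on `i`; `lie_mem_gam_gam`). Let `S` be the set
of those `W` with all the exponents `< P₀ + N`; it is finite. CLAIM: all `W` are in
`U = gen T S ⊔ gam (i+1)`, a `T`-stable subspace; strong induction on the sum of all the exponents of all the `d_l`. Assume
that `d_l` has an exponent `e j ≥ P₀ + N`. LEMMA (moving to the front): for elements `d_1, …, d_i` of a Lie ring and
every `l`, `wd d_1 [d_2, …, d_i]` is in the span of the `wd d_l ls`, `ls` a permutation of the other `d`'s.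
(If `l > 1`: `A = wd d_1 [d_2, …, d_(l-1)]`, `⁅A, d_l⁆ = - ⁅d_l, A⁆`, and `⁅d_l, ⁅A', d'⁆⁆ = ⁅⁅d_l, A'⁆, d'⁆ -
⁅⁅d_l, d'⁆, A'⁆`, induction on the length of `A`.) So we may assume `l = 1`. Modulo `gam 2`, `d_1 ≡ M' y_j^(P₀ + N)`
with `M' = M i j e'`, `e' j = e j - P₀ - N`, and `W ≡ wd (M' y_j^(P₀+N)) [d_2, …] = T j (wd (M' y_j^P₀) [d_2, …]) ≡
T j (wd (M i j e'') [d_2, …])` modulo `gam (i+1)`, `e'' j = e j - N`; by induction
`wd (M i j e'') [d_2, …] ∈ U`. Finally `U ≤ gam i` because `T` preserves `gam i`. -/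
def LayerGenProp : Prop :=
  ∀ (k : Type u) [Field k] (F : Type u) [LieRing F] [LieAlgebra k F] (n : ℕ) (y : Fin n → F)
    (P₀ N : ℕ) (T : Fin n → Module.End k F), LieSubalgebra.lieSpan k F (Set.range y) = ⊤ →
    0 < N →
    (∀ (j : Fin n) (w : F) (ls : List F),
      T j (wd (pw k (y j) P₀ w) ls) = wd (pw k (y j) (P₀ + N) w) ls) →
    (∀ (j : Fin n) (i : ℕ), ∀ a ∈ gam k F i, T j a ∈ gam k F i) →
    ∀ i, 1 ≤ i → ∃ S : Finset F,
      gen T (S : Set F) ⊔ (gam k F (i + 1)).toSubmodule = (gam k F i).toSubmodule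

/-- (T17) PROOF (uses `HilbertProp`). By descending induction on `i` (from `c + 1` to `1`): `U ⊓ gam i = gen T S`
for a finite `S`. `i = c + 1`: `S = ∅`. Step: `HilbertProp` with `φ = T`, `Y = gam (i+1)`, `Z = gam i`,
`U' = (U ⊓ gam i) ⊔ gam (i+1)` gives a finite `S'` with `gen T S' ⊔ gam (i+1) = U'`; changing the elements of
`S'` by elements of `gam (i+1)` we may assume `S' ⊆ U ⊓ gam i` (each `s' = u + h`, and
`gen T {u}_u ⊔ gam (i+1)` is stable and contains the `s'`). Then `U ⊓ gam i = gen T S' ⊔ (U ⊓ gam (i+1))`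
(modular law) `= gen T S' ⊔ gen T S = gen T (S' ∪ S)` (`gen_union`). -/
def NoethProp : Prop :=
  ∀ (k : Type u) [Field k] (F : Type u) [LieRing F] [LieAlgebra k F] (n c : ℕ)
    (T : Fin n → Module.End k F), gam k F (c + 1) = ⊥ →
    (∀ (j : Fin n) (i : ℕ), ∀ a ∈ gam k F i, T j a ∈ gam k F i) →
    (∀ (j l : Fin n) (i : ℕ), 1 ≤ i → ∀ a ∈ gam k F i,
      T j (T l a) - T l (T j a) ∈ gam k F (i + 1)) →
    (∀ i, 1 ≤ i → ∃ S : Finset F,
      gen T (S : Set F) ⊔ (gam k F (i + 1)).toSubmodule = (gam k F i).toSubmodule) →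
    ∀ U : Submodule k F, Stab T U → U ≤ (gam k F 1).toSubmodule →
      ∃ S : Finset F, gen T (S : Set F) = U

/-- (T18) PROOF (uses `IntegralProp`, `IdealGenProp`, `DerFcProp`… from Two). `B = ⁅K, G⁆`. Let `K 1 = K`,
`K (j+1) = ⁅K j, D1⁆ ⊔ B` (ideals, decreasing: `B ≤ K j ≤ K`). `K (c + 2) = B`: `⁅K, D1⁆ ≤ D1 = gam 1`, so
`K (j + 1) ≤ gam j ⊔ B` for `j ≥ 1`. CLAIM: for all `j ≥ 1` there is a finite `S` with
`gen (adr (y l))_l S ⊔ K (j+1) = K j`. `j = 1`: `K` is the ideal generated by a finite `S`, `idealGen` (Two/LieGen.lean).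
Step: `D1 ≤ G ⊔ span W`, `W` finite. Let `S' = {⁅s, d⁆ : s ∈ S, d ∈ W'}`, where `W'` is a finite subset
of `D1` with `D1 ≤ G ⊔ span W'` (exists: take a finite spanning set of the finite dimensional space `D1 / (D1 ⊓ G)`). Let
`U = gen (adr (y l)) S' ⊔ K (j+2)`; `C = {κ ∈ K j | ∀ d ∈ D1, ⁅κ, d⁆ ∈ U}`. `C` is a subspace;
`K (j+1) ≤ C` (`⁅K (j+1), D1⁆ ≤ K (j+2)`); `S ⊆ C` (`d = g + s'`, `⁅s, g⁆ ∈ B`); and `C` is stable under
`adr (y l)`: `⁅⁅κ, y⁆, d⁆ = ⁅⁅κ, d⁆, y⁆ - ⁅κ, ⁅d, y⁆⁆ ∈ U`. So `C = K j`, hence `⁅K j, D1⁆ ≤ U` and `K (j+1) ≤ U`; the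
other inclusion is clear.
Next, on `K j` modulo `K (j+1)` the operators `adr (y l)` commute (`lie_lie_right`, `⁅K j, D1⁆ ≤ K (j+1)`), hence also with
`z l = pw k (y l) P' = (adr k (y l)) ^ P'`; `IntegralProp` with `φ = z`, `ψ = adr (y l)`, `d = P'`, `r 0 = z l`
(`r l = 0` for `l ≥ 1`) gives a finite `S''` with `gen z S'' ⊔ K (j+1) = K j`. Finally
`K = gen z (union of the S'') ⊔ B` (`gen_union`, induction). -/
def KfgProp : Prop :=
  ∀ (k : Type u) [Field k] (F : Type u) [LieRing F] [LieAlgebra k F] (n : ℕ) (y : Fin n → F)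
    (c P' : ℕ) (G K : LieIdeal k F), LieSubalgebra.lieSpan k F (Set.range y) = ⊤ →
    gam k F (c + 1) = ⊥ → 0 < P' → FC G.toSubmodule ⊤ →
    (∃ S : Finset F, LieSubmodule.lieSpan k F (S : Set F) = K) →
    ∃ S : Finset F, gen (fun j => pw k (y j) P') (S : Set F) ⊔
      (⁅K, G⁆ : LieIdeal k F).toSubmodule = K.toSubmodule

/-- (T19) PROOF (uses `HilbertProp`). `HilbertProp` with `φ j = pw k (y j) P'`, `Y = ⁅K, G⁆`, `Z = K`,
`U = K ⊓ G`. `CommMod`: let `δ = pw k (y j) P'`, a derivation with values in `G`. For `a ∈ K` and `y' : F`,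
`δ ⁅a, y'⁆ - ⁅δ a, y'⁆ = ⁅a, δ y'⁆ ∈ ⁅K, G⁆`; by induction on `e`, `δ (pw k y' e a) - pw k y' e (δ a) ∈ ⁅K, G⁆` for
`a ∈ K` (`⁅K, G⁆` and `K` are ideals). The rest is clear (ideals are stable). -/
def XfgProp : Prop :=
  ∀ (k : Type u) [Field k] (F : Type u) [LieRing F] [LieAlgebra k F] (n : ℕ) (y : Fin n → F)
    (P' : ℕ) (G K : LieIdeal k F), Der k F P' → (∀ (j : Fin n) (w : F), pw k (y j) P' w ∈ G) →
    (∃ S : Finset F, gen (fun j => pw k (y j) P') (S : Set F) ⊔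
      (⁅K, G⁆ : LieIdeal k F).toSubmodule = K.toSubmodule) →
    ∃ S : Finset F, gen (fun j => pw k (y j) P') (S : Set F) ⊔
      (⁅K, G⁆ : LieIdeal k F).toSubmodule = (K ⊓ G : LieIdeal k F).toSubmodule

/-! ## F. Closedness -/

/-- (T20) PROOF. Since `k` is infinite, Vandermonde with `d + 1` distinct nodes gives operators `Z l`, `C l`
(linear combinations of values `z μ`, resp. `T μ`) with `z μ = ∑ l ≤ d, μ ^ l • Z l`, `T μ = ∑ l ≤ d, μ ^ l • C l`.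
Let `A` be the commutative subalgebra of `Module.End k X` generated by all the `z μ`, `T μ`
(`Algebra.adjoinCommRingOfComm`), and `f = ∑ Z l X^l`, `h = ∑ C l X^l` in `A[X]`, `g = h ^ a - f ^ b`. For all `μ ∈ k`
the value of `f g` at `μ` is `z μ T μ ^ a - z μ ^ (1 + b) = 0`; since `k` is infinite, `f g = 0` in `A[X]` (Vandermonde). For a fixed
`μ₀` substitute `X + μ₀`: `f' g' = 0`, `f' = ∑ f'_l X^l`, `f'_0 = z μ₀`, `g' = ∑_{l ≤ D} g'_l X^l`, where `D` does not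
depend on `μ₀`. Then `f'_0 ^ (l+1) g'_l = 0` by strong induction on `l` (the coefficient of `X^l` in `f' g' = 0` is
`f'_0 g'_l + ∑_{i<l} f'_(l-i) g'_i`). So `(z μ₀) ^ (D + 1) g' = 0` and `(z μ₀) ^ (D+1) (T μ ^ a - z μ ^ b) = 0` for all `μ, μ₀`.
`X₀ = ⨆ μ, range (T μ ^ a - z μ ^ b)`, `q = D + 1`. -/
def X0Prop : Prop :=
  ∀ (k : Type u) [Field k] [Infinite k] (X : Type u) [AddCommGroup X] [Module k X] (d a b : ℕ)
    (z T : k → Module.End k X), (∀ w, PF k d (fun μ => z μ w)) →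
    (∀ w, PF k d (fun μ => T μ w)) → (∀ μ μ', Commute (z μ) (z μ')) →
    (∀ μ μ', Commute (T μ) (T μ')) → (∀ μ μ', Commute (z μ) (T μ')) →
    (∀ μ, z μ * T μ ^ a = z μ ^ (1 + b)) →
    ∃ (X₀ : Submodule k X) (q : ℕ), (∀ μ, ∀ w ∈ X₀, z μ w ∈ X₀) ∧ (∀ μ, ∀ w ∈ X₀, T μ w ∈ X₀) ∧
      (∀ μ, ∀ w ∈ X₀, (z μ ^ q) w = 0) ∧ ∀ μ w, (T μ ^ a) w - (z μ ^ b) w ∈ X₀

/-- (T21) PROOF (uses `X0Prop`, `ClosedProp`, `IntegralProp`). T20 gives `X₀`, `q`. Apply `ClosedProp` with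
`σ i = z (ν i)`, `ν i = T (ν i)`, `W = ⊥`, `B`, `q`, `ζ`. `gen (σ, ν) S = ⊤` from `gen ν S = ⊤`. For
`gen σ S ⊔ X₀ = ⊤` use `IntegralProp` with `φ = σ`, `ψ i = T (ν i)`, `Y = X₀`, `Z = ⊤`, `d = a`, `r 0 = (z (ν i)) ^ b`,
`r l = 0` for `l ≥ 1` (`0 < a`). -/
def ClosedTProp : Prop :=
  ∀ (k : Type u) [Field k] [Infinite k] (X : Type u) [AddCommGroup X] [Module k X] (n d a b : ℕ)
    (z T : k → Module.End k X) (ν : Fin n → k) (B : Submodule k X) (ζ : X), 0 < a →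
    (∀ w, PF k d (fun μ => z μ w)) → (∀ w, PF k d (fun μ => T μ w)) →
    (∀ μ μ', Commute (z μ) (z μ')) → (∀ μ μ', Commute (T μ) (T μ')) →
    (∀ μ μ', Commute (z μ) (T μ')) → (∀ μ, z μ * T μ ^ a = z μ ^ (1 + b)) →
    (∃ S : Finset X, gen (fun i => T (ν i)) (S : Set X) = ⊤) →
    (∀ i, ∀ w ∈ B, z (ν i) w ∈ B) → (∃ S : Finset X, gen (fun i => z (ν i)) (S : Set X) = B) →
    ζ ∉ B →
    ∃ D : Submodule k X, (∀ i, ∀ w ∈ D, T (ν i) w ∈ D) ∧ FC D ⊤ ∧ ζ ∉ B ⊔ D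

/-- (T22) Relative version. PROOF (uses `ClosedTProp`). Pass to the quotient `Q = ↥Z ⧸ Y.comap Z.subtype` with the
induced operators (`Submodule.mapQ`, `LinearMap.restrict`); the preimage of the `D` obtained there. -/
def ClosedQProp : Prop :=
  ∀ (k : Type u) [Field k] [Infinite k] (X : Type u) [AddCommGroup X] [Module k X] (n d a b : ℕ)
    (z T : k → Module.End k X) (ν : Fin n → k) (Y Z B : Submodule k X) (ζ : X), 0 < a →
    Y ≤ B → B ≤ Z → (∀ μ, ∀ w ∈ Y, z μ w ∈ Y) → (∀ μ, ∀ w ∈ Y, T μ w ∈ Y) →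
    (∀ μ, ∀ w ∈ Z, z μ w ∈ Z) → (∀ μ, ∀ w ∈ Z, T μ w ∈ Z) →
    (∀ w, PF k d (fun μ => z μ w)) → (∀ w, PF k d (fun μ => T μ w)) →
    (∀ μ μ', ∀ w ∈ Z, z μ (z μ' w) - z μ' (z μ w) ∈ Y) →
    (∀ μ μ', ∀ w ∈ Z, T μ (T μ' w) - T μ' (T μ w) ∈ Y) →
    (∀ μ μ', ∀ w ∈ Z, z μ (T μ' w) - T μ' (z μ w) ∈ Y) →
    (∀ μ, ∀ w ∈ Z, z μ ((T μ ^ a) w) - (z μ ^ (1 + b)) w ∈ Y) →
    (∃ S : Finset X, gen (fun i => T (ν i)) (S : Set X) ⊔ Y = Z) →
    (∀ i, ∀ w ∈ B, z (ν i) w ∈ B) →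
    (∃ S : Finset X, gen (fun i => z (ν i)) (S : Set X) ⊔ Y = B) → ζ ∈ Z → ζ ∉ B →
    ∃ D : Submodule k X, Y ≤ D ∧ D ≤ Z ∧ (∀ i, ∀ w ∈ D, T (ν i) w ∈ D) ∧ FC D Z ∧ ζ ∉ B ⊔ D

/-- (T23a) Relative version of `AnnProp`. PROOF (uses `AnnProp`): apply it to the space `↥Z`, with the restricted
operators. -/
def AnnRelProp : Prop :=
  ∀ (k : Type u) [Field k] (X : Type u) [AddCommGroup X] [Module k X] (ι : Type) [Finite ι]
    (φ : ι → Module.End k X) (Y Z C : Submodule k X), Stab φ Y → Stab φ Z → CommMod φ Y Z →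
    (∃ S : Finset X, gen φ (S : Set X) ⊔ Y = Z) → Stab φ C → Y ≤ C → C ≤ Z → FC C Z →
    ∃ D : Submodule k X, Y ≤ D ∧ D ≤ C ∧ FC D Z ∧
      ∀ ψ : Module.End k X, (∀ w ∈ Z, ψ w ∈ Z) → (∀ w ∈ Y, ψ w ∈ Y) →
        (∀ i, ∀ w ∈ Z, ψ (φ i w) = φ i (ψ w)) → ∀ w ∈ D, ψ w ∈ D

/-- (T23b) PROOF (uses `RfdProp`; compare `closed_sep` in `Two/Closed.lean`). `U / W` is finite dimensional. Among the
stable `C` with `W ≤ C ≤ Z`, `FC C Z` choose one with the smallest dimension of `(C ⊓ U) / W`. If `C ⊓ U ≤ W`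
fails choose `x ∈ C ⊓ U`, `x ∉ W`, and `D` from `RfdProp` (`φ, Y, Z`, with `U := W` and this `x`); then `C ⊓ D` is
smaller. -/
def SepFdProp : Prop :=
  ∀ (k : Type u) [Field k] (X : Type u) [AddCommGroup X] [Module k X] (ι : Type) [Finite ι]
    (φ : ι → Module.End k X) (Y Z W U : Submodule k X), Stab φ Y → CommMod φ Y Z →
    (∃ S : Finset X, gen φ (S : Set X) ⊔ Y = Z) → Stab φ W → Y ≤ W → W ≤ U → U ≤ Z → FC W U →
    ∃ C : Submodule k X, Stab φ C ∧ W ≤ C ∧ C ≤ Z ∧ FC C Z ∧ C ⊓ U ≤ W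

/-- (T24) PROOF (uses `RfdProp`, `AnnRelProp`, `SepFdProp`, `ClosedQProp`). If `ζ ∉ K ⊔ G` take `I = K ⊔ G`. Otherwise
`ζ = κ + g`, and an ideal `I ≥ K` with `g ∉ I` works; so let `ζ = g ∈ G`, `g ∉ K`. Let `B = ⁅K, G⁆` and
`D = {g ∈ G | ∀ h ∈ G, ⁅g, h⁆ ∈ B}`, ideals; `B ≤ K ⊓ G ≤ D ≤ G`. `T μ B ⊆ B`: `T μ ⁅κ, g⁆ = - T μ ⁅g, κ⁆ = -⁅T μ g, κ⁆`
(`br_span`). So `T μ D ⊆ D`. `z μ = pw k (mom k x μ) P'`.
Case 1: `g ∉ D`. `RfdProp` with `φ i = T (ν i)`, `Y = ⊥`, `Z = G`, `U = D`, `x = g` gives a stable `C`,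
`D ≤ C ≤ G`, `g ∉ C`, `FC C G`. `AnnRelProp` with `Y = D`, `Z = G`, this `C`, gives `D''` with
`D ≤ D'' ≤ C`, `FC D'' G`; it is an ideal (take `ψ = adr k z`). `I = K ⊔ D''`: if `g = κ + d''` then
`κ ∈ K ⊓ G ≤ D ≤ D''`, so `g ∈ D''`, a contradiction. `FC I ⊤` by `FC.trans`.
Case 2: `g ∈ D`. `ClosedQProp` with `Y = B`, `Z = D`, `B := K ⊓ G`, `ζ = g`, `a = P'`, `b = N`, and some degree bound
(`PF` is monotone in `d`): `z μ` and `z μ'` commute modulo `B` on `D`: for a derivation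
`δ = z μ` with values in `G` and `a ∈ D`: `δ ⁅a, y⁆ - ⁅δ a, y⁆ = ⁅a, δ y⁆ ∈ B`, then induction on `e` for
`δ (pw k y e a) - pw k y e (δ a) ∈ B`. `z μ` and `T μ'` commute on `G` by linearity. `z μ (T μ ^ P' a) = z μ ^ (1 + N) a` for
`a ∈ G`: `pw P' (T μ ^ j a) = pw (P' + j N) a` by induction on `j`, and
`pw (P' + P' N) = (pw P') ^ (1 + N)` (`pw_mul`). Generation of `D` from the hypothesis on the `T`-stable subspaces. We get
`D₁`: `B ≤ D₁ ≤ D`, `T (ν i)`-stable, `FC D₁ D`, `g ∉ (K ⊓ G) ⊔ D₁`. `SepFdProp` with `φ i = T (ν i)`, `Y = ⊥`, `Z = G`,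
`W = D₁`, `U = D` gives `C`, `D₁ ≤ C ≤ G`, `FC C G`, `C ⊓ D ≤ D₁`. `AnnRelProp` with `Y = ⊥`, `Z = G`, `C` gives
`D'' ≤ C`, `FC D'' G`, an ideal. `I = K ⊔ D''`: if `g = κ + d''` then `κ = g - d'' ∈ K ⊓ G ≤ D`, so
`d'' ∈ D ⊓ C ≤ D₁` and `g ∈ (K ⊓ G) ⊔ D₁`, a contradiction. -/
def FinishProp : Prop :=
  ∀ (k : Type u) [Field k] [Infinite k] (F : Type u) [LieRing F] [LieAlgebra k F] (n : ℕ)
    (x : Fin n → F) (d N P' : ℕ) (G K : LieIdeal k F) (T : k → Module.End k F) (ν : Fin n → k)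
    (ζ : F), FC G.toSubmodule ⊤ → 0 < P' → Der k F P' →
    (∀ (μ : k) (w : F), pw k (mom k x μ) P' w ∈ G) →
    (∀ w, PF k (P' * n) (fun μ => pw k (mom k x μ) P' w)) → (∀ w, PF k d (fun μ => T μ w)) →
    (∀ μ, ∀ a ∈ G, T μ a ∈ G) → (∀ μ, ∀ a ∈ G, ∀ z : F, T μ ⁅a, z⁆ = ⁅T μ a, z⁆) →
    (∀ μ μ', ∀ a ∈ G, T μ (T μ' a) = T μ' (T μ a)) →
    (∀ μ, ∀ a ∈ G, pw k (mom k x μ) P' (T μ a) = pw k (mom k x μ) (P' + N) a) →
    (∀ U : Submodule k F, Stab (fun i => T (ν i)) U → U ≤ G.toSubmodule →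
      ∃ S : Finset F, gen (fun i => T (ν i)) (S : Set F) = U) →
    (∃ S : Finset F, gen (fun i => pw k (mom k x (ν i)) P') (S : Set F) ⊔
      (⁅K, G⁆ : LieIdeal k F).toSubmodule = (K ⊓ G : LieIdeal k F).toSubmodule) →
    ζ ∉ K → ∃ I : LieIdeal k F, K ≤ I ∧ FC I.toSubmodule ⊤ ∧ ζ ∉ I

/-! ## G. Varieties -/

/-- (T25) PROOF. By induction on `i`: the identity in all lengths; the set of values
`(List.range i).foldl (fun w j => ⁅w, ⁅a (j+1), b (j+1)⁆⁆) ⁅a 0, b 0⁆` spans `gam (i+1)` (`gam 1 = D1` is spanned by the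
`⁅a, b⁆`; `gam (i+2)` is spanned by the `⁅w, ⁅a, b⁆⁆` with `w` in a spanning set of `gam (i+1)`; given `a, b : ℕ → L`
one may change the values at `i + 1` without changing the fold over `List.range i`; `List.range_succ`). -/
def GamWordsProp : Prop :=
  ∀ (k : Type u) [Field k] (L : Type u) [LieRing L] [LieAlgebra k L] (c : ℕ),
    (∀ a b : ℕ → L, (List.range c).foldl (fun w i => ⁅w, ⁅a (i + 1), b (i + 1)⁆⁆) ⁅a 0, b 0⁆ = 0) →
    gam k L (c + 1) = ⊥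

/-- (T26) PROOF. Each `c i` is in a finite subfield (`ZMod p⟮c i⟯` is a finite field), so
`(c i) ^ (p ^ r i) = c i` with `r i > 0`; take `r = ∏ r i`. -/
def AlgFinProp : Prop :=
  ∀ (k : Type u) [Field k] (p : ℕ) [Fact p.Prime] [Algebra (ZMod p) k] (m : ℕ) (c : ℕ → k),
    (∀ i ≤ m, IsAlgebraic (ZMod p) (c i)) → ∃ r : ℕ, 0 < r ∧ ∀ i ≤ m, c i ^ p ^ r = c i

/-- (T27) The main theorem for Lie algebras; proved in `Tor/Main.lean` from all of the above. -/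
def TorMainProp : Prop :=
  ∀ (k : Type u) [Field k] [Infinite k] (p : ℕ) [Fact p.Prime] [CharP k p] (F : Type u)
    [LieRing F] [LieAlgebra k F] (n : ℕ) (x : Fin n → F) (K : LieIdeal k F) (c m r : ℕ)
    (co : ℕ → k) (ζ : F), LieSubalgebra.lieSpan k F (Set.range x) = ⊤ →
    (∀ η : Fin n → F, ∃ θ : F →ₗ⁅k⁆ F, ∀ i, θ (x i) = η i) → gam k F (c + 1) = ⊥ → 0 < r →
    (∀ i ≤ m, co i ^ p ^ r = co i) → (∃ i ≤ m, co i ≠ 0) → IdI k F m co →
    (∃ S : Finset F, LieSubmodule.lieSpan k F (S : Set F) = K) → ζ ∉ K →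
    ∃ I : LieIdeal k F, K ≤ I ∧ FC I.toSubmodule ⊤ ∧ ζ ∉ I

end Pool.Agent.Lib.MP_240c17_al.Tor
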