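import Pool.Agent.Lib.MP_240c17_al.Necessary
import Pool.Agent.Lib.MP_240c17_al.Two.RelFree
import Pool.Agent.Lib.MP_240c17_al.Tor.Spec

/-!
From separation of elements of the relatively free algebras to relatively finitely presented algebras.
-/

set_option autoImplicit false

namespace Pool.Agent.Lib.MP_240c17_al.Tor

universe u

open Pool.Agent.Lib.MP_240c17_al Pool.Agent.Lib.MP_240c17_al.Two

variable {k : Type u} [Field k]

/-- Separation in the relatively free algebras gives residual finite dimensionality of the relatively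
finitely presented algebras. -/
theorem final_gen (Id : Set (FreeLieAlgebra k ℕ))
    (hM : ∀ (n : ℕ) (K : LieIdeal k (FreeLieAlgebra k (Fin n) ⧸ verbalIdeal Id n))
      (ζ : FreeLieAlgebra k (Fin n) ⧸ verbalIdeal Id n),
      (∃ S : Finset (FreeLieAlgebra k (Fin n) ⧸ verbalIdeal Id n),
        LieSubmodule.lieSpan k _ (S : Set (FreeLieAlgebra k (Fin n) ⧸ verbalIdeal Id n)) = K) →
      ζ ∉ K → ∃ I : LieIdeal k (FreeLieAlgebra k (Fin n) ⧸ verbalIdeal Id n),
        K ≤ I ∧ FC I.toSubmodule ⊤ ∧ ζ ∉ I)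
    (L : Type u) [LieRing L] [LieAlgebra k L] (hL : RelFinitelyPresented Id L) :
    ResiduallyFiniteDimensional k L := by
  classical
  obtain ⟨n, π, S, hπ, hker⟩ := hL
  intro x hx
  obtain ⟨w, rfl⟩ := hπ x
  -- the relatively free algebra
  let T := verbalIdeal Id n
  let q : FreeLieAlgebra k (Fin n) →ₗ⁅k⁆ (FreeLieAlgebra k (Fin n) ⧸ T) := qMk T
  have hq : Function.Surjective q := qMk_surjective T
  let K : LieIdeal k (FreeLieAlgebra k (Fin n) ⧸ T) :=
    LieSubmodule.lieSpan k _ ((S.image q : Finset _) : Set (FreeLieAlgebra k (Fin n) ⧸ T))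
  have hKker : ∀ v, q v ∈ K → v ∈ π.ker := by
    intro v hv
    have h1 : K ≤ LieIdeal.map q π.ker := by
      rw [LieSubmodule.lieSpan_le]
      intro z hz
      rw [Finset.coe_image] at hz
      obtain ⟨s, hs, rfl⟩ := hz
      refine LieIdeal.mem_map ?_
      rw [hker]
      exact (le_sup_right : _ ≤ verbalIdeal Id n ⊔ _) (LieSubmodule.subset_lieSpan hs)
    obtain ⟨v', hv'⟩ := LieIdeal.mem_map_of_surjective hq (h1 hv)
    have h2 : v - v' ∈ T := by
      rw [← qMk_eq_zero, map_sub, sub_eq_zero]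
      exact hv'.symm
    have h0 : verbalIdeal Id n ≤ π.ker := by
      rw [hker]
      exact le_sup_left
    have h3 : v - v' ∈ π.ker := h0 h2
    have h4 := π.ker.add_mem h3 v'.2
    simpa using h4
  have hζ : q w ∉ K := fun h => hx (LieHom.mem_ker.mp (hKker w h))
  obtain ⟨I, hKI, hfc, hwI⟩ := hM n K (q w) ⟨_, rfl⟩ hζ
  -- the ideal of `L`
  let J : LieIdeal k L := LieIdeal.map π (LieIdeal.comap q I)
  refine ⟨J, ?_, ?_⟩
  · show FiniteDimensional k (L ⧸ J.toSubmodule)
    rw [← fc_top_iff]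
    obtain ⟨W, hW⟩ := hfc
    choose r hr using hq
    refine ⟨W.image fun z => π (r z), ?_⟩
    intro l _
    obtain ⟨v, rfl⟩ := hπ l
    obtain ⟨a, ha, b, hb, hab⟩ := Submodule.mem_sup.mp (hW (Submodule.mem_top : q v ∈ ⊤))
    have h1 : ∀ b ∈ Submodule.span k (W : Set (FreeLieAlgebra k (Fin n) ⧸ T)),
        ∃ v' : FreeLieAlgebra k (Fin n), q v' = b ∧
          π v' ∈ Submodule.span k ((W.image fun z => π (r z) : Finset L) : Set L) := by
      intro b hb
      induction hb using Submodule.span_induction with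
      | mem z hz =>
        exact ⟨r z, hr z, Submodule.subset_span (by
          rw [Finset.coe_image]
          exact ⟨z, hz, rfl⟩)⟩
      | zero => exact ⟨0, map_zero q, by rw [map_zero]; exact Submodule.zero_mem _⟩
      | add x y hx hy ihx ihy =>
        obtain ⟨v1, h1, h2⟩ := ihx
        obtain ⟨v2, h3, h4⟩ := ihy
        exact ⟨v1 + v2, by rw [map_add, h1, h3], by rw [map_add]; exact Submodule.add_mem _ h2 h4⟩
      | smul t x hx ihx =>
        obtain ⟨v1, h1, h2⟩ := ihx
        exact ⟨t • v1, by rw [map_smul, h1], by rw [map_smul]; exact Submodule.smul_mem _ t h2⟩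
    obtain ⟨v', hv', hv'W⟩ := h1 b hb
    refine Submodule.mem_sup.mpr ⟨π (v - v'), ?_, π v', hv'W, by rw [map_sub]; abel⟩
    show π (v - v') ∈ J
    refine LieIdeal.mem_map ?_
    show q (v - v') ∈ I
    rw [map_sub, hv', ← hab, add_sub_cancel_right]
    exact ha
  · intro hmem
    obtain ⟨v, hv⟩ := LieIdeal.mem_map_of_surjective hπ hmem
    have h1 : q v ∈ I := v.2
    have h2 : (v : FreeLieAlgebra k (Fin n)) - w ∈ π.ker := by
      rw [LieHom.mem_ker, map_sub, hv, sub_self]
    have h3 : ∀ z ∈ π.ker, q z ∈ K := by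
      intro z hz
      rw [hker] at hz
      obtain ⟨a, ha, b, hb, rfl⟩ := (LieSubmodule.mem_sup _ _ _).mp hz
      rw [map_add, (qMk_eq_zero T a).mpr ha, zero_add]
      have h4 : LieSubmodule.lieSpan k (FreeLieAlgebra k (Fin n))
          (S : Set (FreeLieAlgebra k (Fin n))) ≤ LieIdeal.comap q K := by
        rw [LieSubmodule.lieSpan_le]
        intro s hs
        show q s ∈ K
        refine LieSubmodule.subset_lieSpan ?_
        rw [Finset.coe_image]
        exact ⟨s, hs, rfl⟩
      exact h4 hb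
    have h5 : q v - q w ∈ I := by
      rw [← map_sub]
      exact hKI (h3 _ h2)
    apply hwI
    have h6 := I.sub_mem h1 h5
    simpa using h6



/-- Sufficiency of the identity for nilpotent-by-abelian varieties in characteristic `p`, when its
coefficients are in a finite field. -/
theorem tor_suff (hMain : TorMainProp.{u}) (hGam : GamWordsProp.{u}) [Infinite k] (p : ℕ)
    [Fact p.Prime] [CharP k p] (Id : Set (FreeLieAlgebra k ℕ)) (c : ℕ)
    (hN : ∀ (L : Type u) [LieRing L] [LieAlgebra k L], InVariety Id L → ∀ a b : ℕ → L,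
      (List.range c).foldl (fun w i => ⁅w, ⁅a (i + 1), b (i + 1)⁆⁆) ⁅a 0, b 0⁆ = 0)
    (m r : ℕ) (co : ℕ → k) (hr : 0 < r) (hco : ∀ i ≤ m, co i ^ p ^ r = co i)
    (hne : ∃ i ≤ m, co i ≠ 0)
    (hI : ∀ (L : Type u) [LieRing L] [LieAlgebra k L], InVariety Id L → ∀ a b y : L,
        ∑ i ∈ Finset.range (m + 1),
          co i • ⁅(fun l => ⁅l, y⁆)^[i] a, (fun l => ⁅l, y⁆)^[m - i] b⁆ = 0)
    (L : Type u) [LieRing L] [LieAlgebra k L] (hL : RelFinitelyPresented Id L) :
    ResiduallyFiniteDimensional k L := by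
  refine final_gen Id ?_ L hL
  intro n K ζ hK hζ
  have hV := relFree_mem Id n
  refine hMain k p (FreeLieAlgebra k (Fin n) ⧸ verbalIdeal Id n) n
    (fun i => qMk (verbalIdeal Id n) (FreeLieAlgebra.of k i)) K c m r co ζ (relFree_gen Id n)
    (fun η => relFree_lift Id n hV η) (hGam k _ c (hN _ hV)) hr hco hne ?_ hK hζ
  intro a b y
  have h := hI _ hV a b y
  simp only [← pw_iterate (k := k)] at h
  exact h

end Pool.Agent.Lib.MP_240c17_al.Tor
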