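import Pool.Agent.Lib.MP_240c17_al.Tor.Spec

/-!
(T24) Ideals of finite codimension separating an element from a finitely generated ideal.
-/

set_option autoImplicit false

namespace Pool.Agent.Lib.MP_240c17_al.Tor

universe u

open Pool.Agent.Lib.MP_240c17_al.Two

section

variable {k : Type u} [Field k] {F : Type u} [LieRing F] [LieAlgebra k F]

private theorem finish_pf {X : Type u} [AddCommGroup X] [Module k X] {d d' : ℕ} {f : k → X}
    (h : PF k d f) (hd : d ≤ d') : PF k d' f := by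
  obtain ⟨q, hq⟩ := h
  refine ⟨fun l => if l < d + 1 then q l else 0, fun μ => ?_⟩
  rw [hq]
  have h1 : Finset.range (d + 1) ⊆ Finset.range (d' + 1) := by
    intro l hl
    rw [Finset.mem_range] at hl ⊢
    omega
  rw [← Finset.sum_subset h1]
  · apply Finset.sum_congr rfl
    intro l hl
    simp only
    rw [if_pos (Finset.mem_range.mp hl)]
  · intro l _ hl
    rw [Finset.mem_range] at hl
    simp only
    rw [if_neg hl, smul_zero]

/-- The ideal with underlying subspace `Y`. -/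
private def finishMk (Y : Submodule k F) (h : ∀ y ∈ Y, ∀ z : F, ⁅y, z⁆ ∈ Y) : LieIdeal k F :=
  { Y with
    lie_mem := by
      intro z m hm
      rw [← lie_skew]
      exact Y.neg_mem (h m hm z) }

end

theorem finish (h1 : RfdProp.{u}) (h2 : AnnRelProp.{u}) (h3 : SepFdProp.{u})
    (h4 : ClosedQProp.{u}) : FinishProp.{u} := by
  intro k _ _ F _ _ n x d N P' G K T ν ζ hG hP' hDer hzG hzPF hTPF hT1 hT2 hT3 hT4 hno hX hζ
  by_cases hc : ζ ∈ K ⊔ G
  swap
  · refine ⟨K ⊔ G, le_sup_left, hG.mono ?_ le_rfl, hc⟩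
    exact (le_sup_right : G ≤ K ⊔ G)
  obtain ⟨κ, hκ, g, hg, rfl⟩ := (LieSubmodule.mem_sup _ _ _).mp hc
  have hgK : g ∉ K := fun h => hζ (add_mem hκ h)
  suffices h : ∃ I : LieIdeal k F, K ≤ I ∧ FC I.toSubmodule ⊤ ∧ g ∉ I by
    obtain ⟨I, hKI, hI, hgI⟩ := h
    refine ⟨I, hKI, hI, fun h => hgI ?_⟩
    have := sub_mem h (hKI hκ)
    rwa [add_sub_cancel_left] at this
  -- an ideal of finite codimension of `G` is enough
  have hfin : ∀ D : Submodule k F, FC D G.toSubmodule → (∀ w ∈ D, ∀ z : F, ⁅w, z⁆ ∈ D) →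
      (∀ d' ∈ D, g - d' ∈ K → False) → ∃ I : LieIdeal k F, K ≤ I ∧ FC I.toSubmodule ⊤ ∧ g ∉ I := by
    intro D hD hDi hDg
    refine ⟨K ⊔ finishMk D hDi, le_sup_left, ?_, ?_⟩
    · refine (hD.trans hG).mono ?_ le_rfl
      exact (le_sup_right : finishMk D hDi ≤ K ⊔ finishMk D hDi)
    · intro h
      obtain ⟨κ', hκ', d', hd', hsum⟩ := (LieSubmodule.mem_sup _ _ _).mp h
      refine hDg d' hd' ?_
      rw [← hsum, add_sub_cancel_right]
      exact hκ'
  let B : LieIdeal k F := ⁅K, G⁆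
  have hBK : B ≤ K := LieSubmodule.lie_le_left _ _
  have hBG : B ≤ G := LieSubmodule.lie_le_right _ _
  have hTB : ∀ μ, ∀ w ∈ B, T μ w ∈ B := by
    intro μ
    have h5 : B.toSubmodule ≤ B.toSubmodule.comap (T μ) := by
      apply br_le
      intro a ha b hb
      show T μ ⁅a, b⁆ ∈ B
      rw [← lie_skew, map_neg, hT2 μ b hb a, lie_skew]
      exact LieSubmodule.lie_mem_lie ha (hT1 μ b hb)
    exact fun w hw => h5 hw
  let D : LieIdeal k F :=
    { carrier := {w | w ∈ G ∧ ∀ h ∈ G, ⁅w, h⁆ ∈ B}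
      add_mem' := by
        rintro a b ⟨ha, ha'⟩ ⟨hb, hb'⟩
        refine ⟨add_mem ha hb, fun h hh => ?_⟩
        rw [add_lie]
        exact add_mem (ha' h hh) (hb' h hh)
      zero_mem' := ⟨zero_mem _, fun h _ => by rw [zero_lie]; exact zero_mem _⟩
      smul_mem' := by
        rintro t a ⟨ha, ha'⟩
        refine ⟨SMulMemClass.smul_mem t ha, fun h hh => ?_⟩
        rw [smul_lie]
        exact SMulMemClass.smul_mem t (ha' h hh)
      lie_mem := by
        rintro z a ⟨ha, ha'⟩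
        refine ⟨G.lie_mem ha, fun h hh => ?_⟩
        rw [← lie_skew z a, neg_lie, lie_lie_swap a z h]
        refine neg_mem (add_mem (lie_mem_right (ha' h hh) z) (ha' _ (G.lie_mem hh))) }
  have hD : ∀ w, w ∈ D ↔ w ∈ G ∧ ∀ h ∈ G, ⁅w, h⁆ ∈ B := fun w => Iff.rfl
  have hDG : D ≤ G := fun w hw => ((hD w).mp hw).1
  have hTD : ∀ μ, ∀ w ∈ D, T μ w ∈ D := by
    intro μ w hw
    obtain ⟨hw1, hw2⟩ := (hD w).mp hw
    rw [hD]
    refine ⟨hT1 μ w hw1, fun h hh => ?_⟩
    rw [← hT2 μ w hw1 h]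
    exact hTB μ _ (hw2 h hh)
  have hKG : K ⊓ G ≤ D := by
    intro w hw
    rw [hD]
    exact ⟨hw.2, fun h hh => LieSubmodule.lie_mem_lie hw.1 hh⟩
  have hBKG : B ≤ K ⊓ G := le_inf hBK hBG
  let φ : Fin n → Module.End k F := fun i => T (ν i)
  have hφG : Stab φ G.toSubmodule := fun i w hw => hT1 (ν i) w hw
  have hφD : Stab φ D.toSubmodule := fun i w hw => hTD (ν i) w hw
  have hcomm : ∀ Y : Submodule k F, CommMod φ Y G.toSubmodule := by
    intro Y i j w hw
    have h5 : φ i (φ j w) - φ j (φ i w) = 0 := by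
      show T (ν i) (T (ν j) w) - T (ν j) (T (ν i) w) = 0
      rw [hT3 (ν i) (ν j) w hw, sub_self]
    rw [h5]
    exact Y.zero_mem
  obtain ⟨SG, hSG⟩ := hno G.toSubmodule hφG le_rfl
  have hgenG : ∀ Y : Submodule k F, Y ≤ G.toSubmodule →
      ∃ S : Finset F, gen φ (S : Set F) ⊔ Y = G.toSubmodule := by
    intro Y hY
    refine ⟨SG, ?_⟩
    have h5 : gen φ (SG : Set F) = G.toSubmodule := hSG
    rw [h5]
    exact sup_eq_left.mpr hY
  have hideal : ∀ (Y C : Submodule k F), Stab φ Y → (∀ w ∈ Y, ∀ z : F, ⁅w, z⁆ ∈ Y) →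
      Stab φ C → Y ≤ C → C ≤ G.toSubmodule → FC C G.toSubmodule →
      ∃ D' : Submodule k F, Y ≤ D' ∧ D' ≤ C ∧ FC D' G.toSubmodule ∧
        ∀ w ∈ D', ∀ z : F, ⁅w, z⁆ ∈ D' := by
    intro Y C hY hYi hC hYC hCG hCfc
    obtain ⟨D', hD1, hD2, hD3, hD4⟩ := h2 k F (Fin n) φ Y G.toSubmodule C hY hφG (hcomm Y)
      (hgenG Y (hYC.trans hCG)) hC hYC hCG hCfc
    refine ⟨D', hD1, hD2, hD3, fun w hw z => ?_⟩
    refine hD4 (adr k z) (fun w hw => ?_) (fun w hw => hYi w hw z) (fun i w hw => ?_) w hw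
    · exact lie_mem_right (I := G) hw z
    · exact (hT2 (ν i) w hw z).symm
  by_cases hgD : g ∈ D
  swap
  · obtain ⟨C, hC1, hC2, hC3, hC4, hC5⟩ := h1 k F (Fin n) φ ⊥ G.toSubmodule D.toSubmodule g
      (stab_bot φ) (hcomm ⊥) (hgenG ⊥ bot_le) hφD bot_le hDG hg hgD
    obtain ⟨D', hD1, hD2, hD3, hD4⟩ := hideal D.toSubmodule C hφD
      (fun w hw z => lie_mem_right (I := D) hw z) hC1 hC2 hC3 hC5
    refine hfin D' hD3 hD4 ?_
    intro d' hd' hK
    apply hC4
    apply hD2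
    have h5 : g - d' ∈ G.toSubmodule :=
      G.toSubmodule.sub_mem hg ((hD2.trans hC3) hd')
    have h6 : g - d' ∈ D' := hD1 (hKG ⟨hK, h5⟩)
    have h7 := D'.add_mem h6 hd'
    rwa [sub_add_cancel] at h7
  · -- the main case
    have hzT : ∀ (y w : F) (e : ℕ) (μ : k), w ∈ G → T μ (pw k y e w) = pw k y e (T μ w) := by
      intro y w e μ hw
      induction e with
      | zero => simp
      | succ e ih => rw [pw_succ, pw_succ, hT2 μ _ (pw_mem hw y e) y, ih]
    have hzz : ∀ (μ : k) (y w : F) (e : ℕ), w ∈ D →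
        pw k (mom k x μ) P' (pw k y e w) - pw k y e (pw k (mom k x μ) P' w) ∈ B := by
      intro μ y w e hw
      induction e with
      | zero => simp
      | succ e ih =>
        have h5 : pw k (mom k x μ) P' (pw k y (e + 1) w) -
            pw k y (e + 1) (pw k (mom k x μ) P' w) =
            ⁅pw k (mom k x μ) P' (pw k y e w) - pw k y e (pw k (mom k x μ) P' w), y⁆ +
            ⁅pw k y e w, pw k (mom k x μ) P' y⁆ := by
          rw [pw_succ, pw_succ, hDer, sub_lie]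
          abel
        rw [h5]
        refine add_mem (lie_mem_right ih y) ?_
        exact ((hD _).mp (pw_mem hw y e)).2 _ (hzG μ y)
    have hrel : ∀ (μ : k) (j : ℕ), ∀ w ∈ G, (T μ ^ j) w ∈ G ∧
        pw k (mom k x μ) P' ((T μ ^ j) w) = pw k (mom k x μ) (P' + j * N) w := by
      intro μ j
      induction j with
      | zero => intro w hw; simpa using hw
      | succ j ih =>
        intro w hw
        obtain ⟨h5, h6⟩ := ih w hw
        rw [pow_succ', Module.End.mul_apply]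
        refine ⟨hT1 μ _ h5, ?_⟩
        rw [hT4 μ _ h5, pw_add', h6, ← pw_add']
        congr 2
        ring
    have hrel2 : ∀ (μ : k), ∀ w ∈ D, pw k (mom k x μ) P' ((T μ ^ P') w) -
        ((pw k (mom k x μ) P') ^ (1 + N)) w ∈ B := by
      intro μ w hw
      rw [(hrel μ P' w (hDG hw)).2, ← pw_mul, show P' * (1 + N) = P' + P' * N by ring, sub_self]
      exact zero_mem _
    obtain ⟨SD, hSD⟩ := hno D.toSubmodule hφD hDG
    obtain ⟨D₁, hD1, hD2, hD3, hD4, hD5⟩ := h4 k F n (P' * n + d) P' N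
      (fun μ => pw k (mom k x μ) P') T ν B.toSubmodule D.toSubmodule (K ⊓ G : LieIdeal k F).toSubmodule g
      hP' hBKG hKG (fun μ w hw => pw_mem (I := B) hw _ _) (fun μ w hw => hTB μ w hw)
      (fun μ w hw => pw_mem (I := D) hw _ _) (fun μ w hw => hTD μ w hw)
      (fun w => finish_pf (hzPF w) (Nat.le_add_right _ _))
      (fun w => finish_pf (hTPF w) (Nat.le_add_left _ _))
      (fun μ μ' w hw => hzz μ _ w P' hw)
      (fun μ μ' w hw => by
        rw [hT3 μ μ' w (hDG hw), sub_self]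
        exact Submodule.zero_mem _)
      (fun μ μ' w hw => by
        rw [hzT _ w P' μ' (hDG hw), sub_self]
        exact Submodule.zero_mem _)
      hrel2 ⟨SD, by
        have h5 : gen (fun i => T (ν i)) (SD : Set F) = D.toSubmodule := hSD
        rw [h5]
        exact sup_eq_left.mpr (hBKG.trans hKG)⟩
      (fun i w hw => pw_mem (I := (K ⊓ G : LieIdeal k F)) hw _ _) hX hgD (fun h => hgK h.1)
    obtain ⟨C, hC1, hC2, hC3, hC4, hC5⟩ := h3 k F (Fin n) φ ⊥ G.toSubmodule D₁ D.toSubmodule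
      (stab_bot φ) (hcomm ⊥) (hgenG ⊥ bot_le) hD3 bot_le hD2 hDG hD4
    obtain ⟨D', _, hD'2, hD'3, hD'4⟩ := hideal ⊥ C (stab_bot φ)
      (fun w hw z => by
        rw [(Submodule.mem_bot k).mp hw, zero_lie]
        exact Submodule.zero_mem _) hC1 bot_le hC3 hC4
    refine hfin D' hD'3 hD'4 ?_
    intro d' hd' hK
    apply hD5
    have h5 : d' ∈ C := hD'2 hd'
    have h6 : g - d' ∈ (K ⊓ G : LieIdeal k F) :=
      ⟨hK, G.toSubmodule.sub_mem hg (hC3 h5)⟩
    have h7 : d' ∈ D.toSubmodule := by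
      have h8 := D.toSubmodule.sub_mem hgD (hKG h6)
      rwa [sub_sub_cancel] at h8
    have h8 : d' ∈ D₁ := hC5 ⟨h5, h7⟩
    exact Submodule.mem_sup.mpr ⟨g - d', h6, d', h8, by abel⟩

end Pool.Agent.Lib.MP_240c17_al.Tor
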