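import Pool.Agent.Lib.MP_240c17_al.Tor.Spec

/-!
Powers `p ^ t` of `z ↦ ⁅z, y⁆` are derivations in characteristic `p`.
-/

set_option autoImplicit false

namespace Pool.Agent.Lib.MP_240c17_al.Tor

universe u

open Pool.Agent.Lib.MP_240c17_al.Two

private theorem Frob_nsmul (k : Type u) [Field k] (p : ℕ) [CharP k p] {L : Type u}
    [LieRing L] [LieAlgebra k L] {n : ℕ} (h : p ∣ n) (a : L) : n • a = 0 := by
  rw [← Nat.cast_smul_eq_nsmul k, (CharP.cast_eq_zero_iff k p n).2 h, zero_smul]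

theorem frob : FrobProp.{u} := by
  intro k _ p hp _ L _ _ t y a b
  have hp' : p.Prime := hp.out
  rw [pw_lie, Finset.sum_range_succ]
  have hpos : 0 < p ^ t := pow_pos hp'.pos t
  obtain ⟨N, hN⟩ := Nat.exists_eq_succ_of_ne_zero hpos.ne'
  have h0 : ∑ i ∈ Finset.range (p ^ t), (p ^ t).choose i • ⁅pw k y i a, pw k y (p ^ t - i) b⁆ =
      ⁅a, pw k y (p ^ t) b⁆ := by
    rw [Finset.sum_eq_single 0]
    · simp
    · intro i hi hi0
      rw [Finset.mem_range] at hi
      exact Frob_nsmul k p (hp'.dvd_choose_pow hi0 hi.ne) _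
    · intro h
      exact absurd (Finset.mem_range.2 hpos) h
  rw [h0]
  simp only [Nat.choose_self, one_smul, Nat.sub_self, pw_zero]
  abel

end Pool.Agent.Lib.MP_240c17_al.Tor
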