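import Pool.Agent.Lib.MP_240c17_al.Tor.Spec

/-!
(T25) Products of `c + 1` commutators and the lower central series of the derived algebra.
-/

set_option autoImplicit false

namespace Pool.Agent.Lib.MP_240c17_al.Tor

universe u

open Pool.Agent.Lib.MP_240c17_al.Two

private theorem gamWords_congr {L : Type u} [LieRing L] (i : ℕ) (a b a' b' : ℕ → L)
    (ha : ∀ j ≤ i, a j = a' j) (hb : ∀ j ≤ i, b j = b' j) :
    (List.range i).foldl (fun w j => ⁅w, ⁅a (j + 1), b (j + 1)⁆⁆) ⁅a 0, b 0⁆ =
    (List.range i).foldl (fun w j => ⁅w, ⁅a' (j + 1), b' (j + 1)⁆⁆) ⁅a' 0, b' 0⁆ := by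
  induction i with
  | zero =>
    show ⁅a 0, b 0⁆ = ⁅a' 0, b' 0⁆
    rw [ha 0 le_rfl, hb 0 le_rfl]
  | succ i ih =>
    rw [List.range_succ, List.foldl_append, List.foldl_append,
      ih (fun j hj => ha j (by omega)) (fun j hj => hb j (by omega))]
    show ⁅_, ⁅a (i + 1), b (i + 1)⁆⁆ = ⁅_, ⁅a' (i + 1), b' (i + 1)⁆⁆
    rw [ha (i + 1) le_rfl, hb (i + 1) le_rfl]

theorem gamWords : GamWordsProp.{u} := by
  intro k _ L _ _ c h
  have key : ∀ i, (gam k L (i + 1)).toSubmodule ≤ Submodule.span k {w : L | ∃ a b : ℕ → L,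
      w = (List.range i).foldl (fun w j => ⁅w, ⁅a (j + 1), b (j + 1)⁆⁆) ⁅a 0, b 0⁆} := by
    intro i
    induction i with
    | zero =>
      refine D1_le ?_
      intro a b
      exact Submodule.subset_span ⟨fun _ => a, fun _ => b, rfl⟩
    | succ i ih =>
      obtain ⟨Y, hY⟩ : ∃ Y : Submodule k L, Y = Submodule.span k {w : L | ∃ a b : ℕ → L,
          w = (List.range (i + 1)).foldl (fun w j => ⁅w, ⁅a (j + 1), b (j + 1)⁆⁆) ⁅a 0, b 0⁆} :=
        ⟨_, rfl⟩
      rw [← hY]
      refine gam_succ_le (by omega) ?_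
      intro v hv d hd
      have h1 : (D1 k L).toSubmodule ≤ Y.comap (LieAlgebra.ad k L v : L →ₗ[k] L) := by
        refine D1_le ?_
        intro e f
        show ⁅v, ⁅e, f⁆⁆ ∈ Y
        have h2 : Submodule.span k {w : L | ∃ a b : ℕ → L,
            w = (List.range i).foldl (fun w j => ⁅w, ⁅a (j + 1), b (j + 1)⁆⁆) ⁅a 0, b 0⁆} ≤
            Y.comap (adr k ⁅e, f⁆) := by
          rw [Submodule.span_le]
          rintro _ ⟨a, b, rfl⟩
          show ⁅(List.range i).foldl (fun w j => ⁅w, ⁅a (j + 1), b (j + 1)⁆⁆) ⁅a 0, b 0⁆,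
            ⁅e, f⁆⁆ ∈ Y
          rw [hY]
          refine Submodule.subset_span ⟨fun j => if j = i + 1 then e else a j,
            fun j => if j = i + 1 then f else b j, ?_⟩
          rw [List.range_succ, List.foldl_append]
          have h3 := gamWords_congr i a b (fun j => if j = i + 1 then e else a j)
            (fun j => if j = i + 1 then f else b j)
            (fun j hj => by rw [if_neg (by omega)])
            (fun j hj => by rw [if_neg (by omega)])
          rw [h3]
          simp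
        exact h2 (ih hv)
      exact h1 hd
  rw [eq_bot_iff]
  have h1 : (gam k L (c + 1)).toSubmodule ≤ ⊥ := by
    refine (key c).trans ?_
    rw [Submodule.span_le]
    rintro _ ⟨a, b, rfl⟩
    exact (Submodule.mem_bot k).mpr (h a b)
  intro w hw
  exact (LieSubmodule.mem_bot _).mpr ((Submodule.mem_bot k).mp (h1 hw))

end Pool.Agent.Lib.MP_240c17_al.Tor
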