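import Pool.Agent.Lib.MP_240c17_al.Tor.Spec

/-!
(T16) The layers of the lower central series of the derived algebra are finitely generated over the
operators `T`.
-/

set_option autoImplicit false

namespace Pool.Agent.Lib.MP_240c17_al.Tor

universe u

open Pool.Agent.Lib.MP_240c17_al.Two

section

variable {k : Type u} [Field k] {F : Type u} [LieRing F] [LieAlgebra k F]

private theorem layerGen_perm {i : ℕ} (hi : 1 ≤ i) {l l' : List F} (h : l.Perm l') :
    ∀ a ∈ gam k F i, wd a l - wd a l' ∈ gam k F (i + 1) := by
  induction h with
  | nil => intro a _; simp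
  | cons z _ ih => intro a ha; exact ih _ (lie_mem_right ha z)
  | swap z w l =>
    intro a ha
    rw [wd_cons, wd_cons, wd_cons, wd_cons, ← wd_sub]
    exact wd_mem (lie_comm_mod hi ha w z) l
  | trans _ _ ih1 ih2 =>
    intro a ha
    have h := add_mem (ih1 a ha) (ih2 a ha)
    rwa [sub_add_sub_cancel] at h

private theorem layerGen_wd_gam {i : ℕ} (hi : 1 ≤ i) {a : F} (ha : a ∈ gam k F i) (l : List F)
    (hl : ∀ z ∈ l, z ∈ D1 k F) : wd a l ∈ gam k F (i + l.length) := by
  induction l generalizing i a with
  | nil => simpa using ha
  | cons z l ih =>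
    have h := ih (i := i + 1) (by omega) (lie_mem_gam hi ha (hl z List.mem_cons_self))
      (fun w hw => hl w (List.mem_cons_of_mem _ hw))
    rw [wd_cons, List.length_cons, show i + (l.length + 1) = i + 1 + l.length by ring]
    exact h

private theorem layerGen_front {δ : Type} (val : δ → F) (a : δ) (zs : List δ) : ∀ b : F,
    ⁅b, wd (val a) (zs.map val)⁆ ∈ Submodule.span k
      {w : F | ∃ l : List δ, l.Perm (a :: zs) ∧ w = wd b (l.map val)} := by
  induction zs using List.reverseRecOn with
  | nil =>
    intro b
    exact Submodule.subset_span ⟨[a], List.Perm.refl _, rfl⟩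
  | append_singleton zs z ih =>
    intro b
    rw [List.map_append, List.map_singleton, wd_concat, lie_lie_right]
    refine Submodule.sub_mem _ ?_ ?_
    · have h1 : Submodule.span k {w : F | ∃ l : List δ, l.Perm (a :: zs) ∧ w = wd b (l.map val)} ≤
          (Submodule.span k {w : F | ∃ l : List δ, l.Perm (a :: (zs ++ [z])) ∧
            w = wd b (l.map val)}).comap (adr k (val z)) := by
        rw [Submodule.span_le]
        rintro _ ⟨l, hl, rfl⟩
        refine Submodule.subset_span ⟨l ++ [z], ?_, ?_⟩
        · exact hl.append_right [z]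
        · rw [List.map_append, List.map_singleton, wd_concat]
          rfl
      exact h1 (ih b)
    · refine Submodule.span_mono ?_ (ih ⁅b, val z⁆)
      rintro _ ⟨l, hl, rfl⟩
      refine ⟨z :: l, ?_, rfl⟩
      refine (hl.cons z).trans ?_
      exact (List.perm_append_singleton z (a :: zs)).symm

/-- Moving a factor to the front. -/
private theorem layerGen_move {δ : Type} (val : δ → F) (a d : δ) (f g : List δ) :
    wd (val a) ((f ++ d :: g).map val) ∈ Submodule.span k
      {w : F | ∃ l : List δ, (d :: l).Perm (a :: (f ++ d :: g)) ∧ w = wd (val d) (l.map val)} := by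
  rw [List.map_append, List.map_cons, wd_append, wd_cons, ← lie_skew, wd_neg]
  refine Submodule.neg_mem _ ?_
  have h1 : Submodule.span k {w : F | ∃ l : List δ, l.Perm (a :: f) ∧ w = wd (val d) (l.map val)} ≤
      (Submodule.span k {w : F | ∃ l : List δ, (d :: l).Perm (a :: (f ++ d :: g)) ∧
        w = wd (val d) (l.map val)}).comap (wdL k (g.map val)) := by
    rw [Submodule.span_le]
    rintro _ ⟨l, hl, rfl⟩
    refine Submodule.subset_span ⟨l ++ g, ?_, ?_⟩
    · have h2 : (d :: (l ++ g)).Perm (d :: ((a :: f) ++ g)) := (hl.append_right g).cons d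
      refine h2.trans ?_
      have h3 : ((a :: f) ++ d :: g).Perm (d :: ((a :: f) ++ g)) := List.perm_middle
      exact h3.symm
    · rw [List.map_append, wd_append]
      rfl
  exact h1 (layerGen_front val a f (val d))

/-- The factors. -/
private def lgVal {n : ℕ} (y : Fin n → F) (d : Fin n × Fin n × List (Fin n)) : F :=
  wd ⁅y d.1, y d.2.1⁆ (d.2.2.map y)

/-- The words. -/
private def lgW {n : ℕ} (y : Fin n → F) (d : Fin n × Fin n × List (Fin n))
    (D : List (Fin n × Fin n × List (Fin n))) : F :=
  wd (lgVal y d) (D.map (lgVal y))

private theorem lgVal_mem {n : ℕ} (y : Fin n → F) (d : Fin n × Fin n × List (Fin n)) :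
    lgVal y d ∈ D1 k F := wd_mem (lie_mem_D1 _ _) _

private theorem layerGen_span {n : ℕ} {y : Fin n → F}
    (hy : LieSubalgebra.lieSpan k F (Set.range y) = ⊤) {i : ℕ} (hi : 1 ≤ i) :
    (gam k F i).toSubmodule ≤ Submodule.span k
      {w : F | ∃ (d : Fin n × Fin n × List (Fin n)) (D : List (Fin n × Fin n × List (Fin n))),
        D.length + 1 = i ∧ w = lgW y d D} := by
  induction i, hi using Nat.le_induction with
  | base =>
    show (D1 k F).toSubmodule ≤ _
    rw [D1_words hy]
    refine Submodule.span_mono ?_
    rintro _ ⟨i, j, ls, rfl⟩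
    exact ⟨(i, j, ls), [], rfl, rfl⟩
  | succ i hi ih =>
    refine gam_succ_le hi ?_
    intro a ha b hb
    have h1 : (D1 k F).toSubmodule ≤ (Submodule.span k
      {w : F | ∃ (d : Fin n × Fin n × List (Fin n)) (D : List (Fin n × Fin n × List (Fin n))),
        D.length + 1 = i + 1 ∧ w = lgW y d D}).comap (LieAlgebra.ad k F a : F →ₗ[k] F) := by
      rw [D1_words hy, Submodule.span_le]
      rintro _ ⟨i', j', ls', rfl⟩
      show ⁅a, wd ⁅y i', y j'⁆ (ls'.map y)⁆ ∈ Submodule.span k _
      have h2 : Submodule.span k
          {w : F | ∃ (d : Fin n × Fin n × List (Fin n)) (D : List (Fin n × Fin n × List (Fin n))),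
            D.length + 1 = i ∧ w = lgW y d D} ≤ (Submodule.span k
          {w : F | ∃ (d : Fin n × Fin n × List (Fin n)) (D : List (Fin n × Fin n × List (Fin n))),
            D.length + 1 = i + 1 ∧ w = lgW y d D}).comap
            (adr k (wd ⁅y i', y j'⁆ (ls'.map y))) := by
        rw [Submodule.span_le]
        rintro _ ⟨d, D, hD, rfl⟩
        refine Submodule.subset_span ⟨d, D ++ [(i', j', ls')], ?_, ?_⟩
        · simp only [List.length_append, List.length_singleton]
          omega
        · unfold lgW
          rw [List.map_append, List.map_singleton, wd_concat]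
          rfl
      exact h2 (ih ha)
    exact h1 hb

private theorem lgW_mem {n : ℕ} (y : Fin n → F) (d : Fin n × Fin n × List (Fin n))
    (D : List (Fin n × Fin n × List (Fin n))) : lgW y d D ∈ gam k F (D.length + 1) := by
  have h := layerGen_wd_gam (k := k) (i := 1) le_rfl (a := lgVal y d) (lgVal_mem y d)
    (D.map (lgVal y)) (by
      intro z hz
      obtain ⟨d', _, rfl⟩ := List.mem_map.mp hz
      exact lgVal_mem y d')
  rw [List.length_map, add_comm] at h
  exact h

/-- The weight of a word. -/
private def lgWt {n : ℕ} (D : List (Fin n × Fin n × List (Fin n))) : ℕ :=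
  (D.map fun d => d.2.2.length).sum

private theorem lgWt_perm {n : ℕ} {D D' : List (Fin n × Fin n × List (Fin n))} (h : D.Perm D') :
    lgWt D = lgWt D' := (h.map _).sum_eq

/-- Pigeonhole. -/
private theorem layerGen_count {n B : ℕ} (ls : List (Fin n)) (h : n * B < ls.length) :
    ∃ j : Fin n, B ≤ ls.count j := by
  by_contra hcon
  simp only [not_exists, not_le] at hcon
  have h1 : ls.length = ∑ j : Fin n, ls.count j := by
    have := Multiset.sum_count_eq_card (s := Finset.univ) (m := (ls : Multiset (Fin n)))
      (fun a _ => Finset.mem_univ a)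
    simpa using this.symm
  have h2 : ∑ j : Fin n, ls.count j ≤ ∑ _j : Fin n, B := Finset.sum_le_sum fun j _ => (hcon j).le
  simp only [Finset.sum_const, Finset.card_univ, Fintype.card_fin, smul_eq_mul] at h2
  omega

private theorem layerGen_replicate (a y : F) (e : ℕ) :
    wd a (List.replicate e y) = pw k y e a := by
  induction e generalizing a with
  | zero => simp
  | succ e ih => rw [List.replicate_succ, wd_cons, ih, pw_succ']

private theorem layerGen_split {n B : ℕ} {ls : List (Fin n)} {j : Fin n} (h : B ≤ ls.count j) :
    ∃ ls' : List (Fin n), ls.Perm (ls' ++ List.replicate B j) := by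
  have h1 : (List.replicate B j).Subperm ls := by
    rw [List.subperm_ext_iff]
    intro x hx
    rw [List.mem_replicate] at hx
    obtain ⟨_, rfl⟩ := hx
    rw [List.count_replicate_self]
    exact h
  obtain ⟨l0, h0, hsub⟩ := h1
  obtain ⟨ls', hls'⟩ := hsub.exists_perm_append
  exact ⟨ls', (hls'.trans (h0.append_right ls')).trans List.perm_append_comm⟩

end

theorem layerGen : LayerGenProp.{u} := by
  classical
  intro k _ F _ _ n y P₀ N T hy hN hT hpres i hi
  -- the small words
  let Sm : Set (Fin n × Fin n × List (Fin n)) := {d | d.2.2.length ≤ n * (P₀ + N)}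
  have hSm : Sm.Finite := by
    have h1 : {l : List (Fin n) | l.length ≤ n * (P₀ + N)}.Finite := List.finite_length_le _ _
    have h2 := (Set.finite_univ (α := Fin n)).prod ((Set.finite_univ (α := Fin n)).prod h1)
    refine h2.subset ?_
    rintro ⟨a, b, ls⟩ h
    exact ⟨Set.mem_univ _, Set.mem_univ _, h⟩
  have hfin : {w : F | ∃ (d : Fin n × Fin n × List (Fin n))
      (D : List (Fin n × Fin n × List (Fin n))),
      D.length + 1 = i ∧ (∀ d' ∈ d :: D, d' ∈ Sm) ∧ w = lgW y d D}.Finite := by
    have : Finite Sm := hSm
    have h1 : {l : List Sm | l.length ≤ i}.Finite := List.finite_length_le _ _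
    have h2 := h1.image (fun l : List Sm => match l.map Subtype.val with
      | [] => (0 : F)
      | d :: D => lgW y d D)
    refine h2.subset ?_
    rintro _ ⟨d, D, hD, hm, rfl⟩
    have h3 : ∃ l : List Sm, l.map Subtype.val = d :: D := by
      refine ⟨(d :: D).attach.map fun x => ⟨x.1, hm x.1 x.2⟩, ?_⟩
      rw [List.map_map]
      exact List.attach_map_subtype_val _
    obtain ⟨l, hl⟩ := h3
    refine ⟨l, ?_, ?_⟩
    · have h4 := congrArg List.length hl
      rw [List.length_map, List.length_cons] at h4
      show l.length ≤ i
      omega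
    · show (match l.map Subtype.val with
        | [] => (0 : F)
        | d :: D => lgW y d D) = lgW y d D
      rw [hl]
  refine ⟨hfin.toFinset, ?_⟩
  rw [Set.Finite.coe_toFinset]
  apply le_antisymm
  · refine sup_le ?_ (gam_le i)
    refine gen_le (fun j a ha => hpres j i a ha) ?_
    rintro _ ⟨d, D, hD, _, rfl⟩
    rw [← hD]
    exact lgW_mem y d D
  · refine (layerGen_span hy hi).trans ?_
    rw [Submodule.span_le]
    rintro _ ⟨d, D, hD, rfl⟩
    obtain ⟨U, hU⟩ : ∃ U : Submodule k F, U = gen T {w : F | ∃ (d : Fin n × Fin n × List (Fin n))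
      (D : List (Fin n × Fin n × List (Fin n))),
      D.length + 1 = i ∧ (∀ d' ∈ d :: D, d' ∈ Sm) ∧ w = lgW y d D} ⊔
        (gam k F (i + 1)).toSubmodule := ⟨_, rfl⟩
    rw [← hU]
    have hUT : Stab T U := by
      rw [hU]
      exact (gen_stab _ _).sup (fun j a ha => hpres j (i + 1) a ha)
    have hUg : (gam k F (i + 1)).toSubmodule ≤ U := by rw [hU]; exact le_sup_right
    have hUS : ∀ (d : Fin n × Fin n × List (Fin n)) (D : List (Fin n × Fin n × List (Fin n))),
      D.length + 1 = i → (∀ d' ∈ d :: D, d' ∈ Sm) → lgW y d D ∈ U := by
      intro d D h1 h2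
      rw [hU]
      exact (le_sup_left : gen T _ ≤ _) (subset_gen _ _ ⟨d, D, h1, h2, rfl⟩)
    have key : ∀ (w : ℕ) (d : Fin n × Fin n × List (Fin n))
        (D : List (Fin n × Fin n × List (Fin n))), lgWt (d :: D) = w → D.length + 1 = i →
        lgW y d D ∈ U := by
      intro w
      induction w using Nat.strong_induction_on with
      | _ w ih =>
        intro d D hw hD
        -- first the case when the first factor is large
        have hbig : ∀ (d : Fin n × Fin n × List (Fin n))
            (D : List (Fin n × Fin n × List (Fin n))), lgWt (d :: D) = w → D.length + 1 = i →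
            d ∉ Sm → lgW y d D ∈ U := by
          rintro ⟨p, q, ls⟩ D hw hD hd
          have hd' : n * (P₀ + N) < ls.length := not_le.mp hd
          obtain ⟨j, hj⟩ := layerGen_count ls hd'
          obtain ⟨ls', hls'⟩ := layerGen_split hj
          obtain ⟨v, hv⟩ : ∃ v, v = lgVal y (p, q, ls') := ⟨_, rfl⟩
          have h1 : lgVal y (p, q, ls) - pw k (y j) (P₀ + N) v ∈ gam k F 2 := by
            have h2 := layerGen_perm (k := k) (i := 1) le_rfl (hls'.map y) ⁅y p, y q⁆
              (lie_mem_D1 _ _)
            rw [List.map_append, List.map_replicate, wd_append, layerGen_replicate (k := k)] at h2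
            rw [hv]
            exact h2
          have h3 : lgW y (p, q, ls) D - wd (pw k (y j) (P₀ + N) v) (D.map (lgVal y)) ∈
              gam k F (i + 1) := by
            unfold lgW
            rw [← wd_sub]
            have h4 := layerGen_wd_gam (k := k) (i := 2) (by omega) h1 (D.map (lgVal y)) (by
              intro z hz
              obtain ⟨d', _, rfl⟩ := List.mem_map.mp hz
              exact lgVal_mem y d')
            rw [List.length_map] at h4
            rwa [show i + 1 = 2 + D.length by omega]
          have h5 : wd (pw k (y j) P₀ v) (D.map (lgVal y)) ∈ U := by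
            have h6 : wd (pw k (y j) P₀ v) (D.map (lgVal y)) =
                lgW y (p, q, ls' ++ List.replicate P₀ j) D := by
              unfold lgW
              congr 1
              rw [hv]
              unfold lgVal
              rw [List.map_append, List.map_replicate, wd_append, layerGen_replicate (k := k)]
            rw [h6]
            refine ih _ ?_ _ _ rfl hD
            rw [← hw]
            have h7 := hls'.length_eq
            rw [List.length_append, List.length_replicate] at h7
            unfold lgWt
            simp only [List.map_cons, List.sum_cons, List.length_append, List.length_replicate]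
            omega
          have h8 : wd (pw k (y j) (P₀ + N) v) (D.map (lgVal y)) ∈ U := by
            rw [← hT]
            exact hUT j _ h5
          have h9 := U.add_mem (hUg h3) h8
          rwa [sub_add_cancel] at h9
        by_cases hsm : ∀ d' ∈ d :: D, d' ∈ Sm
        · exact hUS d D hD hsm
        · simp only [not_forall, exists_prop] at hsm
          obtain ⟨d', hd', hd'S⟩ := hsm
          rcases List.mem_cons.mp hd' with rfl | hd'D
          · exact hbig _ D hw hD hd'S
          · obtain ⟨f, g, rfl⟩ := List.append_of_mem hd'D
            have h1 := layerGen_move (k := k) (lgVal y) d d' f g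
            have h2 : Submodule.span k {w : F | ∃ l : List (Fin n × Fin n × List (Fin n)),
                (d' :: l).Perm (d :: (f ++ d' :: g)) ∧ w = wd (lgVal y d') (l.map (lgVal y))} ≤
                U := by
              rw [Submodule.span_le]
              rintro _ ⟨l, hl, rfl⟩
              refine hbig d' l ?_ ?_ hd'S
              · rw [← hw]; exact lgWt_perm hl
              · have h3 := hl.length_eq
                simp only [List.length_cons] at h3 hD
                omega
            exact h2 h1
    exact key _ d D rfl hD

end Pool.Agent.Lib.MP_240c17_al.Tor
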