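import Pool.Agent.Lib.MP_240c17_al.Tor.Spec

/-!
Extension of an identity for words in the generators to all words.
-/

set_option autoImplicit false

namespace Pool.Agent.Lib.MP_240c17_al.Tor

universe u

open Pool.Agent.Lib.MP_240c17_al.Two

private theorem LinExt_list {k : Type u} [Field k] {F : Type u} [LieRing F] [LieAlgebra k F]
    {n : ℕ} (x : Fin n → F) (hx : LieSubalgebra.lieSpan k F (Set.range x) = ⊤) (T : Module.End k F)
    (a a' : F) (h : ∀ ls : List (Fin n), T (wd a (ls.map x)) = wd a' (ls.map x)) (ls : List F) :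
    T (wd a ls) = wd a' ls := by
  let H : Submodule k (F × F) := Submodule.span k
    {q : F × F | ∃ ls : List (Fin n), q = (wd a (ls.map x), wd a' (ls.map x))}
  have hT : ∀ q ∈ H, T q.1 = q.2 := by
    have h1 : H ≤ LinearMap.ker ((T ∘ₗ LinearMap.fst k F F) - LinearMap.snd k F F) := by
      rw [Submodule.span_le]
      rintro _ ⟨ls, rfl⟩
      simp [h ls]
    intro q hq
    have h2 := h1 hq
    rw [LinearMap.mem_ker] at h2
    simpa [sub_eq_zero] using h2
  have hgen : ∀ j, ∀ q ∈ H, (⁅q.1, x j⁆, ⁅q.2, x j⁆) ∈ H := by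
    intro j q hq
    have h1 : H ≤ H.comap ((adr k (x j)).prodMap (adr k (x j))) := by
      rw [Submodule.span_le]
      rintro _ ⟨ls, rfl⟩
      refine Submodule.subset_span ⟨ls ++ [j], ?_⟩
      rw [List.map_append, List.map_singleton, wd_concat, wd_concat]
      rfl
    exact h1 hq
  let A : LieSubalgebra k F :=
    { carrier := {z | ∀ q ∈ H, (⁅q.1, z⁆, ⁅q.2, z⁆) ∈ H}
      add_mem' := by
        intro b c hb hc q hq
        have h1 := H.add_mem (hb q hq) (hc q hq)
        simpa [lie_add] using h1
      zero_mem' := by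
        intro q _
        rw [lie_zero, lie_zero]
        exact H.zero_mem
      smul_mem' := by
        intro r b hb q hq
        have h1 := H.smul_mem r (hb q hq)
        simpa [lie_smul] using h1
      lie_mem' := by
        intro b c hb hc q hq
        have h1 := H.sub_mem (hc _ (hb q hq)) (hb _ (hc q hq))
        rw [lie_lie_right, lie_lie_right]
        exact h1 }
  have hA : ∀ z : F, ∀ q ∈ H, (⁅q.1, z⁆, ⁅q.2, z⁆) ∈ H := by
    have h1 : LieSubalgebra.lieSpan k F (Set.range x) ≤ A := by
      rw [LieSubalgebra.lieSpan_le]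
      rintro _ ⟨j, rfl⟩
      exact hgen j
    intro z
    have h2 : z ∈ A := by
      apply h1
      rw [hx]
      exact LieSubalgebra.mem_top z
    exact h2
  have hall : ∀ (ls : List F) (q : F × F), q ∈ H → (wd q.1 ls, wd q.2 ls) ∈ H := by
    intro ls
    induction ls with
    | nil => intro q hq; exact hq
    | cons z ls ih => intro q hq; exact ih _ (hA z q hq)
  exact hT _ (hall ls (a, a') (Submodule.subset_span ⟨[], rfl⟩))

theorem linExt : LinExtProp.{u} := by
  intro k _ F _ _ n x P₀ R v T hx hP hR h
  let A : LieSubalgebra k F :=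
    { carrier := {w | ∀ ls : List F, T (wd (pw k v P₀ w) ls) = wd (pw k v R w) ls}
      add_mem' := by
        intro b c hb hc ls
        rw [map_add, map_add, wd_add, wd_add, map_add, hb ls, hc ls]
      zero_mem' := by
        intro ls
        rw [map_zero, map_zero, wd_zero, map_zero]
      smul_mem' := by
        intro r b hb ls
        rw [map_smul, map_smul, wd_smul, wd_smul, map_smul, hb ls]
      lie_mem' := by
        intro b c hb hc ls
        have e : ∀ e : ℕ, Der k F e → wd (pw k v e ⁅b, c⁆) ls =
            wd (pw k v e b) (c :: ls) - wd (pw k v e c) (b :: ls) := by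
          intro e he
          rw [he v b c, ← lie_skew b (pw k v e c), wd_add, wd_neg, wd_cons, wd_cons,
            ← sub_eq_add_neg]
        rw [e P₀ hP, e R hR, map_sub, hb, hc] }
  have h1 : LieSubalgebra.lieSpan k F (Set.range x) ≤ A := by
    rw [LieSubalgebra.lieSpan_le]
    rintro _ ⟨i, rfl⟩ ls
    exact LinExt_list x hx T _ _ (h i) ls
  intro w
  have h2 : w ∈ A := by
    apply h1
    rw [hx]
    exact LieSubalgebra.mem_top w
  exact h2

end Pool.Agent.Lib.MP_240c17_al.Tor
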