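import Pool.Agent.Lib.MP_240c17_al.Tor.Spec

/-!
Assembly of the main theorem for Lie algebras (T27).
-/

set_option autoImplicit false

namespace Pool.Agent.Lib.MP_240c17_al.Tor

universe u

open Pool.Agent.Lib.MP_240c17_al.Two

section

variable {k : Type u} [Field k] {F : Type u} [LieRing F] [LieAlgebra k F]

theorem main_mid_le (P₀ : ℕ) (hP : 0 < P₀) (y : F) (l : List F) :
    Mid k P₀ (y :: l) ≤ D1 k F := by
  show LieSubmodule.lieSpan k F {w | ∃ m ∈ Mid k P₀ l, w = pw k y P₀ m} ≤ D1 k F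
  rw [LieSubmodule.lieSpan_le]
  rintro _ ⟨m, _, rfl⟩
  exact pw_mem_D1 hP y m

theorem main_GG_le {n L : ℕ} (x : Fin n → F) (P₀ : ℕ) (hP : 0 < P₀) (ν : Fin L → k) (r : ℕ)
    (hr : 0 < r) : GG k x P₀ ν r ≤ D1 k F := by
  unfold GG
  refine iSup_le fun l => iSup_le fun hl => ?_
  rcases l with _ | ⟨i, l⟩
  · simp only [List.length_nil] at hl
    omega
  · exact main_mid_le P₀ hP _ _

theorem main_mom_mem {n : ℕ} (x : Fin n → F) (μ : k) :
    mom k x μ ∈ Submodule.span k (Set.range x) :=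
  Submodule.sum_mem _ fun i _ => Submodule.smul_mem _ _ (Submodule.subset_span ⟨i, rfl⟩)

theorem main_pow (p : ℕ) [hp : Fact p.Prime] (B : ℕ) : ∃ s, B ≤ p ^ s :=
  ⟨B, (Nat.lt_pow_self hp.out.one_lt).le⟩

theorem main_gen {n : ℕ} {x y : Fin n → F} (hx : LieSubalgebra.lieSpan k F (Set.range x) = ⊤)
    (h : ∀ j, x j ∈ Submodule.span k (Set.range y)) :
    LieSubalgebra.lieSpan k F (Set.range y) = ⊤ := by
  rw [eq_top_iff, ← hx, LieSubalgebra.lieSpan_le]
  rintro _ ⟨j, rfl⟩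
  have h1 : Submodule.span k (Set.range y) ≤
      (LieSubalgebra.lieSpan k F (Set.range y)).toSubmodule := by
    rw [Submodule.span_le]
    exact LieSubalgebra.subset_lieSpan
  exact h1 (h j)

end

theorem torMain (hFrob : FrobProp.{u}) (hTors : TorsionProp.{u}) (hStep : BoundStepProp.{u})
    (hUnb : UnboundedProp.{u}) (hW : WeightsProp.{u}) (hSpan : MomSpanProp.{u})
    (hExp : ExpandProp.{u}) (hLin : LinExtProp.{u}) (hFilt : OpFiltProp.{u})
    (hPw : PwPolyProp.{u}) (hPoly : OpPolyProp.{u}) (hStr : StrLinProp.{u}) (hNilp : NilpProp.{u})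
    (hCof : CofProp.{u}) (hLayer : LayerGenProp.{u}) (hNoeth : NoethProp.{u})
    (hKfg : KfgProp.{u}) (hXfg : XfgProp.{u}) (hFin : FinishProp.{u}) : TorMainProp.{u} := by
  intro k _ _ p hp _ F _ _ n x K c m r co ζ hx hlift hgam hr hco hne hI hK hζ
  have hp0 : 0 < p := hp.out.pos
  obtain ⟨B, M, hM, hT⟩ := hTors k p m r co hr hco hne
  have hFL := hT F hI
  obtain ⟨s0, hs0⟩ := main_pow p B
  have h0 : BalW k F 0 (p ^ s0) (p ^ s0 * M) := (hFL s0 _ hs0 (dvd_refl _)).2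
  have hB : ∀ i, ∃ s Q, s0 ≤ s ∧ 0 < Q ∧ BalW k F i (p ^ s) Q := by
    intro i
    induction i with
    | zero => exact ⟨s0, p ^ s0 * M, le_rfl, by positivity, h0⟩
    | succ i ih =>
      obtain ⟨s, Q, h1, h2, h3⟩ := ih
      exact ⟨2 * s + 2, p ^ (s + 2) * Q, by omega, by positivity, hStep k p F i s Q h3⟩
  obtain ⟨s1, Q1, hs1, hQ1, hBal1⟩ := hB c
  have hBs1 : B ≤ p ^ s1 := hs0.trans (Nat.pow_le_pow_right hp0 hs1)
  obtain ⟨Q2, hQ2⟩ : ∃ Q2, Q2 = (p ^ s1 * M) * Q1 := ⟨_, rfl⟩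
  have hQ2pos : 0 < Q2 := by rw [hQ2]; positivity
  have hBal2 : BalW k F c (p ^ s1) Q2 := by
    rw [hQ2]
    exact hBal1.mono le_rfl (p ^ s1 * M)
  have hDer2 : Der k F (p ^ s1 + Q2) := (hFL s1 Q2 hBs1 (by rw [hQ2]; exact Dvd.intro _ rfl)).1
  obtain ⟨E, hE⟩ : ∃ E, E = p ^ s1 * (p ^ (2 * c) + 1) + 1 := ⟨_, rfl⟩
  have hInf : BalInf k F E Q2 := by
    rw [hE]
    exact hUnb k p F c s1 Q2 hgam (fun t => hFrob k p F t) hDer2 hBal2
  have hEpos : 0 < E := by omega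
  obtain ⟨s3, hs3⟩ := main_pow p (max E B)
  obtain ⟨P, hP⟩ : ∃ P, P = p ^ s3 := ⟨_, rfl⟩
  have hEP : E ≤ P := by rw [hP]; exact (le_max_left _ _).trans hs3
  have hPpos : 0 < P := by omega
  obtain ⟨N, hN⟩ : ∃ N, N = Q2 * ((c + 1).factorial * (c + 1).factorial) * (P * M) := ⟨_, rfl⟩
  have hNpos : 0 < N := by
    rw [hN]
    have := Nat.factorial_pos (c + 1)
    positivity
  have hDerP : Der k F P := by rw [hP]; exact hFrob k p F s3
  have hDerPN : Der k F (P + N) := by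
    rw [hP]
    refine (hFL s3 N ((le_max_right _ _).trans hs3) ?_).1
    rw [hN, hP]
    exact Dvd.intro_left _ rfl
  have hdiv : ∀ j, 1 ≤ j → j ≤ c → Q2 * (j * (j + 1)) ∣ N ∧ E ≤ N / j := by
    intro j hj1 hjc
    have h1 : j ∣ (c + 1).factorial := Nat.dvd_factorial hj1 (by omega)
    have h2 : j + 1 ∣ (c + 1).factorial := Nat.dvd_factorial (by omega) (by omega)
    constructor
    · rw [hN]
      exact Dvd.dvd.mul_right (mul_dvd_mul_left _ (mul_dvd_mul h1 h2)) _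
    · rw [Nat.le_div_iff_mul_le (by omega), hN]
      have h3 : j ≤ (c + 1).factorial := Nat.le_of_dvd (Nat.factorial_pos _) h1
      calc E * j ≤ P * (c + 1).factorial := Nat.mul_le_mul hEP h3
        _ = 1 * (1 * (c + 1).factorial) * (P * 1) := by ring
        _ ≤ Q2 * ((c + 1).factorial * (c + 1).factorial) * (P * M) := by
          gcongr
          · exact hQ2pos
          · exact Nat.factorial_pos _
          · exact hM
  have hNdiv : ∀ j < c, 0 < N / (j + 1) := by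
    intro j hj
    exact hEpos.trans_le (hdiv (j + 1) (by omega) (by omega)).2
  obtain ⟨lam, g, hg⟩ := hW k c
  choose θ hθ using fun (v : F) (s j : ℕ) =>
    hlift (fun i => x i + lam s • pw k v (N / (j + 1)) (x i))
  let Top : F → Module.End k F := fun v => ∑ j ∈ Finset.range c, ∑ s ∈ Finset.range (c + 1),
    ((-1) ^ j * g (j + 1) s) • (θ v s j : F →ₗ[k] F)
  have hOp : ∀ v, IsOp k x c N lam g v (Top v) := by
    intro v
    refine ⟨θ v, hθ v, ?_⟩
    intro w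
    simp only [Top, LinearMap.sum_apply, LinearMap.smul_apply]
    rfl
  let T : k → Module.End k F := fun μ => Top (mom k x μ)
  have ha : ∀ (μ : k) (w : F) (ls : List F),
      T μ (wd (pw k (mom k x μ) P w) ls) = wd (pw k (mom k x μ) (P + N) w) ls := by
    intro μ
    exact hLin k F n x P (P + N) (mom k x μ) (T μ) hx hDerP hDerPN
      (hExp k F n x c N E Q2 P lam g (mom k x μ) (T μ) hg hgam hInf hEpos hEP hdiv
        (main_mom_mem x μ) (hOp _))
  obtain ⟨d, hd⟩ : ∃ d, d = c * N * n := ⟨_, rfl⟩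
  have hPF : ∀ w, PF k d (fun μ => T μ w) := by
    rw [hd]
    exact hPoly k F n x c N lam g T hx hgam hNdiv (fun μ => hOp _)
  let ν : Fin (d + 1 + n) → k := fun i => Infinite.natEmbedding k (i : ℕ)
  have hν : Function.Injective ν := fun i j h =>
    Fin.ext ((Infinite.natEmbedding k).injective h)
  obtain ⟨hG1, hG2, hG3, hG4⟩ := hStr k F n x P N d (d + 1) (d + 1 + n) ν T hν
    (Nat.lt_succ_self d) hPF ha
  obtain ⟨M', hM'⟩ := hNilp k F n x c P (d + 1) (d + 1 + n) ν hν (by omega) hgam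
  obtain ⟨G, hG⟩ : ∃ G, G = GG k x P ν (d + 1) := ⟨_, rfl⟩
  rw [← hG] at hG1 hG2 hG3 hG4 hM'
  have hGD : G ≤ D1 k F := by
    rw [hG]
    exact main_GG_le x P hPpos ν (d + 1) (Nat.succ_pos d)
  obtain ⟨s4, hs4⟩ := main_pow p (max M' P)
  obtain ⟨P', hP'⟩ : ∃ P', P' = p ^ s4 := ⟨_, rfl⟩
  rw [← hP'] at hs4
  have hM'P' : M' ≤ P' := (le_max_left _ _).trans hs4
  have hPP' : P ≤ P' := (le_max_right _ _).trans hs4
  have hP'pos : 0 < P' := by omega
  have hDerP' : Der k F P' := by rw [hP']; exact hFrob k p F s4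
  have hP'G : ∀ v ∈ Submodule.span k (Set.range x), ∀ w : F, pw k v P' w ∈ G := by
    intro v hv w
    obtain ⟨t, rfl⟩ := Nat.exists_eq_add_of_le' hM'P'
    rw [pw_add]
    exact pw_mem (hM' v hv w) v t
  have hGfc : FC G.toSubmodule ⊤ := hCof k F n x c P' G hx hgam
    (fun j w => hP'G (x j) (Submodule.subset_span ⟨j, rfl⟩) w)
  let ν' : Fin n → k := fun i => Infinite.natEmbedding k (i : ℕ)
  have hν' : Function.Injective ν' := fun i j h =>
    Fin.ext ((Infinite.natEmbedding k).injective h)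
  have hy : LieSubalgebra.lieSpan k F (Set.range fun i => mom k x (ν' i)) = ⊤ :=
    main_gen hx (hSpan k F n x ν' hν')
  have hpres : ∀ (j : Fin n) (i : ℕ), ∀ a ∈ gam k F i, T (ν' j) a ∈ gam k F i := by
    intro j i a ha
    exact (hFilt k F n x c N lam g _ _ _ _ hx hNdiv (hOp (mom k x (ν' j)))
      (hOp (mom k x (ν' j)))).1 i a ha
  have hcomm : ∀ (j l : Fin n) (i : ℕ), 1 ≤ i → ∀ a ∈ gam k F i,
      T (ν' j) (T (ν' l) a) - T (ν' l) (T (ν' j) a) ∈ gam k F (i + 1) := by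
    intro j l i hi a ha
    exact (hFilt k F n x c N lam g _ _ _ _ hx hNdiv (hOp (mom k x (ν' j)))
      (hOp (mom k x (ν' l)))).2 i hi a ha
  have hlay := hLayer k F n (fun i => mom k x (ν' i)) P N (fun j => T (ν' j)) hy hNpos
    (fun j => ha (ν' j)) hpres
  have hno := hNoeth k F n c (fun j => T (ν' j)) hgam hpres hcomm hlay
  have hK1 := hKfg k F n (fun i => mom k x (ν' i)) c P' G K hy hgam hP'pos hGfc hK
  have hK2 := hXfg k F n (fun i => mom k x (ν' i)) P' G K hDerP'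
    (fun j w => hP'G _ (main_mom_mem x _) w) hK1
  refine hFin k F n x d N P' G K T ν' ζ hGfc hP'pos hDerP'
    (fun μ w => hP'G _ (main_mom_mem x μ) w) (hPw k F n x P') hPF hG1 hG2 hG3 ?_
    (fun U hU hUG => hno U hU (hUG.trans hGD)) hK2 hζ
  intro μ a ha'
  obtain ⟨t, ht⟩ := Nat.exists_eq_add_of_le' hPP'
  rw [ht, pw_add, hG4 μ a ha', ← pw_add, add_assoc]

end Pool.Agent.Lib.MP_240c17_al.Tor
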