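import Pool.Agent.Lib.MP_240c17_al.Tor.Spec

/-!
The operators are linear on the iterated ideals.
-/

set_option autoImplicit false

namespace Pool.Agent.Lib.MP_240c17_al.Tor

universe u

open Pool.Agent.Lib.MP_240c17_al.Two

section

variable {k : Type u} [Field k] {F : Type u} [LieRing F] [LieAlgebra k F]

private theorem MidLin_span (P₀ : ℕ) (y : F) (l : List F) :
    (Mid k P₀ (y :: l)).toSubmodule =
      Submodule.span k {w : F | ∃ m ∈ Mid k P₀ l, ∃ ls : List F, w = wd (pw k y P₀ m) ls} := by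
  apply le_antisymm
  · let J : LieIdeal k F :=
      { Submodule.span k {w : F | ∃ m ∈ Mid k P₀ l, ∃ ls : List F, w = wd (pw k y P₀ m) ls} with
        lie_mem := by
          intro z w hw
          have h1 : Submodule.span k {w : F | ∃ m ∈ Mid k P₀ l, ∃ ls : List F,
              w = wd (pw k y P₀ m) ls} ≤ (Submodule.span k {w : F | ∃ m ∈ Mid k P₀ l,
              ∃ ls : List F, w = wd (pw k y P₀ m) ls}).comap (adr k z) := by
            rw [Submodule.span_le]
            rintro _ ⟨m, hm, ls, rfl⟩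
            exact Submodule.subset_span ⟨m, hm, ls ++ [z], (wd_concat _ _ _).symm⟩
          have h2 : ⁅w, z⁆ ∈ Submodule.span k {w : F | ∃ m ∈ Mid k P₀ l, ∃ ls : List F,
              w = wd (pw k y P₀ m) ls} := h1 hw
          have h3 := Submodule.neg_mem _ h2
          rw [lie_skew] at h3
          exact h3 }
    have hJ : Mid k P₀ (y :: l) ≤ J := by
      show LieSubmodule.lieSpan k F {w | ∃ m ∈ Mid k P₀ l, w = pw k y P₀ m} ≤ J
      rw [LieSubmodule.lieSpan_le]
      rintro _ ⟨m, hm, rfl⟩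
      exact Submodule.subset_span ⟨m, hm, [], rfl⟩
    exact hJ
  · rw [Submodule.span_le]
    rintro _ ⟨m, hm, ls, rfl⟩
    have h1 : pw k y P₀ m ∈ Mid k P₀ (y :: l) := LieSubmodule.subset_lieSpan ⟨m, hm, rfl⟩
    exact wd_mem h1 ls

private theorem MidLin_le (P₀ : ℕ) (y : F) (l : List F) :
    Mid k P₀ (y :: l) ≤ Mid k P₀ l := by
  show LieSubmodule.lieSpan k F {w | ∃ m ∈ Mid k P₀ l, w = pw k y P₀ m} ≤ Mid k P₀ l
  rw [LieSubmodule.lieSpan_le]
  rintro _ ⟨m, hm, rfl⟩
  exact pw_mem hm _ _

private theorem MidLin_wd {I : LieIdeal k F} {T : Module.End k F}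
    (h2 : ∀ a ∈ I, ∀ z : F, T ⁅a, z⁆ = ⁅T a, z⁆) {a : F} (ha : a ∈ I) (ls : List F) :
    T (wd a ls) = wd (T a) ls := by
  induction ls generalizing a with
  | nil => rfl
  | cons z ls ih => rw [wd_cons, wd_cons, ih (lie_mem_right ha z), h2 a ha z]

private theorem MidLin_pw {I : LieIdeal k F} {T : Module.End k F}
    (h2 : ∀ a ∈ I, ∀ z : F, T ⁅a, z⁆ = ⁅T a, z⁆) {a : F} (ha : a ∈ I) (y : F) (e : ℕ) :
    T (pw k y e a) = pw k y e (T a) := by
  induction e with
  | zero => simp
  | succ e ih => rw [pw_succ, pw_succ, h2 _ (pw_mem ha _ _), ih]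

end

theorem midLin : MidProp.{u} := by
  intro k _ F _ _ ι P₀ N y T hT l
  induction l with
  | nil =>
    intro i hi
    simp at hi
  | cons h l ih =>
    have hle : Mid k P₀ ((h :: l).map y) ≤ Mid k P₀ (l.map y) := MidLin_le _ _ _
    have hsp := MidLin_span (k := k) P₀ (y h) (l.map y)
    have hgen : ∀ m ∈ Mid k P₀ (l.map y), ∀ ls : List F,
        wd (pw k (y h) P₀ m) ls ∈ Mid k P₀ ((h :: l).map y) := by
      intro m hm ls
      have h1 : pw k (y h) P₀ m ∈ Mid k P₀ ((h :: l).map y) :=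
        LieSubmodule.subset_lieSpan ⟨m, hm, rfl⟩
      exact wd_mem h1 ls
    -- an induction principle
    have hind : ∀ Y : Submodule k F, (∀ m ∈ Mid k P₀ (l.map y), ∀ ls : List F,
        wd (pw k (y h) P₀ m) ls ∈ Y) → ∀ a ∈ Mid k P₀ ((h :: l).map y), a ∈ Y := by
      intro Y hY a ha
      have h1 : a ∈ (Mid k P₀ (y h :: l.map y)).toSubmodule := ha
      rw [hsp] at h1
      have h2 : Submodule.span k {w : F | ∃ m ∈ Mid k P₀ (l.map y), ∃ ls : List F,
          w = wd (pw k (y h) P₀ m) ls} ≤ Y := by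
        rw [Submodule.span_le]
        rintro _ ⟨m, hm, ls, rfl⟩
        exact hY m hm ls
      exact h2 h1
    have hThT : ∀ m ls, T h (wd (pw k (y h) P₀ m) ls) = wd (pw k (y h) (P₀ + N) m) ls :=
      fun m ls => hT h m ls
    -- action of `T i`, `i ∈ l`
    have hTi : ∀ i ∈ l, ∀ m ∈ Mid k P₀ (l.map y), ∀ (e : ℕ) (ls : List F),
        T i (wd (pw k (y h) e m) ls) = wd (pw k (y h) e (T i m)) ls := by
      intro i hi m hm e ls
      obtain ⟨_, h2, _⟩ := ih i hi
      rw [MidLin_wd h2 (pw_mem hm _ _), MidLin_pw h2 hm]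
    -- commutation of `T i` and `T h`
    have hcomm : ∀ i ∈ l, ∀ a ∈ Mid k P₀ ((h :: l).map y), T i (T h a) = T h (T i a) := by
      intro i hi a ha
      have h1 := hind (LinearMap.eqLocus ((T i) ∘ₗ (T h)) ((T h) ∘ₗ (T i))) ?_ a ha
      · exact h1
      · intro m hm ls
        show T i (T h (wd (pw k (y h) P₀ m) ls)) = T h (T i (wd (pw k (y h) P₀ m) ls))
        rw [hThT, hTi i hi m hm, hTi i hi m hm, hThT]
    intro i hi
    rw [List.mem_cons] at hi
    by_cases hih : i = h
    · subst hih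
      refine ⟨?_, ?_, ?_⟩
      · intro a ha
        have h1 := hind ((Mid k P₀ ((i :: l).map y)).toSubmodule.comap (T i)) ?_ a ha
        · exact h1
        · intro m hm ls
          show T i (wd (pw k (y i) P₀ m) ls) ∈ Mid k P₀ ((i :: l).map y)
          rw [hThT, pw_add]
          exact hgen _ (pw_mem hm _ _) ls
      · intro a ha z
        have h1 := hind (LinearMap.eqLocus ((T i) ∘ₗ (adr k z)) ((adr k z) ∘ₗ (T i))) ?_ a ha
        · exact h1
        · intro m hm ls
          show T i ⁅wd (pw k (y i) P₀ m) ls, z⁆ = ⁅T i (wd (pw k (y i) P₀ m) ls), z⁆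
          rw [← wd_concat, hThT, hThT, wd_concat]
      · intro j hj a ha
        rw [List.mem_cons] at hj
        rcases hj with rfl | hj
        · rfl
        · exact (hcomm j hj a ha).symm
    · have hil : i ∈ l := by
        rcases hi with hi | hi
        · exact absurd hi hih
        · exact hi
      obtain ⟨h1, h2, h3⟩ := ih i hil
      refine ⟨?_, fun a ha z => h2 a (hle ha) z, ?_⟩
      · intro a ha
        have h4 := hind ((Mid k P₀ ((h :: l).map y)).toSubmodule.comap (T i)) ?_ a ha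
        · exact h4
        · intro m hm ls
          show T i (wd (pw k (y h) P₀ m) ls) ∈ Mid k P₀ ((h :: l).map y)
          rw [hTi i hil m hm]
          exact hgen _ (h1 m hm) ls
      · intro j hj a ha
        rw [List.mem_cons] at hj
        rcases hj with rfl | hj
        · exact hcomm i hil a ha
        · exact h3 j hj a (hle ha)

end Pool.Agent.Lib.MP_240c17_al.Tor
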