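import Pool.Agent.Lib.MP_240c17_al.Tor.Spec

/-!
The elements of the span of the generators act nilpotently modulo the ideal `GG`.
-/

set_option autoImplicit false

namespace Pool.Agent.Lib.MP_240c17_al.Tor

universe u

open Pool.Agent.Lib.MP_240c17_al.Two

section

variable (k : Type u) [Field k] {F : Type u} [LieRing F] [LieAlgebra k F]

private def NilpAdr : F →ₗ[k] Module.End k F where
  toFun v := adr k v
  map_add' a b := by
    ext z
    show ⁅z, a + b⁆ = ⁅z, a⁆ + ⁅z, b⁆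
    exact lie_add _ _ _
  map_smul' c a := by
    ext z
    show ⁅z, c • a⁆ = c • ⁅z, a⁆
    exact lie_smul _ _ _

private theorem Nilp_mom {n : ℕ} (x : Fin n → F) (μ : k) :
    mom k x μ ∈ Submodule.span k (Set.range x) := by
  unfold mom
  exact Submodule.sum_mem _ (fun i _ => Submodule.smul_mem _ _ (Submodule.subset_span ⟨i, rfl⟩))

private theorem Nilp_prod {n L : ℕ} (x : Fin n → F) (ν : Fin L → k) (P₀ : ℕ) (l : List (Fin L)) :
    ∀ z : F, (l.map fun i => adr k (mom k x (ν i)) ^ P₀).prod z ∈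
      Mid k P₀ (l.map fun i => mom k x (ν i)) := by
  induction l with
  | nil =>
    intro z
    exact LieSubmodule.mem_top _
  | cons h l ih =>
    intro z
    rw [List.map_cons, List.map_cons, List.prod_cons, Module.End.mul_apply]
    exact LieSubmodule.subset_lieSpan ⟨_, ih z, rfl⟩

end

theorem nilp (h1 : CombProp.{u}) (h2 : MomSpanProp.{u}) : NilpProp.{u} := by
  intro k _ F _ _ n x c P₀ r L ν hν hrn hc
  classical
  set G : LieIdeal k F := GG k x P₀ ν r with hG
  have key : ∀ i : ℕ, 1 ≤ i → ∃ M : ℕ, ∀ v ∈ Submodule.span k (Set.range x),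
      ∀ w ∈ (gam k F i ⊔ G : LieIdeal k F), pw k v M w ∈ (gam k F (i + 1) ⊔ G : LieIdeal k F) := by
    intro i hi
    have hYZ : (gam k F (i + 1) ⊔ G : LieIdeal k F) ≤ (gam k F i ⊔ G : LieIdeal k F) :=
      sup_le_sup_right (gam_le i) G
    suffices hM : ∃ M : ℕ, ∀ ψ ∈ (Submodule.span k (Set.range x)).map (NilpAdr k),
        ∀ z ∈ (gam k F i ⊔ G : LieIdeal k F).toSubmodule,
        (ψ ^ M) z ∈ (gam k F (i + 1) ⊔ G : LieIdeal k F).toSubmodule by
      obtain ⟨M, hM⟩ := hM
      refine ⟨M, fun v hv w hw => ?_⟩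
      exact hM (adr k v) ⟨v, hv, rfl⟩ w hw
    refine h1 k F L n r P₀ (fun j => adr k (mom k x (ν j)))
      (gam k F (i + 1) ⊔ G : LieIdeal k F).toSubmodule (gam k F i ⊔ G : LieIdeal k F).toSubmodule
      ((Submodule.span k (Set.range x)).map (NilpAdr k)) hYZ ?_ ?_ ?_ ?_ hrn ?_ ?_
    · rintro _ ⟨v, _, rfl⟩ z hz
      exact lie_mem_right (I := gam k F i ⊔ G) hz v
    · rintro _ ⟨v, _, rfl⟩ z hz
      exact lie_mem_right (I := gam k F (i + 1) ⊔ G) hz v
    · rintro _ ⟨v, _, rfl⟩ _ ⟨v', _, rfl⟩ z hz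
      show ⁅⁅z, v'⁆, v⁆ - ⁅⁅z, v⁆, v'⁆ ∈ (gam k F (i + 1) ⊔ G : LieIdeal k F)
      rw [← lie_lie_right]
      have h3 : (gam k F i ⊔ G : LieIdeal k F).toSubmodule ≤
          (gam k F (i + 1) ⊔ G : LieIdeal k F).toSubmodule.comap (adr k ⁅v', v⁆) := by
        rw [LieSubmodule.sup_toSubmodule]
        apply sup_le
        · intro a ha
          have h4 : ⁅a, ⁅v', v⁆⁆ ∈ gam k F (i + 1) := lie_mem_gam hi ha (lie_mem_D1 _ _)
          exact (le_sup_left : gam k F (i + 1) ≤ gam k F (i + 1) ⊔ G) h4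
        · intro a ha
          have h4 : ⁅a, ⁅v', v⁆⁆ ∈ G := lie_mem_right ha _
          exact (le_sup_right : G ≤ gam k F (i + 1) ⊔ G) h4
      exact h3 hz
    · intro j
      exact ⟨mom k x (ν j), Nilp_mom k x (ν j), rfl⟩
    · intro s hs
      let e := s.equivFinOfCardEq hs
      have h3 := h2 k F n x (fun i => ν (e.symm i)) (by
        intro a b hab
        have h4 := hν hab
        exact e.symm.injective (Subtype.ext h4))
      rw [Submodule.map_le_iff_le_comap, Submodule.span_le]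
      rintro _ ⟨j, rfl⟩
      have h4 : Submodule.span k (Set.range fun i => mom k x (ν (e.symm i))) ≤
          (Submodule.span k ((fun j => adr k (mom k x (ν j))) '' (s : Set (Fin L)))).comap
            (NilpAdr k) := by
        rw [Submodule.span_le]
        rintro _ ⟨i, rfl⟩
        exact Submodule.subset_span ⟨(e.symm i : Fin L), (e.symm i).2, rfl⟩
      exact h4 (h3 j)
    · intro l hl hlr z _
      have h3 := Nilp_prod k x ν P₀ l z
      have h4 : Mid k P₀ (l.map fun i => mom k x (ν i)) ≤ G := by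
        rw [hG]
        unfold GG
        exact le_iSup₂_of_le l ⟨hl, hlr⟩ le_rfl
      exact (le_sup_right : G ≤ gam k F (i + 1) ⊔ G) (h4 h3)
  have main : ∀ i : ℕ, ∃ M : ℕ, ∀ v ∈ Submodule.span k (Set.range x),
      ∀ w : F, pw k v M w ∈ (gam k F (i + 1) ⊔ G : LieIdeal k F) := by
    intro i
    induction i with
    | zero =>
      refine ⟨1, fun v _ w => ?_⟩
      rw [pw_one]
      have h3 : ⁅w, v⁆ ∈ gam k F (0 + 1) := lie_mem_D1 _ _
      exact (le_sup_left : gam k F (0 + 1) ≤ gam k F (0 + 1) ⊔ G) h3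
    | succ i ih =>
      obtain ⟨M, hM⟩ := ih
      obtain ⟨M', hM'⟩ := key (i + 1) (by omega)
      refine ⟨M' + M, fun v hv w => ?_⟩
      rw [pw_add]
      exact hM' v hv _ (hM v hv w)
  obtain ⟨M, hM⟩ := main c
  refine ⟨M, fun v hv w => ?_⟩
  have h3 := hM v hv w
  rw [hc, bot_sup_eq] at h3
  exact h3

end Pool.Agent.Lib.MP_240c17_al.Tor
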