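import Pool.Agent.Lib.MP_240c17_al.Tor.Spec

/-!
(T17) Stable subspaces of the derived algebra are finitely generated over the operators `T`.
-/

set_option autoImplicit false

namespace Pool.Agent.Lib.MP_240c17_al.Tor

universe u

open Pool.Agent.Lib.MP_240c17_al.Two

theorem noeth (h : HilbertProp.{u}) : NoethProp.{u} := by
  classical
  intro k _ F _ _ n c T hgam hpres hcomm hlay U hU hU1
  have key : ∀ j, j ≤ c → ∃ S : Finset F, gen T (S : Set F) = U ⊓ (gam k F (c + 1 - j)).toSubmodule := by
    intro j
    induction j with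
    | zero =>
      intro _
      refine ⟨∅, ?_⟩
      have h1 : gam k F (c + 1 - 0) = ⊥ := hgam
      rw [h1]
      apply le_antisymm
      · refine gen_le ?_ (by simp)
        intro i w hw
        have h2 : w = 0 := (LieSubmodule.mem_bot _).mp hw.2
        rw [h2, map_zero]
        exact Submodule.zero_mem _
      · intro w hw
        have h2 : w = 0 := (LieSubmodule.mem_bot _).mp hw.2
        rw [h2]
        exact Submodule.zero_mem _
    | succ j ih =>
      intro hj
      obtain ⟨S, hS⟩ := ih (by omega)
      obtain ⟨i, hi⟩ : ∃ i, i = c - j := ⟨_, rfl⟩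
      have hi1 : 1 ≤ i := by omega
      rw [show c + 1 - j = i + 1 by omega] at hS
      rw [show c + 1 - (j + 1) = i by omega]
      obtain ⟨S', hS'⟩ := h k F (Fin n) T (gam k F (i + 1)).toSubmodule (gam k F i).toSubmodule
        ((U ⊓ (gam k F i).toSubmodule) ⊔ (gam k F (i + 1)).toSubmodule)
        (fun j a ha => hpres j (i + 1) a ha) (fun j l a ha => hcomm j l i hi1 a ha) (hlay i hi1)
        ((hU.inf (fun j a ha => hpres j i a ha)).sup (fun j a ha => hpres j (i + 1) a ha))
        le_sup_right (sup_le inf_le_right (gam_le i))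
      have hmem : ∀ s ∈ S', ∃ u ∈ U ⊓ (gam k F i).toSubmodule,
          s - u ∈ (gam k F (i + 1)).toSubmodule := by
        intro s hs
        have h2 : s ∈ (U ⊓ (gam k F i).toSubmodule) ⊔ (gam k F (i + 1)).toSubmodule := by
          rw [← hS']
          exact (le_sup_left : gen T (S' : Set F) ≤ _) (subset_gen _ _ hs)
        obtain ⟨u, hu, v, hv, rfl⟩ := Submodule.mem_sup.mp h2
        refine ⟨u, hu, ?_⟩
        rw [add_sub_cancel_left]
        exact hv
      choose r hr1 hr2 using hmem
      let S'' : Finset F := S'.attach.image (fun s => r s.1 s.2)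
      have h3 : gen T (S'' : Set F) ≤ U ⊓ (gam k F i).toSubmodule := by
        refine gen_le (hU.inf (fun j a ha => hpres j i a ha)) ?_
        intro w hw
        obtain ⟨s, _, rfl⟩ := Finset.mem_image.mp (Finset.mem_coe.mp hw)
        exact hr1 s.1 s.2
      have h4 : gen T (S' : Set F) ≤ gen T (S'' : Set F) ⊔ (gam k F (i + 1)).toSubmodule := by
        refine gen_le ((gen_stab _ _).sup (fun j a ha => hpres j (i + 1) a ha)) ?_
        intro s hs
        have h5 : s = r s hs + (s - r s hs) := by abel
        rw [h5]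
        refine Submodule.add_mem_sup (subset_gen _ _ ?_) (hr2 s hs)
        exact Finset.mem_coe.mpr (Finset.mem_image.mpr ⟨⟨s, hs⟩, Finset.mem_attach S' _, rfl⟩)
      refine ⟨S'' ∪ S, ?_⟩
      rw [Finset.coe_union, gen_union, hS]
      apply le_antisymm
      · refine sup_le h3 (inf_le_inf_left U (gam_le i))
      · intro x hx
        have h5 : x ∈ gen T (S'' : Set F) ⊔ (gam k F (i + 1)).toSubmodule := by
          have h6 : x ∈ gen T (S' : Set F) ⊔ (gam k F (i + 1)).toSubmodule := by
            rw [hS']
            exact (le_sup_left : U ⊓ (gam k F i).toSubmodule ≤ _) hx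
          exact (sup_le h4 le_sup_right : gen T (S' : Set F) ⊔ (gam k F (i + 1)).toSubmodule ≤ _) h6
        obtain ⟨a, ha, b, hb, rfl⟩ := Submodule.mem_sup.mp h5
        refine Submodule.add_mem_sup ha ⟨?_, hb⟩
        have h6 := U.sub_mem hx.1 (h3 ha).1
        rwa [add_sub_cancel_left] at h6
  obtain ⟨S, hS⟩ := key c le_rfl
  refine ⟨S, ?_⟩
  rw [hS, show c + 1 - c = 1 by omega]
  exact inf_eq_left.mpr hU1

end Pool.Agent.Lib.MP_240c17_al.Tor
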