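import Pool.Agent.Lib.MP_240c17_al.Tor.Spec

/-!
The operators `T` preserve the lower central series of the derived algebra and commute on its layers.
-/

set_option autoImplicit false

namespace Pool.Agent.Lib.MP_240c17_al.Tor

universe u

open Pool.Agent.Lib.MP_240c17_al.Two

section

variable {k : Type u} [Field k] {F : Type u} [LieRing F] [LieAlgebra k F]

private theorem OpFilt_comm {i : ℕ} (hi : 1 ≤ i) (v z : F) (e : ℕ) {w : F}
    (hw : w ∈ gam k F i) : ⁅pw k v e w, z⁆ - pw k v e ⁅w, z⁆ ∈ gam k F (i + 1) := by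
  induction e with
  | zero =>
    rw [pw_zero, pw_zero, sub_self]
    exact zero_mem _
  | succ e ih =>
    have h1 := lie_comm_mod hi (pw_mem hw v e) v z
    have h2 := lie_mem_right ih v
    have h3 := add_mem h1 h2
    rw [pw_succ, pw_succ]
    have h4 : ⁅⁅pw k v e w, v⁆, z⁆ - ⁅pw k v e ⁅w, z⁆, v⁆ =
        ⁅⁅pw k v e w, v⁆, z⁆ - ⁅⁅pw k v e w, z⁆, v⁆ + ⁅⁅pw k v e w, z⁆ - pw k v e ⁅w, z⁆, v⁆ := by
      rw [sub_lie]
      abel
    rw [h4]
    exact h3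

private theorem OpFilt_comm2 {i : ℕ} (hi : 1 ≤ i) (v v' : F) (e e' : ℕ) {w : F}
    (hw : w ∈ gam k F i) :
    pw k v e (pw k v' e' w) - pw k v' e' (pw k v e w) ∈ gam k F (i + 1) := by
  induction e' with
  | zero =>
    rw [pw_zero, pw_zero, sub_self]
    exact zero_mem _
  | succ e' ih =>
    have h1 := OpFilt_comm hi v v' e (pw_mem hw v' e')
    have h2 := lie_mem_right ih v'
    rw [pw_succ, pw_succ]
    have h4 : pw k v e ⁅pw k v' e' w, v'⁆ - ⁅pw k v' e' (pw k v e w), v'⁆ =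
        -(⁅pw k v e (pw k v' e' w), v'⁆ - pw k v e ⁅pw k v' e' w, v'⁆) +
          ⁅pw k v e (pw k v' e' w) - pw k v' e' (pw k v e w), v'⁆ := by
      rw [sub_lie]
      abel
    rw [h4]
    exact add_mem (neg_mem h1) h2

private theorem OpFilt_single {n : ℕ} {x : Fin n → F}
    (hx : LieSubalgebra.lieSpan k F (Set.range x) = ⊤) (θ : F →ₗ⁅k⁆ F) (lam : k) (v : F) (m : ℕ)
    (hm : 0 < m) (hθ : ∀ i, θ (x i) = x i + lam • pw k v m (x i)) :
    ∀ a ∈ gam k F 1, θ a - a - lam • pw k v m a ∈ gam k F 2 := by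
  obtain ⟨m', rfl⟩ := Nat.exists_eq_succ_of_ne_zero hm.ne'
  have hu : ∀ z : F, pw k v (m' + 1) z ∈ D1 k F := fun z => pw_mem_D1 (Nat.succ_pos _) v z
  -- first letters
  have hbase : ∀ i j, θ ⁅x i, x j⁆ - ⁅x i, x j⁆ - lam • pw k v (m' + 1) ⁅x i, x j⁆ ∈
      gam k F 2 := by
    intro i j
    have h1 : ⁅pw k v (m' + 1) (x i), x j⁆ - pw k v m' ⁅⁅x i, v⁆, x j⁆ ∈ gam k F 2 := by
      rw [pw_succ']
      exact OpFilt_comm le_rfl v (x j) m' (lie_mem_D1 (x i) v)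
    have h2 : ⁅pw k v (m' + 1) (x j), x i⁆ - pw k v m' ⁅⁅x j, v⁆, x i⁆ ∈ gam k F 2 := by
      rw [pw_succ']
      exact OpFilt_comm le_rfl v (x i) m' (lie_mem_D1 (x j) v)
    have h3 : ⁅pw k v (m' + 1) (x i), pw k v (m' + 1) (x j)⁆ ∈ gam k F 2 :=
      lie_mem_gam le_rfl (hu _) (hu _)
    have h4 : pw k v (m' + 1) ⁅x i, x j⁆ =
        pw k v m' ⁅⁅x i, v⁆, x j⁆ - pw k v m' ⁅⁅x j, v⁆, x i⁆ := by
      rw [pw_succ', lie_lie_swap (x i) (x j) v, ← lie_skew (x i) ⁅x j, v⁆, map_add, map_neg]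
      abel
    have h5 : θ ⁅x i, x j⁆ - ⁅x i, x j⁆ - lam • pw k v (m' + 1) ⁅x i, x j⁆ =
        lam • (⁅pw k v (m' + 1) (x i), x j⁆ - pw k v m' ⁅⁅x i, v⁆, x j⁆) -
        lam • (⁅pw k v (m' + 1) (x j), x i⁆ - pw k v m' ⁅⁅x j, v⁆, x i⁆) +
        lam • lam • ⁅pw k v (m' + 1) (x i), pw k v (m' + 1) (x j)⁆ := by
      rw [LieHom.map_lie, hθ, hθ, h4]
      rw [lie_add, add_lie, add_lie, lie_smul, lie_smul, smul_lie, smul_lie,
        ← lie_skew (x i) (pw k v (m' + 1) (x j))]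
      simp only [smul_sub, smul_neg]
      abel
    rw [h5]
    exact add_mem (sub_mem ((gam k F 2).smul_mem _ h1) ((gam k F 2).smul_mem _ h2))
      ((gam k F 2).smul_mem _ ((gam k F 2).smul_mem _ h3))
  have hstep : ∀ a ∈ gam k F 1, θ a - a - lam • pw k v (m' + 1) a ∈ gam k F 2 → ∀ l,
      θ ⁅a, x l⁆ - ⁅a, x l⁆ - lam • pw k v (m' + 1) ⁅a, x l⁆ ∈ gam k F 2 := by
    intro a ha h l
    have h1 := lie_mem_right h (x l)
    have h2 : ⁅θ a, pw k v (m' + 1) (x l)⁆ ∈ gam k F 2 :=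
      lie_mem_gam le_rfl (map_mem_gam θ ha) (hu _)
    have h3 := OpFilt_comm (i := 1) le_rfl v (x l) (m' + 1) ha
    have h5 : θ ⁅a, x l⁆ - ⁅a, x l⁆ - lam • pw k v (m' + 1) ⁅a, x l⁆ =
        ⁅θ a - a - lam • pw k v (m' + 1) a, x l⁆ + lam • ⁅θ a, pw k v (m' + 1) (x l)⁆ +
        lam • (⁅pw k v (m' + 1) a, x l⁆ - pw k v (m' + 1) ⁅a, x l⁆) := by
      rw [LieHom.map_lie, hθ, lie_add, lie_smul, sub_lie, sub_lie, smul_lie, smul_sub]
      abel
    rw [h5]
    exact add_mem (add_mem h1 ((gam k F 2).smul_mem _ h2)) ((gam k F 2).smul_mem _ h3)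
  have hword : ∀ (ls : List (Fin n)) (a : F), a ∈ gam k F 1 →
      θ a - a - lam • pw k v (m' + 1) a ∈ gam k F 2 →
      θ (wd a (ls.map x)) - wd a (ls.map x) - lam • pw k v (m' + 1) (wd a (ls.map x)) ∈
        gam k F 2 := by
    intro ls
    induction ls with
    | nil => intro a _ h; exact h
    | cons l ls ih =>
      intro a ha h
      rw [List.map_cons, wd_cons]
      exact ih _ (lie_mem_right ha _) (hstep a ha h l)
  have hle : (D1 k F).toSubmodule ≤ (gam k F 2).toSubmodule.comap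
      ((θ : F →ₗ[k] F) - LinearMap.id - lam • pw k v (m' + 1)) := by
    rw [D1_words hx, Submodule.span_le]
    rintro _ ⟨i, j, ls, rfl⟩
    exact hword ls _ (lie_mem_D1 _ _) (hbase i j)
  intro a ha
  exact hle ha

private theorem OpFilt_pair1 {n : ℕ} {x : Fin n → F}
    (hx : LieSubalgebra.lieSpan k F (Set.range x) = ⊤) (θ θ' : F →ₗ⁅k⁆ F) (lam lam' : k)
    (v v' : F) (m m' : ℕ) (hm : 0 < m) (hm' : 0 < m')
    (hθ : ∀ i, θ (x i) = x i + lam • pw k v m (x i))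
    (hθ' : ∀ i, θ' (x i) = x i + lam' • pw k v' m' (x i)) :
    ∀ a ∈ gam k F 1, θ (θ' a) - θ' (θ a) ∈ gam k F 2 := by
  intro a ha
  have h1 := OpFilt_single hx θ lam v m hm hθ
  have h2 := OpFilt_single hx θ' lam' v' m' hm' hθ'
  have a1 := map_mem_gam θ (h2 a ha)
  have a2 := map_mem_gam θ' (h1 a ha)
  have a3 := h1 a ha
  have a4 := h2 a ha
  have a5 := h1 _ (pw_mem ha v' m')
  have a6 := h2 _ (pw_mem ha v m)
  have a7 := OpFilt_comm2 (k := k) le_rfl v v' m m' ha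
  have e : θ (θ' a) - θ' (θ a) =
      θ (θ' a - a - lam' • pw k v' m' a) - θ' (θ a - a - lam • pw k v m a) +
      (θ a - a - lam • pw k v m a) - (θ' a - a - lam' • pw k v' m' a) +
      lam' • (θ (pw k v' m' a) - pw k v' m' a - lam • pw k v m (pw k v' m' a)) -
      lam • (θ' (pw k v m a) - pw k v m a - lam' • pw k v' m' (pw k v m a)) +
      lam' • lam • (pw k v m (pw k v' m' a) - pw k v' m' (pw k v m a)) := by
    simp only [map_sub, map_smul, smul_sub]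
    rw [smul_comm lam lam']
    abel
  rw [e]
  exact add_mem (sub_mem (add_mem (sub_mem (add_mem (sub_mem a1 a2) a3) a4)
    ((gam k F 2).smul_mem _ a5)) ((gam k F 2).smul_mem _ a6))
    ((gam k F 2).smul_mem _ ((gam k F 2).smul_mem _ a7))

private theorem OpFilt_pair {n : ℕ} {x : Fin n → F}
    (hx : LieSubalgebra.lieSpan k F (Set.range x) = ⊤) (θ θ' : F →ₗ⁅k⁆ F) (lam lam' : k)
    (v v' : F) (m m' : ℕ) (hm : 0 < m) (hm' : 0 < m')
    (hθ : ∀ i, θ (x i) = x i + lam • pw k v m (x i))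
    (hθ' : ∀ i, θ' (x i) = x i + lam' • pw k v' m' (x i)) (i : ℕ) (hi : 1 ≤ i) :
    ∀ a ∈ gam k F i, θ (θ' a) - θ' (θ a) ∈ gam k F (i + 1) := by
  have h1 := OpFilt_pair1 hx θ θ' lam lam' v v' m m' hm hm' hθ hθ'
  induction i, hi using Nat.le_induction with
  | base => exact h1
  | succ i hi ih =>
    have hle : (gam k F (i + 1)).toSubmodule ≤ (gam k F (i + 1 + 1)).toSubmodule.comap
        (((θ : F →ₗ[k] F) ∘ₗ (θ' : F →ₗ[k] F)) - ((θ' : F →ₗ[k] F) ∘ₗ (θ : F →ₗ[k] F))) := by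
      apply gam_succ_le hi
      intro a ha b hb
      show θ (θ' ⁅a, b⁆) - θ' (θ ⁅a, b⁆) ∈ gam k F (i + 1 + 1)
      simp only [LieHom.map_lie]
      have e : ⁅θ (θ' a), θ (θ' b)⁆ - ⁅θ' (θ a), θ' (θ b)⁆ =
          ⁅θ (θ' a) - θ' (θ a), θ (θ' b)⁆ + ⁅θ' (θ a), θ (θ' b) - θ' (θ b)⁆ := by
        rw [sub_lie, lie_sub]
        abel
      rw [e]
      have hb1 : b ∈ gam k F 1 := hb
      refine add_mem ?_ ?_
      · exact lie_mem_gam (i := i + 1) (by omega) (ih a ha)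
          (map_mem_gam θ (map_mem_gam θ' hb1))
      · exact lie_mem_gam_gam (i := i) (j := 2) hi (by norm_num)
          (map_mem_gam θ' (map_mem_gam θ ha)) (h1 b hb1)
    intro a ha
    exact hle ha

/-- commutation of a linear combination -/
private theorem OpFilt_lin (I : LieIdeal k F) (c : ℕ) (co : ℕ → ℕ → k)
    (θ : ℕ → ℕ → (F →ₗ⁅k⁆ F)) (T B : Module.End k F)
    (hT : ∀ w, T w = ∑ j ∈ Finset.range c, ∑ s ∈ Finset.range (c + 1), co j s • θ s j w)
    (a : F) (h : ∀ j < c, ∀ s, θ s j (B a) - B (θ s j a) ∈ I) : T (B a) - B (T a) ∈ I := by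
  have e : T (B a) - B (T a) = ∑ j ∈ Finset.range c, ∑ s ∈ Finset.range (c + 1),
      co j s • (θ s j (B a) - B (θ s j a)) := by
    rw [hT, hT, map_sum, ← Finset.sum_sub_distrib]
    apply Finset.sum_congr rfl
    intro j _
    rw [map_sum, ← Finset.sum_sub_distrib]
    apply Finset.sum_congr rfl
    intro s _
    rw [map_smul, smul_sub]
  rw [e]
  refine sum_mem (fun j hj => sum_mem (fun s _ => I.smul_mem _ ?_))
  exact h j (Finset.mem_range.1 hj) s

end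

theorem opFilt : OpFiltProp.{u} := by
  intro k _ F _ _ n x c N lam g v v' T T' hx hN hT hT'
  obtain ⟨θ, hθ, hTw⟩ := hT
  obtain ⟨θ', hθ', hTw'⟩ := hT'
  refine ⟨?_, ?_⟩
  · intro i a ha
    rw [hTw]
    refine sum_mem (fun j _ => sum_mem (fun s _ => (gam k F i).smul_mem _ ?_))
    exact map_mem_gam (θ s j) ha
  · intro i hi a ha
    apply OpFilt_lin (gam k F (i + 1)) c (fun j s => (-1) ^ j * g (j + 1) s) θ T T' hTw a
    intro j hj s
    have h1 := OpFilt_lin (gam k F (i + 1)) c (fun j s => (-1) ^ j * g (j + 1) s) θ' T'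
      ((θ s j : F →ₗ[k] F)) hTw' a (fun j' hj' s' => by
        have h2 := OpFilt_pair hx (θ' s' j') (θ s j) (lam s') (lam s) v' v (N / (j' + 1))
          (N / (j + 1)) (hN j' hj') (hN j hj) (hθ' s' j') (hθ s j) i hi a ha
        exact h2)
    have h3 := neg_mem h1
    rw [neg_sub] at h3
    exact h3

end Pool.Agent.Lib.MP_240c17_al.Tor
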