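import Pool.Agent.Lib.MP_240c17_al.Tor.Spec

/-!
The operators `T μ` depend polynomially on the parameter.
-/

set_option autoImplicit false

namespace Pool.Agent.Lib.MP_240c17_al.Tor

universe u

open Pool.Agent.Lib.MP_240c17_al.Two

section

variable {k : Type u} [Field k] {X : Type u} [AddCommGroup X] [Module k X]

theorem OpPoly_mono {d d' : ℕ} {f : k → X} (h : PF k d f) (hd : d ≤ d') : PF k d' f := by
  obtain ⟨q, hq⟩ := h
  refine ⟨fun l => if l ≤ d then q l else 0, fun μ => ?_⟩
  rw [hq μ]
  have hsub : Finset.range (d + 1) ⊆ Finset.range (d' + 1) := by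
    intro l hl
    rw [Finset.mem_range] at hl ⊢
    omega
  rw [← Finset.sum_subset hsub]
  · apply Finset.sum_congr rfl
    intro l hl
    rw [Finset.mem_range] at hl
    beta_reduce
    rw [if_pos (by omega)]
  · intro l _ hl
    rw [Finset.mem_range] at hl
    beta_reduce
    rw [if_neg (by omega), smul_zero]

theorem OpPoly_zero (d : ℕ) : PF k d (fun _ : k => (0 : X)) :=
  ⟨fun _ => 0, fun μ => by simp⟩

theorem OpPoly_add {d : ℕ} {f f' : k → X} (h : PF k d f) (h' : PF k d f') :
    PF k d (fun μ => f μ + f' μ) := by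
  obtain ⟨q, hq⟩ := h
  obtain ⟨q', hq'⟩ := h'
  refine ⟨fun l => q l + q' l, fun μ => ?_⟩
  beta_reduce
  rw [hq, hq', ← Finset.sum_add_distrib]
  apply Finset.sum_congr rfl
  intro l _
  rw [smul_add]

theorem OpPoly_smul {d : ℕ} {f : k → X} (c : k) (h : PF k d f) :
    PF k d (fun μ => c • f μ) := by
  obtain ⟨q, hq⟩ := h
  refine ⟨fun l => c • q l, fun μ => ?_⟩
  beta_reduce
  rw [hq, Finset.smul_sum]
  apply Finset.sum_congr rfl
  intro l _
  rw [smul_comm]

theorem OpPoly_sum {ι : Type} {d : ℕ} (s : Finset ι) {f : ι → k → X}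
    (h : ∀ i ∈ s, PF k d (f i)) : PF k d (fun μ => ∑ i ∈ s, f i μ) := by
  classical
  induction s using Finset.induction_on with
  | empty => simpa using OpPoly_zero (k := k) (X := X) d
  | insert a s ha ih =>
    simp only [Finset.sum_insert ha]
    exact OpPoly_add (h a (Finset.mem_insert_self _ _))
      (ih (fun i hi => h i (Finset.mem_insert_of_mem hi)))

theorem OpPoly_monomial {d l : ℕ} (hl : l ≤ d) (q : X) : PF k d (fun μ => μ ^ l • q) := by
  refine ⟨fun i => if i = l then q else 0, fun μ => ?_⟩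
  rw [Finset.sum_eq_single l]
  · beta_reduce
    rw [if_pos rfl]
  · intro i _ hi
    beta_reduce
    rw [if_neg hi, smul_zero]
  · intro h
    exact absurd (Finset.mem_range.2 (Nat.lt_succ_iff.2 hl)) h

theorem OpPoly_const (d : ℕ) (q : X) : PF k d (fun _ => q) := by
  have h := OpPoly_monomial (k := k) (Nat.zero_le d) q
  simpa using h

end

section

variable {k : Type u} [Field k] {F : Type u} [LieRing F] [LieAlgebra k F]

theorem OpPoly_lie {d d' : ℕ} {f f' : k → F} (h : PF k d f) (h' : PF k d' f') :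
    PF k (d + d') (fun μ => ⁅f μ, f' μ⁆) := by
  obtain ⟨q, hq⟩ := h
  obtain ⟨q', hq'⟩ := h'
  have e : (fun μ => ⁅f μ, f' μ⁆) = fun μ => ∑ l ∈ Finset.range (d + 1),
      ∑ l' ∈ Finset.range (d' + 1), μ ^ (l + l') • ⁅q l, q' l'⁆ := by
    funext μ
    rw [hq, hq', sum_lie]
    apply Finset.sum_congr rfl
    intro l _
    rw [lie_sum]
    apply Finset.sum_congr rfl
    intro l' _
    rw [smul_lie, lie_smul, smul_smul, pow_add]
  rw [e]
  refine OpPoly_sum _ (fun l hl => OpPoly_sum _ (fun l' hl' => OpPoly_monomial ?_ _))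
  rw [Finset.mem_range] at hl hl'
  omega

theorem OpPoly_mom {n : ℕ} (x : Fin n → F) : PF k n (fun μ => mom k x μ) := by
  unfold mom
  exact OpPoly_sum _ (fun i _ => OpPoly_monomial i.2.le _)

end

theorem pwPoly : PwPolyProp.{u} := by
  intro k _ F _ _ n x e w
  induction e with
  | zero =>
    simp only [pw_zero]
    exact OpPoly_const _ _
  | succ e ih =>
    simp only [pw_succ]
    have h := OpPoly_lie ih (OpPoly_mom x)
    rw [show (e + 1) * n = e * n + n by ring]
    exact h

section

variable {k : Type u} [Field k] {F : Type u} [LieRing F] [LieAlgebra k F]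

/-- words starting in `gam i` -/
private theorem OpPoly_word {c n D : ℕ} (hc : gam k F (c + 1) = ⊥) (x : Fin n → F)
    (ξ u : Fin n → k → F) (lam : k) (hξ : ∀ l μ, ξ l μ = x l + lam • u l μ)
    (hu : ∀ l, PF k D (u l)) (huD : ∀ l μ, u l μ ∈ D1 k F) (ls : List (Fin n)) :
    ∀ (i d : ℕ) (f : k → F), 1 ≤ i → (∀ μ, f μ ∈ gam k F i) → PF k d f →
      PF k (d + (c - i) * D) (fun μ => wd (f μ) (ls.map (fun l => ξ l μ))) := by
  induction ls with
  | nil =>
    intro i d f _ _ h
    exact OpPoly_mono h (Nat.le_add_right _ _)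
  | cons l ls ih =>
    intro i d f hi hf h
    have e : (fun μ => wd (f μ) ((l :: ls).map (fun l => ξ l μ))) = fun μ =>
        wd ⁅f μ, x l⁆ (ls.map (fun l => ξ l μ)) +
        lam • wd ⁅f μ, u l μ⁆ (ls.map (fun l => ξ l μ)) := by
      funext μ
      rw [List.map_cons, wd_cons, hξ, lie_add, lie_smul, wd_add, wd_smul]
    rw [e]
    apply OpPoly_add
    · have h1 := OpPoly_lie h (OpPoly_const (k := k) 0 (x l))
      rw [add_zero] at h1
      exact ih i d _ hi (fun μ => lie_mem_right (hf μ) _) h1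
    · apply OpPoly_smul
      rcases Nat.lt_or_ge i c with hic | hic
      · have h1 := ih (i + 1) (d + D) _ (by omega)
          (fun μ => lie_mem_gam hi (hf μ) (huD l μ)) (OpPoly_lie h (hu l))
        refine OpPoly_mono h1 (le_of_eq ?_)
        obtain ⟨t, rfl⟩ := Nat.exists_eq_add_of_lt hic
        rw [show i + t + 1 - (i + 1) = t by omega, show i + t + 1 - i = t + 1 by omega]
        ring
      · have h0 : ∀ μ, ⁅f μ, u l μ⁆ = 0 := by
          intro μ
          have h1 := lie_mem_gam hi (hf μ) (huD l μ)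
          have h2 : ⁅f μ, u l μ⁆ ∈ gam k F (c + 1) := gam_anti (by omega) h1
          rw [hc] at h2
          simpa using h2
        simp only [h0, wd_zero]
        exact OpPoly_zero _

/-- words starting anywhere -/
private theorem OpPoly_word0 {c n D : ℕ} (hc0 : 1 ≤ c) (hc : gam k F (c + 1) = ⊥) (x : Fin n → F)
    (ξ u : Fin n → k → F) (lam : k) (hξ : ∀ l μ, ξ l μ = x l + lam • u l μ)
    (hu : ∀ l, PF k D (u l)) (huD : ∀ l μ, u l μ ∈ D1 k F) (ls : List (Fin n)) (i : Fin n) :
    PF k (c * D) (fun μ => wd (ξ i μ) (ls.map (fun l => ξ l μ))) := by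
  have hcD : D + (c - 1) * D = c * D := by
    obtain ⟨t, rfl⟩ := Nat.exists_eq_add_of_le' hc0
    rw [show t + 1 - 1 = t by omega]
    ring
  have e : (fun μ => wd (ξ i μ) (ls.map (fun l => ξ l μ))) = fun μ =>
      wd (x i) (ls.map (fun l => ξ l μ)) + lam • wd (u i μ) (ls.map (fun l => ξ l μ)) := by
    funext μ
    rw [hξ, wd_add, wd_smul]
  rw [e]
  apply OpPoly_add
  · cases ls with
    | nil => exact OpPoly_const _ _
    | cons l ls =>
      have e2 : (fun μ => wd (x i) ((l :: ls).map (fun l => ξ l μ))) = fun μ =>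
          wd ⁅x i, x l⁆ (ls.map (fun l => ξ l μ)) +
          lam • wd ⁅x i, u l μ⁆ (ls.map (fun l => ξ l μ)) := by
        funext μ
        rw [List.map_cons, wd_cons, hξ, lie_add, lie_smul, wd_add, wd_smul]
      rw [e2]
      apply OpPoly_add
      · have h1 := OpPoly_word hc x ξ u lam hξ hu huD ls 1 0 (fun _ => ⁅x i, x l⁆) le_rfl
          (fun _ => lie_mem_D1 _ _) (OpPoly_const _ _)
        refine OpPoly_mono h1 ?_
        rw [← hcD]
        omega
      · apply OpPoly_smul
        have h2 := OpPoly_lie (OpPoly_const (k := k) 0 (x i)) (hu l)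
        rw [zero_add] at h2
        have h1 := OpPoly_word hc x ξ u lam hξ hu huD ls 1 D (fun μ => ⁅x i, u l μ⁆) le_rfl
          (fun _ => lie_mem_D1 _ _) h2
        rw [hcD] at h1
        exact h1
  · apply OpPoly_smul
    have h1 := OpPoly_word hc x ξ u lam hξ hu huD ls 1 D (u i) le_rfl (huD i) (hu i)
    rw [hcD] at h1
    exact h1

end

theorem opPoly : OpPolyProp.{u} := by
  intro k _ F _ _ n x c N lam g T hx hc hN hT w
  choose θ hθ hTw using hT
  have hw : w ∈ Submodule.span k {w : F | ∃ (i : Fin n) (ls : List (Fin n)),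
      w = wd (x i) (ls.map x)} := by
    rw [words_span hx]
    exact Submodule.mem_top
  induction hw using Submodule.span_induction with
  | mem w hw =>
    obtain ⟨i, ls, rfl⟩ := hw
    simp only [hTw]
    refine OpPoly_sum _ (fun j hj => OpPoly_sum _ (fun s _ => OpPoly_smul _ ?_))
    rw [Finset.mem_range] at hj
    have hm := hN j hj
    set m : ℕ := N / (j + 1) with hmdef
    have hmN : m ≤ N := Nat.div_le_self _ _
    have h1 := OpPoly_word0 (k := k) (c := c) (D := m * n) (by omega) hc x
      (fun l μ => θ μ s j (x l)) (fun l μ => pw k (mom k x μ) m (x l)) (lam s)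
      (fun l μ => hθ μ s j l) (fun l => pwPoly k F n x m (x l))
      (fun l μ => pw_mem_D1 hm _ _) ls i
    have h2 : (fun μ => θ μ s j (wd (x i) (ls.map x))) = fun μ =>
        wd (θ μ s j (x i)) (ls.map (fun l => θ μ s j (x l))) := by
      funext μ
      rw [wd_map (θ μ s j), List.map_map]
      rfl
    rw [h2]
    refine OpPoly_mono h1 ?_
    rw [mul_assoc]
    exact Nat.mul_le_mul_left _ (Nat.mul_le_mul_right _ hmN)
  | zero =>
    simp only [map_zero]
    exact OpPoly_zero _
  | add a b _ _ ha hb =>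
    simp only [map_add]
    exact OpPoly_add ha hb
  | smul r a _ ha =>
    simp only [map_smul]
    exact OpPoly_smul r ha

end Pool.Agent.Lib.MP_240c17_al.Tor
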