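import Pool.Agent.Lib.MP_240c17_al.Tor.Spec

/-!
Divisibility of `X ^ P * (X ^ Q - 1)` and `(X + 1) ^ (P + Q) - X ^ (P + Q) - 1` by a polynomial over a
finite field.
-/

set_option autoImplicit false

namespace Pool.Agent.Lib.MP_240c17_al.Tor

universe u

open Pool.Agent.Lib.MP_240c17_al.Two Polynomial

private theorem PolyDiv_periodic {A : Type u} [CommRing A] [Finite A] (x : A) (e t : ℕ)
    (he : Nat.card A ≤ e) (ht : (Nat.card A).factorial ∣ t) : x ^ (e + t) = x ^ e := by
  classical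
  have : Fintype A := Fintype.ofFinite A
  obtain ⟨i, j, hij, hx⟩ : ∃ i j : Fin (Nat.card A + 1), i < j ∧ x ^ (i : ℕ) = x ^ (j : ℕ) := by
    have hnot : ¬ Function.Injective (fun i : Fin (Nat.card A + 1) => x ^ (i : ℕ)) := by
      intro hinj
      have h1 := Fintype.card_le_of_injective _ hinj
      rw [Fintype.card_fin, Nat.card_eq_fintype_card] at h1
      omega
    rw [Function.Injective] at hnot
    push Not at hnot
    obtain ⟨a, b, hab, hne⟩ := hnot
    rcases lt_or_gt_of_ne hne with h | h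
    · exact ⟨a, b, h, hab⟩
    · exact ⟨b, a, h, hab.symm⟩
  have hij' : (i : ℕ) < j := hij
  have hj : (j : ℕ) ≤ Nat.card A := Nat.lt_succ_iff.1 j.2
  set d : ℕ := j - i with hd
  have hd0 : 0 < d := by omega
  have hstep : ∀ n, (i : ℕ) ≤ n → x ^ (n + d) = x ^ n := by
    intro n hn
    obtain ⟨l, rfl⟩ := Nat.exists_eq_add_of_le hn
    have e1 : (i : ℕ) + l + d = j + l := by omega
    rw [e1, pow_add, ← hx, ← pow_add]
  have hmul : ∀ l n, (i : ℕ) ≤ n → x ^ (n + l * d) = x ^ n := by
    intro l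
    induction l with
    | zero => intro n _; simp
    | succ l ih =>
      intro n hn
      have e1 : n + (l + 1) * d = (n + l * d) + d := by ring
      rw [e1, hstep _ (by omega), ih n hn]
  have hdt : d ∣ t := (Nat.dvd_factorial hd0 (by omega)).trans ht
  obtain ⟨l, rfl⟩ := hdt
  rw [mul_comm d l]
  exact hmul l e (by omega)

theorem polyDiv : PolyDivProp.{u} := by
  intro k _ p hp _ m r c hr hc hne
  classical
  have hp' : p.Prime := hp.out
  haveI : ExpChar k p := ExpChar.prime hp'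
  let F : Subfield k := (iterateFrobenius k p r).eqLocusField (RingHom.id k)
  have hF : ∀ x : k, x ∈ F ↔ x ^ p ^ r = x := by
    intro x
    show iterateFrobenius k p r x = RingHom.id k x ↔ _
    rw [iterateFrobenius_def, RingHom.id_apply]
  have hq : 1 < p ^ r := Nat.one_lt_pow hr.ne' hp'.one_lt
  haveI hFfin : Finite F := by
    have h1 : (X ^ p ^ r - X : k[X]) ≠ 0 := FiniteField.X_pow_card_sub_X_ne_zero k hq
    have h2 := Polynomial.finite_setOf_isRoot h1
    refine Set.Finite.subset h2 ?_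
    intro x hx
    have hx' : x ^ p ^ r = x := (hF x).1 hx
    simp [Polynomial.IsRoot, hx']
  let c' : ℕ → F := fun i => if h : i ≤ m then ⟨c i, (hF _).2 (hc i h)⟩ else 0
  let h₀ : F[X] := ∑ i ∈ Finset.range (m + 1), C (c' i) * X ^ i
  have hmap : h₀.map F.subtype = ∑ i ∈ Finset.range (m + 1), C (c i) * X ^ i := by
    rw [Polynomial.map_sum]
    apply Finset.sum_congr rfl
    intro i hi
    have hi' : i ≤ m := Nat.lt_succ_iff.1 (Finset.mem_range.1 hi)
    rw [Polynomial.map_mul, Polynomial.map_pow, Polynomial.map_C, Polynomial.map_X]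
    simp only [c', dif_pos hi']
    rfl
  have hcoef : ∀ i ≤ m, h₀.coeff i = c' i := by
    intro i hi
    simp only [h₀, Polynomial.finset_sum_coeff, Polynomial.coeff_C_mul, Polynomial.coeff_X_pow]
    rw [Finset.sum_eq_single i]
    · simp
    · intro j _ hj
      rw [if_neg (Ne.symm hj), mul_zero]
    · intro h
      exact absurd (Finset.mem_range.2 (Nat.lt_succ_iff.2 hi)) h
  have hh₀ : h₀ ≠ 0 := by
    intro h
    obtain ⟨i, hi, hci⟩ := hne
    have h1 := hcoef i hi
    rw [h, Polynomial.coeff_zero] at h1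
    apply hci
    have h2 : (c' i : k) = c i := by simp only [c', dif_pos hi]
    rw [← h2, ← h1]
    rfl
  haveI : Module.Finite F (AdjoinRoot h₀) := (AdjoinRoot.powerBasis hh₀).finite
  haveI : Finite (AdjoinRoot h₀) := Module.finite_of_finite F
  refine ⟨max m (Nat.card (AdjoinRoot h₀)), (Nat.card (AdjoinRoot h₀)).factorial, le_max_left _ _,
    Nat.factorial_pos _, ?_⟩
  intro s Q hs hQ
  have hP : Nat.card (AdjoinRoot h₀) ≤ p ^ s := (le_max_right _ _).trans hs
  have hQ' : (Nat.card (AdjoinRoot h₀)).factorial ∣ Q := (Dvd.intro_left _ rfl).trans hQ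
  haveI : CharP F p := inferInstance
  haveI : ExpChar F p := ExpChar.prime hp'
  have hdiv1 : h₀ ∣ X ^ p ^ s * (X ^ Q - 1) := by
    rw [← AdjoinRoot.mk_eq_zero]
    have h1 := PolyDiv_periodic (AdjoinRoot.mk h₀ X) (p ^ s) Q hP hQ'
    rw [map_mul, map_sub, map_pow, map_pow, map_one, mul_sub, ← pow_add, h1, mul_one, sub_self]
  have hdiv2 : h₀ ∣ (X + 1) ^ (p ^ s + Q) - X ^ (p ^ s + Q) - 1 := by
    rw [← AdjoinRoot.mk_eq_zero]
    have h1 := PolyDiv_periodic (AdjoinRoot.mk h₀ X) (p ^ s) Q hP hQ'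
    have h2 := PolyDiv_periodic (AdjoinRoot.mk h₀ (X + 1)) (p ^ s) Q hP hQ'
    have h3 : ((X : F[X]) + 1) ^ p ^ s = X ^ p ^ s + 1 := by
      rw [add_pow_expChar_pow, one_pow]
    rw [map_sub, map_sub, map_pow, map_pow, map_one, h1, h2, ← map_pow, ← map_pow, h3, map_add,
      map_one]
    ring
  refine ⟨?_, ?_⟩
  · have h1 := Polynomial.map_dvd F.subtype hdiv1
    rw [hmap] at h1
    simpa using h1
  · have h1 := Polynomial.map_dvd F.subtype hdiv2
    rw [hmap] at h1
    simpa using h1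

end Pool.Agent.Lib.MP_240c17_al.Tor
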