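import Pool.Agent.Lib.MP_240c17_al.Tor.Spec

/-!
# The ideal on which the operators are linear (T12)
-/

set_option autoImplicit false

namespace Pool.Agent.Lib.MP_240c17_al.Tor

universe u

open Pool.Agent.Lib.MP_240c17_al.Two

private theorem strLin_key {k : Type u} [Field k] {F : Type u} [AddCommGroup F] [Module k F]
    {d r : ℕ} {T : k → Module.End k F} (hdr : d < r) (hPF : ∀ w, PF k d (fun μ => T μ w))
    {node : Fin r → k} {ℓ : k → Fin r → k}
    (hℓ : ∀ (μ : k) (l : ℕ), l < r → μ ^ l = ∑ i, ℓ μ i * node i ^ l) (μ : k) (w : F) :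
    T μ w = ∑ i, ℓ μ i • T (node i) w := by
  obtain ⟨q, hq⟩ := hPF w
  have hq' : ∀ μ, T μ w = ∑ l ∈ Finset.range (d + 1), μ ^ l • q l := hq
  have h1 : ∀ i, ℓ μ i • T (node i) w =
      ∑ l ∈ Finset.range (d + 1), (ℓ μ i * node i ^ l) • q l := by
    intro i
    rw [hq', Finset.smul_sum]
    exact Finset.sum_congr rfl fun l _ => smul_smul _ _ _
  rw [hq', Finset.sum_congr rfl fun i _ => h1 i, Finset.sum_comm]
  refine Finset.sum_congr rfl fun l hl => ?_
  rw [← Finset.sum_smul, hℓ μ l (lt_of_le_of_lt (Nat.lt_succ_iff.1 (Finset.mem_range.1 hl)) hdr)]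

theorem strLin (h1 : MidProp.{u}) (h2 : LagrangeProp.{u}) : StrLinProp.{u} := by
  intro k _ F _ _ n x P₀ N d r L ν T hν hdr hPF hT
  let y : Fin L → F := fun i => mom k x (ν i)
  -- the properties on one of the ideals
  have hMid : ∀ l : List (Fin L), l.Nodup → l.length = r → ∀ a ∈ Mid k P₀ (l.map y),
      (∀ μ, T μ a ∈ Mid k P₀ (l.map y)) ∧ (∀ μ, ∀ z : F, T μ ⁅a, z⁆ = ⁅T μ a, z⁆) ∧
      ∀ μ μ', T μ (T μ' a) = T μ' (T μ a) := by
    intro l hl hlen a ha
    have hm := h1 k F (Fin L) P₀ N y (fun i => T (ν i)) (fun i w ls => hT (ν i) w ls) l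
    let nd : Fin r → Fin L := fun i => l.get (Fin.cast hlen.symm i)
    have hnd : ∀ i, nd i ∈ l := fun i => List.get_mem _ _
    have hinj : Function.Injective fun i => ν (nd i) := by
      intro i j hij
      have h3 := hν hij
      have h4 := (List.nodup_iff_injective_get.1 hl) h3
      exact Fin.cast_injective _ h4
    obtain ⟨ℓ, hℓ⟩ := h2 k r (fun i => ν (nd i)) hinj
    have key : ∀ μ w, T μ w = ∑ i, ℓ μ i • T (ν (nd i)) w :=
      strLin_key hdr hPF (node := fun i => ν (nd i)) hℓ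
    refine ⟨fun μ => ?_, fun μ z => ?_, fun μ μ' => ?_⟩
    · rw [key μ a]
      exact Submodule.sum_mem (Mid k P₀ (l.map y)).toSubmodule fun i _ =>
        (Mid k P₀ (l.map y)).smul_mem _ ((hm (nd i) (hnd i)).1 a ha)
    · rw [key μ ⁅a, z⁆, key μ a]
      have e1 : ⁅∑ i, ℓ μ i • T (ν (nd i)) a, z⁆ = ∑ i, ⁅ℓ μ i • T (ν (nd i)) a, z⁆ :=
        map_sum (adr k z) _ _
      rw [e1]
      refine Finset.sum_congr rfl fun i _ => ?_
      rw [smul_lie, (hm (nd i) (hnd i)).2.1 a ha z]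
    · have e1 : ∀ μ μ', T μ (T μ' a) =
          ∑ i, ∑ j, (ℓ μ i * ℓ μ' j) • T (ν (nd i)) (T (ν (nd j)) a) := by
        intro μ μ'
        rw [key μ (T μ' a)]
        refine Finset.sum_congr rfl fun i _ => ?_
        rw [key μ' a, map_sum, Finset.smul_sum]
        refine Finset.sum_congr rfl fun j _ => ?_
        rw [map_smul, smul_smul]
      rw [e1 μ μ', e1 μ' μ, Finset.sum_comm]
      refine Finset.sum_congr rfl fun j _ => Finset.sum_congr rfl fun i _ => ?_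
      rw [mul_comm, (hm (nd i) (hnd i)).2.2 (nd j) (hnd j) a ha]
  -- the properties on the sum
  have hle : ∀ l : List (Fin L), l.Nodup → l.length = r →
      Mid k P₀ (l.map y) ≤ GG k x P₀ ν r := by
    intro l hl hlen
    exact le_iSup₂_of_le (f := fun (l : List (Fin L)) (_ : l.Nodup ∧ l.length = r) =>
      Mid k P₀ (l.map fun i => mom k x (ν i))) l ⟨hl, hlen⟩ le_rfl
  have hGG : ∀ a ∈ GG k x P₀ ν r, (∀ μ, T μ a ∈ GG k x P₀ ν r) ∧
      (∀ μ, ∀ z : F, T μ ⁅a, z⁆ = ⁅T μ a, z⁆) ∧ ∀ μ μ', T μ (T μ' a) = T μ' (T μ a) := by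
    intro a ha
    unfold GG at ha
    rw [iSup_subtype' (p := fun l : List (Fin L) => l.Nodup ∧ l.length = r)
      (f := fun l _ => Mid k P₀ (l.map fun i => mom k x (ν i)))] at ha
    refine LieSubmodule.iSup_induction (motive := fun a => (∀ μ, T μ a ∈ GG k x P₀ ν r) ∧
      (∀ μ, ∀ z : F, T μ ⁅a, z⁆ = ⁅T μ a, z⁆) ∧ ∀ μ μ', T μ (T μ' a) = T μ' (T μ a)) _ ha
      ?_ ?_ ?_
    · rintro ⟨l, hl, hlen⟩ b hb
      obtain ⟨m1, m2, m3⟩ := hMid l hl hlen b hb
      exact ⟨fun μ => hle l hl hlen (m1 μ), m2, m3⟩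
    · refine ⟨fun μ => ?_, fun μ z => ?_, fun μ μ' => ?_⟩
      · rw [map_zero]
        exact (GG k x P₀ ν r).zero_mem
      · rw [zero_lie, map_zero, zero_lie]
      · simp only [map_zero]
    · rintro b c ⟨b1, b2, b3⟩ ⟨c1, c2, c3⟩
      refine ⟨fun μ => ?_, fun μ z => ?_, fun μ μ' => ?_⟩
      · rw [map_add]
        exact (GG k x P₀ ν r).add_mem (b1 μ) (c1 μ)
      · rw [add_lie, map_add, map_add, add_lie, b2, c2]
      · simp only [map_add, b3 μ μ', c3 μ μ']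
  refine ⟨fun μ a ha => (hGG a ha).1 μ, fun μ a ha z => (hGG a ha).2.1 μ z,
    fun μ μ' a ha => (hGG a ha).2.2 μ μ', fun μ a ha => ?_⟩
  have h3 : ∀ e : ℕ, pw k (mom k x μ) e (T μ a) = T μ (pw k (mom k x μ) e a) := by
    intro e
    induction e with
    | zero => simp
    | succ e ih =>
      rw [pw_succ, ih, pw_succ, (hGG _ (pw_mem ha _ _)).2.1 μ]
  rw [h3]
  exact hT μ a []

end Pool.Agent.Lib.MP_240c17_al.Tor
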