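import Pool.Agent.Lib.MP_240c17_al.Tor.Spec

/-!
Consequences of the identity (I): derivations and balancedness without letters.
-/

set_option autoImplicit false

namespace Pool.Agent.Lib.MP_240c17_al.Tor

universe u

open Pool.Agent.Lib.MP_240c17_al.Two Polynomial

/-- `f ↦ ∑ j ≤ D, f.coeff j • v j`. -/
private noncomputable def TorsionPhi (k : Type u) [Field k] {L : Type u} [AddCommGroup L]
    [Module k L] (D : ℕ) (v : ℕ → L) : k[X] →ₗ[k] L :=
  ∑ j ∈ Finset.range (D + 1), (Polynomial.lcoeff k j).smulRight (v j)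

private theorem TorsionPhi_apply (k : Type u) [Field k] {L : Type u} [AddCommGroup L]
    [Module k L] (D : ℕ) (v : ℕ → L) (f : k[X]) :
    TorsionPhi k D v f = ∑ j ∈ Finset.range (D + 1), f.coeff j • v j := by
  simp [TorsionPhi]

private theorem TorsionPhi_X_pow (k : Type u) [Field k] {L : Type u} [AddCommGroup L]
    [Module k L] (D : ℕ) (v : ℕ → L) (n : ℕ) (hn : n ≤ D) :
    TorsionPhi k D v (X ^ n) = v n := by
  rw [TorsionPhi_apply, Finset.sum_eq_single n]
  · simp
  · intro j _ hj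
    rw [Polynomial.coeff_X_pow, if_neg hj, zero_smul]
  · intro h
    exact absurd (Finset.mem_range.2 (Nat.lt_succ_iff.2 hn)) h

private theorem TorsionPhi_zero (k : Type u) [Field k] {L : Type u} [LieRing L] [LieAlgebra k L]
    (m D : ℕ) (c : ℕ → k) (hI : IdI k L m c) (y a b : L) (g : k[X])
    (hg : g = 0 ∨ m + g.natDegree ≤ D) :
    TorsionPhi k D (fun j => ⁅pw k y j a, pw k y (D - j) b⁆)
      ((∑ i ∈ Finset.range (m + 1), C (c i) * X ^ i) * g) = 0 := by
  rcases hg with rfl | hg
  · rw [mul_zero, map_zero]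
  rw [g.as_sum_range_C_mul_X_pow, Finset.mul_sum, map_sum]
  apply Finset.sum_eq_zero
  intro l hl
  have hl' : l ≤ g.natDegree := Nat.lt_succ_iff.1 (Finset.mem_range.1 hl)
  have e1 : (∑ i ∈ Finset.range (m + 1), C (c i) * X ^ i) * (C (g.coeff l) * X ^ l) =
      g.coeff l • ∑ i ∈ Finset.range (m + 1), c i • (X : k[X]) ^ (i + l) := by
    rw [Finset.sum_mul, Finset.smul_sum]
    apply Finset.sum_congr rfl
    intro i _
    rw [Polynomial.smul_eq_C_mul, Polynomial.smul_eq_C_mul, pow_add]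
    ring
  rw [e1, map_smul, map_sum]
  have e2 : ∑ i ∈ Finset.range (m + 1), TorsionPhi k D
      (fun j => ⁅pw k y j a, pw k y (D - j) b⁆) (c i • (X : k[X]) ^ (i + l)) =
      ∑ i ∈ Finset.range (m + 1), c i • ⁅pw k y i (pw k y l a),
        pw k y (m - i) (pw k y (D - m - l) b)⁆ := by
    apply Finset.sum_congr rfl
    intro i hi
    have hi' : i ≤ m := Nat.lt_succ_iff.1 (Finset.mem_range.1 hi)
    rw [map_smul, TorsionPhi_X_pow k D _ (i + l) (by omega), ← pw_add, ← pw_add,
      show m - i + (D - m - l) = D - (i + l) by omega]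
  rw [e2, hI (pw k y l a) (pw k y (D - m - l) b) y, smul_zero]

private theorem Torsion_deg (k : Type u) [Field k] (n : ℕ) :
    ((X + 1 : k[X]) ^ (1 + n) - X ^ (1 + n) - 1).natDegree ≤ n := by
  rw [Polynomial.natDegree_le_iff_coeff_eq_zero]
  intro N hN
  rw [Polynomial.coeff_sub, Polynomial.coeff_sub, Polynomial.coeff_X_add_one_pow,
    Polynomial.coeff_X_pow, Polynomial.coeff_one]
  have h1 : N ≠ 0 := by omega
  rw [if_neg h1]
  rcases Nat.lt_or_ge (1 + n) N with h | h
  · rw [Nat.choose_eq_zero_of_lt h, if_neg (by omega)]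
    simp
  · have h2 : N = 1 + n := by omega
    rw [if_pos h2, h2, Nat.choose_self]
    simp

theorem torsion (h : PolyDivProp.{u}) : TorsionProp.{u} := by
  intro k _ p hp _ m r c hr hc hne
  have hp' : p.Prime := hp.out
  have : ExpChar k p := ExpChar.prime hp'
  obtain ⟨B, M, hmB, hM, hdiv⟩ := h k p m r c hr hc hne
  refine ⟨B, M, hM, ?_⟩
  intro L _ _ hI s Q hs hQ
  obtain ⟨hd1, hd2⟩ := hdiv s Q hs hQ
  have hh0 : (∑ i ∈ Finset.range (m + 1), C (c i) * X ^ i : k[X]) ≠ 0 := by
    intro h0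
    obtain ⟨i, hi, hci⟩ := hne
    apply hci
    have h1 : (∑ i ∈ Finset.range (m + 1), C (c i) * X ^ i : k[X]).coeff i = c i := by
      simp only [Polynomial.finsetSum_coeff, Polynomial.coeff_C_mul, Polynomial.coeff_X_pow]
      rw [Finset.sum_eq_single i]
      · simp
      · intro j _ hj
        rw [if_neg (Ne.symm hj), mul_zero]
      · intro h
        exact absurd (Finset.mem_range.2 (Nat.lt_succ_iff.2 hi)) h
    rw [← h1, h0, Polynomial.coeff_zero]
  have hmP : m ≤ p ^ s := hmB.trans hs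
  have hQP : p ^ s ∣ Q := (Dvd.intro _ rfl).trans hQ
  have hPpos : 0 < p ^ s := pow_pos hp'.pos s
  constructor
  · intro y a b
    obtain ⟨g, hg⟩ := hd2
    obtain ⟨Q', hQ'⟩ := hQP
    have hdeg : ((X + 1 : k[X]) ^ (p ^ s + Q) - X ^ (p ^ s + Q) - 1).natDegree ≤ Q := by
      have e1 : (X + 1 : k[X]) ^ (p ^ s + Q) - X ^ (p ^ s + Q) - 1 =
          ((X + 1) ^ (1 + Q') - X ^ (1 + Q') - 1) ^ p ^ s := by
        rw [sub_pow_expChar_pow, sub_pow_expChar_pow, one_pow, ← pow_mul, ← pow_mul, hQ',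
          show (1 + Q') * p ^ s = p ^ s + p ^ s * Q' by ring]
      rw [e1]
      refine Polynomial.natDegree_pow_le.trans ?_
      rw [hQ']
      exact Nat.mul_le_mul_left _ (Torsion_deg k Q')
    have hgD : g = 0 ∨ m + g.natDegree ≤ p ^ s + Q := by
      by_cases hg0 : g = 0
      · exact Or.inl hg0
      · right
        have h1 := Polynomial.natDegree_mul hh0 hg0
        rw [← hg] at h1
        omega
    have h2 := TorsionPhi_zero k m (p ^ s + Q) c hI y a b g hgD
    rw [← hg, map_sub, map_sub, TorsionPhi_X_pow k _ _ _ le_rfl,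
      show (1 : k[X]) = X ^ 0 by rw [pow_zero], TorsionPhi_X_pow k _ _ 0 (Nat.zero_le _),
      TorsionPhi_apply, pow_zero] at h2
    simp only [Polynomial.coeff_X_add_one_pow, Nat.cast_smul_eq_nsmul, Nat.sub_self, pw_zero,
      Nat.sub_zero] at h2
    rw [pw_lie]
    rw [sub_sub, sub_eq_zero] at h2
    exact h2
  · intro y a b zs hz
    have hz' : zs = [] := List.length_eq_zero_iff.1 (Nat.le_zero.1 hz)
    rw [hz', wd_nil, wd_nil]
    obtain ⟨g, hg⟩ := hd1
    have hdeg : (X ^ p ^ s * (X ^ Q - 1) : k[X]).natDegree ≤ p ^ s + Q := by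
      refine Polynomial.natDegree_mul_le.trans ?_
      rw [Polynomial.natDegree_X_pow]
      have h3 : (X ^ Q - 1 : k[X]).natDegree ≤ Q := by
        refine (Polynomial.natDegree_sub_le _ _).trans ?_
        rw [Polynomial.natDegree_X_pow, Polynomial.natDegree_one]
        omega
      omega
    have hgD : g = 0 ∨ m + g.natDegree ≤ 2 * p ^ s + Q := by
      by_cases hg0 : g = 0
      · exact Or.inl hg0
      · right
        have h1 := Polynomial.natDegree_mul hh0 hg0
        rw [← hg] at h1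
        omega
    have h2 := TorsionPhi_zero k m (2 * p ^ s + Q) c hI y a b g hgD
    rw [← hg, mul_sub, mul_one, ← pow_add, map_sub, TorsionPhi_X_pow k _ _ _ (by omega),
      TorsionPhi_X_pow k _ _ _ (by omega), sub_eq_zero] at h2
    rw [show 2 * p ^ s + Q - (p ^ s + Q) = p ^ s by omega,
      show 2 * p ^ s + Q - p ^ s = p ^ s + Q by omega] at h2
    exact h2

end Pool.Agent.Lib.MP_240c17_al.Tor
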