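import Pool.Agent.Lib.MP_240c17_al.Tor.Spec

/-!
Balancedness for words of arbitrary length from balancedness for words of bounded length.
-/

set_option autoImplicit false

namespace Pool.Agent.Lib.MP_240c17_al.Tor

universe u

open Pool.Agent.Lib.MP_240c17_al.Two

section

variable {k : Type u} [Field k] {L : Type u} [LieRing L] [LieAlgebra k L]

/-- moving a letter to the left -/
private theorem Unbounded_swap (A w z : L) (f g : List L) :
    wd A (f ++ [w] ++ z :: g) = wd A (f ++ z :: w :: g) + wd A (f ++ ⁅w, z⁆ :: g) := by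
  simp only [wd_append, wd_cons, wd_nil]
  rw [lie_lie_swap (wd A f) w z, wd_add]

/-- expansion of a bracket with a derivative -/
private theorem Unbounded_expand {x e : ℕ} (hx : Der k L x) (he : Der k L e) (y a z : L) :
    ⁅pw k y (x + e) a, z⁆ = pw k y (x + e) ⁅a, z⁆ + ⁅pw k y e z, pw k y x a⁆ +
      ⁅pw k y (x + e) z, a⁆ - ⁅pw k y e a, pw k y x z⁆ := by
  have h1 : pw k y (x + e) ⁅a, z⁆ = ⁅pw k y (x + e) a, z⁆ + ⁅pw k y e a, pw k y x z⁆ +
      (⁅pw k y x a, pw k y e z⁆ + ⁅a, pw k y (x + e) z⁆) := by
    rw [pw_add, he y a z, map_add, hx y _ _, hx y _ _, ← pw_add, ← pw_add]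
  rw [h1, ← lie_skew (pw k y x a) (pw k y e z), ← lie_skew a (pw k y (x + e) z)]
  abel

/-- the basic equation -/
private def UnboundedEq (k : Type u) [Field k] {L : Type u} [LieRing L] [LieAlgebra k L]
    (y : L) (P Q e : ℕ) (a : L) (zs : List L) (b : L) : Prop :=
  ⁅wd (pw k y (P + Q + e) a) zs, pw k y P b⁆ = ⁅wd (pw k y (P + e) a) zs, pw k y (P + Q) b⁆

open Classical in
/-- number of letters in the derived algebra -/
private noncomputable def UnboundedIn (k : Type u) [Field k] {L : Type u} [LieRing L]
    [LieAlgebra k L] (zs : List L) : ℕ := zs.countP (fun z => decide (z ∈ D1 k L))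

open Classical in
/-- number of letters outside the derived algebra -/
private noncomputable def UnboundedOut (k : Type u) [Field k] {L : Type u} [LieRing L]
    [LieAlgebra k L] (zs : List L) : ℕ := zs.countP (fun z => decide (z ∉ D1 k L))

private theorem UnboundedIn_cons_mem {z : L} (hz : z ∈ D1 k L) (g : List L) :
    UnboundedIn k (z :: g) = UnboundedIn k g + 1 := by
  unfold UnboundedIn
  rw [List.countP_cons]
  simp [hz]

private theorem UnboundedIn_cons_notMem {z : L} (hz : z ∉ D1 k L) (g : List L) :
    UnboundedIn k (z :: g) = UnboundedIn k g := by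
  unfold UnboundedIn
  rw [List.countP_cons]
  simp [hz]

private theorem UnboundedIn_cons_le (z : L) (g : List L) :
    UnboundedIn k (z :: g) ≤ UnboundedIn k g + 1 := by
  unfold UnboundedIn
  rw [List.countP_cons]
  split_ifs <;> omega

private theorem UnboundedOut_cons_mem {z : L} (hz : z ∈ D1 k L) (g : List L) :
    UnboundedOut k (z :: g) = UnboundedOut k g := by
  unfold UnboundedOut
  rw [List.countP_cons]
  simp [hz]

private theorem UnboundedOut_cons_notMem {z : L} (hz : z ∉ D1 k L) (g : List L) :
    UnboundedOut k (z :: g) = UnboundedOut k g + 1 := by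
  unfold UnboundedOut
  rw [List.countP_cons]
  simp [hz]

private theorem UnboundedOut_le_cons (z : L) (g : List L) :
    UnboundedOut k g ≤ UnboundedOut k (z :: g) := by
  unfold UnboundedOut
  rw [List.countP_cons]
  omega

private theorem UnboundedIn_append (f g : List L) :
    UnboundedIn k (f ++ g) = UnboundedIn k f + UnboundedIn k g := by
  unfold UnboundedIn
  rw [List.countP_append]

private theorem UnboundedOut_append (f g : List L) :
    UnboundedOut k (f ++ g) = UnboundedOut k f + UnboundedOut k g := by
  unfold UnboundedOut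
  rw [List.countP_append]

private theorem UnboundedOut_nil : UnboundedOut k ([] : List L) = 0 := rfl
private theorem UnboundedIn_nil : UnboundedIn k ([] : List L) = 0 := rfl

private theorem Unbounded_length (zs : List L) :
    UnboundedIn k zs + UnboundedOut k zs = zs.length := by
  induction zs with
  | nil => rfl
  | cons z g ih =>
    by_cases hz : z ∈ D1 k L
    · rw [UnboundedIn_cons_mem hz, UnboundedOut_cons_mem hz, List.length_cons]
      omega
    · rw [UnboundedIn_cons_notMem hz, UnboundedOut_cons_notMem hz, List.length_cons]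
      omega

private theorem Unbounded_exists (zs : List L) (h : UnboundedOut k zs ≠ 0) :
    ∃ z ∈ zs, z ∉ D1 k L := by
  classical
  unfold UnboundedOut at h
  by_contra hcon
  push Not at hcon
  apply h
  rw [List.countP_eq_zero]
  intro z hz
  simp [hcon z hz]

/-- many letters in the derived algebra: everything is zero -/
private theorem Unbounded_zero {c : ℕ} (hc : gam k L (c + 1) = ⊥) (y : L) (P Q e : ℕ) {a : L}
    (ha : a ∈ gam k L 1) (zs : List L) (hz : c ≤ UnboundedIn k zs) (b : L) :
    UnboundedEq k y P Q e a zs b := by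
  classical
  have h1 : ∀ x : ℕ, wd (pw k y x a) zs = 0 := by
    intro x
    have h2 := wd_mem_gam (k := k) (i := 1) le_rfl (pw_mem ha y x) zs
    have h3 : wd (pw k y x a) zs ∈ gam k L (c + 1) := by
      refine gam_anti ?_ h2
      have h4 : UnboundedIn k zs = zs.countP (fun z => decide (z ∈ D1 k L)) := by
        unfold UnboundedIn
        congr
      omega
    rw [hc] at h3
    simpa using h3
  unfold UnboundedEq
  rw [h1, h1, zero_lie, zero_lie]

/-- the induction step for `j` -/
private theorem Unbounded_step {c : ℕ} (hc : gam k L (c + 1) = ⊥) (y : L) {P Q e e' j : ℕ}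
    (hP : 0 < P) (hP1 : Der k L (P + Q)) (hP0 : Der k L P) (hB : BalW k L c P Q)
    (he : Der k L e) (hee : e' + P + 1 ≤ e)
    (hnext : ∀ x, e' ≤ x → ∀ a ∈ gam k L 1, ∀ (b : L) (zs : List L), j + 1 ≤ UnboundedIn k zs →
      UnboundedEq k y P Q x a zs b) :
    ∀ (n : ℕ) (zs : List L), UnboundedOut k zs = n → ∀ a ∈ gam k L 1, ∀ b : L,
      j ≤ UnboundedIn k zs → UnboundedEq k y P Q e a zs b := by
  have hB0 : ∀ a b : L, ⁅pw k y (P + Q) a, pw k y P b⁆ = ⁅pw k y P a, pw k y (P + Q) b⁆ :=
    fun a b => hB y a b [] (Nat.zero_le _)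
  intro n
  induction n using Nat.strong_induction_on with
  | _ n ih =>
    intro zs hzs a ha b hj
    rcases Nat.eq_zero_or_pos n with hn | hn
    · have hlen := Unbounded_length (k := k) zs
      rcases Nat.lt_or_ge c zs.length with hl | hl
      · exact Unbounded_zero hc y P Q e ha zs (by omega) b
      · have h1 := hB y (pw k y e a) b zs hl
        rw [← pw_add, ← pw_add] at h1
        exact h1
    · obtain ⟨z, hz, hzD⟩ := Unbounded_exists (k := k) zs (by omega)
      obtain ⟨f, g, rfl⟩ := List.append_of_mem hz
      clear hz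
      induction f using List.reverseRecOn generalizing g with
      | nil =>
        simp only [List.nil_append] at hzs hj ⊢
        rw [UnboundedOut_cons_notMem hzD] at hzs
        rw [UnboundedIn_cons_notMem hzD] at hj
        unfold UnboundedEq
        rw [wd_cons, wd_cons, Unbounded_expand hP1 he, Unbounded_expand hP0 he]
        simp only [wd_add, wd_sub, add_lie, sub_lie]
        have hz1 : pw k y 1 z ∈ gam k L 1 := pw_mem_D1 one_pos y z
        have hzP : pw k y P z ∈ D1 k L := pw_mem_D1 hP y z
        have haD : a ∈ D1 k L := ha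
        have haP : pw k y P a ∈ D1 k L := pw_mem haD y P
        have haz : ⁅a, z⁆ ∈ gam k L 1 := lie_mem_right ha z
        -- first terms
        have h1 : ⁅wd (pw k y (P + Q + e) ⁅a, z⁆) g, pw k y P b⁆ =
            ⁅wd (pw k y (P + e) ⁅a, z⁆) g, pw k y (P + Q) b⁆ :=
          ih (n - 1) (by omega) g (by omega) _ haz b hj
        have h2 : ⁅wd ⁅pw k y e z, pw k y (P + Q) a⁆ g, pw k y P b⁆ =
            ⁅wd ⁅pw k y e z, pw k y P a⁆ g, pw k y (P + Q) b⁆ := by
          have k1 := hnext (e - P - 1) (by omega) _ hz1 b (pw k y P a :: g)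
            (by rw [UnboundedIn_cons_mem haP]; omega)
          unfold UnboundedEq at k1
          rw [wd_cons, wd_cons, ← pw_add, ← pw_add,
            show P + (e - P - 1) + 1 = e by omega,
            show P + Q + (e - P - 1) + 1 = P + Q + (e - P) by omega, pw_add k y (P + Q) (e - P),
            hB0, ← pw_add, show P + (e - P) = e by omega] at k1
          exact k1
        have h3 : ⁅wd ⁅pw k y (P + Q + e) z, a⁆ g, pw k y P b⁆ =
            ⁅wd ⁅pw k y (P + e) z, a⁆ g, pw k y (P + Q) b⁆ := by
          have k1 := hnext (e - 1) (by omega) _ hz1 b (a :: g)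
            (by rw [UnboundedIn_cons_mem haD]; omega)
          unfold UnboundedEq at k1
          rw [wd_cons, wd_cons, ← pw_add, ← pw_add,
            show P + (e - 1) + 1 = P + e by omega,
            show P + Q + (e - 1) + 1 = P + Q + e by omega] at k1
          exact k1
        have h4 : ⁅wd ⁅pw k y e a, pw k y (P + Q) z⁆ g, pw k y P b⁆ =
            ⁅wd ⁅pw k y e a, pw k y P z⁆ g, pw k y (P + Q) b⁆ := by
          have k1 := hnext (e - P) (by omega) _ ha b (pw k y P z :: g)
            (by rw [UnboundedIn_cons_mem hzP]; omega)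
          unfold UnboundedEq at k1
          rw [wd_cons, wd_cons, pw_add k y (P + Q) (e - P), hB0, ← pw_add,
            show P + (e - P) = e by omega] at k1
          exact k1
        rw [h1, h2, h3, h4]
      | append_singleton f w ihf =>
        unfold UnboundedEq
        rw [Unbounded_swap, Unbounded_swap, add_lie, add_lie]
        rw [UnboundedOut_append, UnboundedOut_append, UnboundedOut_cons_notMem hzD] at hzs
        rw [UnboundedIn_append, UnboundedIn_append, UnboundedIn_cons_notMem hzD] at hj
        have hwz : ⁅w, z⁆ ∈ D1 k L := lie_mem_D1 w z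
        have h1 : UnboundedEq k y P Q e a (f ++ z :: (w :: g)) b := by
          apply ihf (w :: g)
          · rw [UnboundedOut_append, UnboundedOut_cons_notMem hzD]
            by_cases hw : w ∈ D1 k L
            · rw [UnboundedOut_cons_mem hw] at hzs ⊢
              rw [UnboundedOut_nil] at hzs
              omega
            · rw [UnboundedOut_cons_notMem hw] at hzs ⊢
              rw [UnboundedOut_nil] at hzs
              omega
          · rw [UnboundedIn_append, UnboundedIn_cons_notMem hzD]
            by_cases hw : w ∈ D1 k L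
            · rw [UnboundedIn_cons_mem hw] at hj ⊢
              rw [UnboundedIn_nil] at hj
              omega
            · rw [UnboundedIn_cons_notMem hw] at hj ⊢
              rw [UnboundedIn_nil] at hj
              omega
        have h2 : UnboundedEq k y P Q e a (f ++ ⁅w, z⁆ :: g) b := by
          apply ih (UnboundedOut k (f ++ ⁅w, z⁆ :: g)) ?_ _ rfl a ha b
          · rw [UnboundedIn_append, UnboundedIn_cons_mem hwz]
            have := UnboundedIn_cons_le (k := k) w []
            rw [UnboundedIn_nil] at this
            omega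
          · rw [UnboundedOut_append, UnboundedOut_cons_mem hwz]
            omega
        unfold UnboundedEq at h1 h2
        rw [h1, h2]

end

theorem unbounded : UnboundedProp.{u} := by
  intro k _ p hp _ L _ _ c s Q hc hD hDQ hB y a b zs
  have hp' : p.Prime := hp.out
  have hPpos : 0 < p ^ s := pow_pos hp'.pos s
  have hclaim : ∀ i : ℕ, i ≤ c → ∀ x, p ^ s * p ^ (2 * i) ≤ x → ∀ a ∈ gam k L 1, ∀ (b : L)
      (zs : List L), c - i ≤ UnboundedIn k zs → UnboundedEq k y (p ^ s) Q x a zs b := by
    intro i
    induction i with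
    | zero =>
      intro _ x _ a ha b zs hz
      exact Unbounded_zero hc y _ Q x ha zs (by omega) b
    | succ i ih =>
      intro hi x hx a ha b zs hz
      -- reduction to the exact exponent
      have hmain := Unbounded_step (k := k) hc y (P := p ^ s) (Q := Q)
        (e := p ^ s * p ^ (2 * (i + 1))) (e' := p ^ s * p ^ (2 * i)) (j := c - (i + 1)) hPpos hDQ
        (hD s) hB (by rw [← pow_add]; exact hD _) (by
          have h2 : 2 ≤ p := hp'.two_le
          have h4 : p ^ (2 * (i + 1)) = p ^ (2 * i) * (p * p) := by ring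
          have h5 : 4 ≤ p * p := Nat.mul_le_mul h2 h2
          have h6 : 1 ≤ p ^ (2 * i) := Nat.one_le_pow _ _ hp'.pos
          rw [h4]
          have h7 : p ^ s * p ^ (2 * i) * 4 ≤ p ^ s * (p ^ (2 * i) * (p * p)) := by
            rw [← mul_assoc]
            exact Nat.mul_le_mul_left _ h5
          have h8 : p ^ s ≤ p ^ s * p ^ (2 * i) := Nat.le_mul_of_pos_right _ (by omega)
          omega)
        (fun x hx a ha b zs hz => ih (by omega) x hx a ha b zs (by omega))
      obtain ⟨t, rfl⟩ := Nat.exists_eq_add_of_le hx
      have h1 := hmain _ zs rfl (pw k y t a) (pw_mem ha y t) b hz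
      unfold UnboundedEq at h1 ⊢
      rw [← pw_add, ← pw_add] at h1
      rw [← add_assoc, ← add_assoc]
      exact h1
  have h1 := hclaim c le_rfl (p ^ s * p ^ (2 * c)) le_rfl (pw k y 1 a) (pw_mem_D1 one_pos y a)
    (pw k y (p ^ s * p ^ (2 * c) + 1) b) zs (by omega)
  unfold UnboundedEq at h1
  rw [← pw_add, ← pw_add, ← pw_add, ← pw_add] at h1
  rw [show p ^ s * (p ^ (2 * c) + 1) + 1 + Q = p ^ s + Q + p ^ s * p ^ (2 * c) + 1 by ring,
    show p ^ s * (p ^ (2 * c) + 1) + 1 = p ^ s + p ^ s * p ^ (2 * c) + 1 by ring]
  rw [← add_assoc, ← add_assoc] at h1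
  rw [h1]

end Pool.Agent.Lib.MP_240c17_al.Tor
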