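import Pool.Agent.Lib.MP_240c17_al.Tor.Spec
import Pool.Agent.Lib.MP_240c17_al.Tor.Vand

/-!
(T20) Commuting families with `z μ * T μ ^ a = z μ ^ (1 + b)`.
-/

set_option autoImplicit false

namespace Pool.Agent.Lib.MP_240c17_al.Tor

universe u

open Pool.Agent.Lib.MP_240c17_al.Two

open Polynomial

private theorem x0_poly_zero {k : Type u} [Field k] [Infinite k] {B : Type u} [CommRing B]
    [Algebra k B] (F : B[X]) (h : ∀ l : k, F.eval (algebraMap k B l) = 0) : F = 0 := by
  ext i
  rw [coeff_zero]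
  apply (Module.forall_dual_apply_eq_zero_iff k (F.coeff i)).mp
  intro f
  set G : k[X] := ∑ i ∈ Finset.range (F.natDegree + 1), C (f (F.coeff i)) * X ^ i with hG
  have h1 : G = 0 := by
    apply Polynomial.funext
    intro r
    rw [eval_zero, hG, eval_finsetSum]
    have h2 := congrArg f (h r)
    rw [eval_eq_sum_range, map_sum, map_zero] at h2
    rw [← h2]
    apply Finset.sum_congr rfl
    intro j _
    rw [eval_mul, eval_C, eval_pow, eval_X, ← map_pow, mul_comm (F.coeff j), ← Algebra.smul_def,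
      map_smul, smul_eq_mul, mul_comm]
  by_cases hi : i ≤ F.natDegree
  · have h2 := congrArg (fun p => coeff p i) h1
    simp only [hG, finsetSum_coeff, coeff_C_mul, coeff_X_pow, mul_ite, mul_one, mul_zero,
      coeff_zero] at h2
    rw [Finset.sum_eq_single i] at h2
    · rwa [if_pos rfl] at h2
    · intro j _ hj
      rw [if_neg (fun hh => hj hh.symm)]
    · intro hn
      exact absurd (Finset.mem_range.mpr (by omega)) hn
  · rw [coeff_eq_zero_of_natDegree_lt (by omega), map_zero]

/-- The Taylor coefficients. -/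
private theorem x0_taylor {B : Type u} [CommRing B] (f g : B[X]) (h : f * g = 0) (l : ℕ) :
    f.coeff 0 ^ (l + 1) * g.coeff l = 0 := by
  induction l using Nat.strong_induction_on with
  | _ l ih =>
    have h1 := congrArg (fun p => f.coeff 0 ^ l * coeff p l) h
    simp only [coeff_mul, coeff_zero, mul_zero, Finset.mul_sum] at h1
    rw [Finset.sum_eq_single (0, l)] at h1
    · rw [pow_succ, mul_assoc]
      exact h1
    · rintro ⟨i, j⟩ hij hne
      rw [Finset.HasAntidiagonal.mem_antidiagonal] at hij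
      simp only at hij ⊢
      have hj : j < l := by
        rcases Nat.eq_or_lt_of_le (show j ≤ l by omega) with h2 | h2
        · exfalso
          apply hne
          rw [Prod.mk.injEq]
          omega
        · exact h2
      obtain ⟨t, ht⟩ := Nat.exists_eq_add_of_le' (show j + 1 ≤ l by omega)
      have h3 := ih j hj
      calc f.coeff 0 ^ l * (f.coeff i * g.coeff j) =
          f.coeff 0 ^ t * f.coeff i * (f.coeff 0 ^ (j + 1) * g.coeff j) := by
            rw [ht, pow_add]; ring
        _ = 0 := by rw [h3, mul_zero]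
    · intro hn
      exfalso
      apply hn
      rw [Finset.HasAntidiagonal.mem_antidiagonal]
      omega

/-- Coefficient operators. -/
private theorem x0_coeff {k : Type u} [Field k] [Infinite k] {X : Type u} [AddCommGroup X]
    [Module k X] (d : ℕ) (z : k → Module.End k X) (hz : ∀ w, PF k d (fun μ => z μ w)) :
    ∃ Z : ℕ → Module.End k X, (∀ l, Z l ∈ Submodule.span k (Set.range z)) ∧
      ∀ μ, z μ = ∑ l ∈ Finset.range (d + 1), μ ^ l • Z l := by
  obtain ⟨lam, g, hg⟩ := weights k d
  refine ⟨fun i => ∑ s ∈ Finset.range (d + 1), g i s • z (lam s), ?_, ?_⟩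
  · intro l
    exact Submodule.sum_mem _ fun s _ => Submodule.smul_mem _ _
      (Submodule.subset_span ⟨lam s, rfl⟩)
  · intro μ
    apply LinearMap.ext
    intro w
    obtain ⟨q, hq⟩ := hz w
    have hq' : ∀ μ, z μ w = ∑ l ∈ Finset.range (d + 1), μ ^ l • q l := hq
    rw [hq', LinearMap.sum_apply]
    apply Finset.sum_congr rfl
    intro l hl
    rw [Finset.mem_range] at hl
    rw [LinearMap.smul_apply, LinearMap.sum_apply]
    congr 1
    simp only [LinearMap.smul_apply, hq', Finset.smul_sum]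
    rw [Finset.sum_comm]
    have h4 : ∀ i ∈ Finset.range (d + 1), ∑ s ∈ Finset.range (d + 1),
        g l s • lam s ^ i • q i = if i = l then q l else 0 := by
      intro i hi
      rw [Finset.mem_range] at hi
      simp only [smul_smul]
      rw [← Finset.sum_smul, hg l (by omega) i (by omega)]
      by_cases h : l = i
      · rw [if_pos h, if_pos h.symm, one_smul, h]
      · rw [if_neg h, if_neg (fun h' => h h'.symm), zero_smul]
    rw [Finset.sum_congr rfl h4, Finset.sum_ite_eq' (Finset.range (d + 1)) l,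
      if_pos (Finset.mem_range.mpr hl)]

theorem x0 : X0Prop.{u} := by
  intro k _ _ X _ _ d a b z T hz hT hzz hTT hzT hrel
  obtain ⟨Z, hZ, hzZ⟩ := x0_coeff d z hz
  obtain ⟨C', hC, hTC⟩ := x0_coeff d T hT
  -- the commutative algebra
  let A : Subalgebra k (Module.End k X) := Algebra.adjoin k (Set.range z ∪ Set.range T)
  letI : CommRing A := Algebra.adjoinCommRingOfComm k (by
    rintro _ (⟨μ, rfl⟩ | ⟨μ, rfl⟩) _ (⟨μ', rfl⟩ | ⟨μ', rfl⟩)
    · exact hzz μ μ'
    · exact hzT μ μ'
    · exact (hzT μ' μ).symm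
    · exact hTT μ μ')
  have hzA : ∀ μ, z μ ∈ A := fun μ => Algebra.subset_adjoin (Or.inl ⟨μ, rfl⟩)
  have hTA : ∀ μ, T μ ∈ A := fun μ => Algebra.subset_adjoin (Or.inr ⟨μ, rfl⟩)
  have hZA : ∀ l, Z l ∈ A := by
    intro l
    have h : Submodule.span k (Set.range z) ≤ Subalgebra.toSubmodule A := by
      rw [Submodule.span_le]
      rintro _ ⟨μ, rfl⟩
      exact hzA μ
    exact h (hZ l)
  have hCA : ∀ l, C' l ∈ A := by
    intro l
    have h : Submodule.span k (Set.range T) ≤ Subalgebra.toSubmodule A := by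
      rw [Submodule.span_le]
      rintro _ ⟨μ, rfl⟩
      exact hTA μ
    exact h (hC l)
  let f : A[X] := ∑ l ∈ Finset.range (d + 1), C (⟨Z l, hZA l⟩ : A) * Polynomial.X ^ l
  let h : A[X] := ∑ l ∈ Finset.range (d + 1), C (⟨C' l, hCA l⟩ : A) * Polynomial.X ^ l
  have hf : ∀ μ, f.eval (algebraMap k A μ) = ⟨z μ, hzA μ⟩ := by
    intro μ
    apply Subtype.ext
    show ((f.eval (algebraMap k A μ) : A) : Module.End k X) = z μ
    rw [hzZ μ, eval_finsetSum, ← A.coe_val, map_sum]
    apply Finset.sum_congr rfl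
    intro l _
    rw [eval_mul, eval_C, eval_pow, eval_X, ← map_pow, mul_comm, ← Algebra.smul_def, map_smul]
    rfl
  have hh : ∀ μ, h.eval (algebraMap k A μ) = ⟨T μ, hTA μ⟩ := by
    intro μ
    apply Subtype.ext
    show ((h.eval (algebraMap k A μ) : A) : Module.End k X) = T μ
    rw [hTC μ, eval_finsetSum, ← A.coe_val, map_sum]
    apply Finset.sum_congr rfl
    intro l _
    rw [eval_mul, eval_C, eval_pow, eval_X, ← map_pow, mul_comm, ← Algebra.smul_def, map_smul]
    rfl
  let g : A[X] := h ^ a - f ^ b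
  have hg : ∀ μ, ((g.eval (algebraMap k A μ) : A) : Module.End k X) = T μ ^ a - z μ ^ b := by
    intro μ
    show (((h ^ a - f ^ b).eval (algebraMap k A μ) : A) : Module.End k X) = _
    rw [eval_sub, eval_pow, eval_pow, hf, hh]
    rfl
  have hfg : f * g = 0 := by
    apply x0_poly_zero (k := k)
    intro μ
    apply Subtype.ext
    rw [eval_mul, hf]
    show z μ * ((g.eval (algebraMap k A μ) : A) : Module.End k X) = 0
    rw [hg, mul_sub, hrel, pow_add, pow_one, sub_self]
  have hkill : ∀ μ₀ μ, z μ₀ ^ (g.natDegree + 1) * (T μ ^ a - z μ ^ b) = 0 := by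
    intro μ₀ μ
    let s : A[X] := Polynomial.X + C (algebraMap k A μ₀)
    have h1 : f.comp s * g.comp s = 0 := by
      rw [← mul_comp, hfg, zero_comp]
    have h2 : (f.comp s).coeff 0 = ⟨z μ₀, hzA μ₀⟩ := by
      rw [coeff_zero_eq_eval_zero, eval_comp]
      show f.eval ((Polynomial.X + C (algebraMap k A μ₀) : A[X]).eval 0) = _
      rw [eval_add, eval_X, eval_C, zero_add, hf]
    have h3 : (g.comp s).natDegree ≤ g.natDegree := by
      refine natDegree_comp_le.trans ?_
      have h4 : s.natDegree ≤ 1 := natDegree_add_C.le.trans natDegree_X_le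
      calc g.natDegree * s.natDegree ≤ g.natDegree * 1 := Nat.mul_le_mul_left _ h4
        _ = g.natDegree := mul_one _
    have h4 : C ((⟨z μ₀, hzA μ₀⟩ : A) ^ (g.natDegree + 1)) * g.comp s = 0 := by
      ext l
      rw [coeff_C_mul, coeff_zero]
      by_cases hl : l ≤ g.natDegree
      · have h5 := x0_taylor _ _ h1 l
        rw [h2] at h5
        obtain ⟨t, ht⟩ := Nat.exists_eq_add_of_le hl
        rw [show g.natDegree + 1 = t + (l + 1) by omega, pow_add, mul_assoc, h5, mul_zero]
      · rw [coeff_eq_zero_of_natDegree_lt (by omega), mul_zero]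
    have h5 := congrArg (fun q : A[X] => q.eval (algebraMap k A (μ - μ₀))) h4
    simp only [eval_mul, eval_C, eval_comp, eval_zero] at h5
    have h6 : s.eval (algebraMap k A (μ - μ₀)) = algebraMap k A μ := by
      show (Polynomial.X + C (algebraMap k A μ₀) : A[X]).eval (algebraMap k A (μ - μ₀)) = _
      rw [eval_add, eval_X, eval_C, ← map_add, sub_add_cancel]
    rw [h6] at h5
    have h7 := congrArg (fun q : A => (q : Module.End k X)) h5
    rw [← hg]
    exact h7
  refine ⟨⨆ μ, LinearMap.range (T μ ^ a - z μ ^ b), g.natDegree + 1, ?_, ?_, ?_, ?_⟩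
  · intro μ
    have h1 : (⨆ μ, LinearMap.range (T μ ^ a - z μ ^ b)) ≤
        (⨆ μ, LinearMap.range (T μ ^ a - z μ ^ b)).comap (z μ) := by
      refine iSup_le fun ν => ?_
      rintro _ ⟨w, rfl⟩
      have h2 : Commute (z μ) (T ν ^ a - z ν ^ b) :=
        ((hzT μ ν).pow_right a).sub_right ((hzz μ ν).pow_right b)
      refine (le_iSup (fun μ => LinearMap.range (T μ ^ a - z μ ^ b)) ν) ?_
      exact ⟨z μ w, (LinearMap.congr_fun h2.eq w).symm⟩
    exact fun w hw => h1 hw
  · intro μ
    have h1 : (⨆ μ, LinearMap.range (T μ ^ a - z μ ^ b)) ≤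
        (⨆ μ, LinearMap.range (T μ ^ a - z μ ^ b)).comap (T μ) := by
      refine iSup_le fun ν => ?_
      rintro _ ⟨w, rfl⟩
      have h2 : Commute (T μ) (T ν ^ a - z ν ^ b) :=
        ((hTT μ ν).pow_right a).sub_right ((hzT ν μ).symm.pow_right b)
      refine (le_iSup (fun μ => LinearMap.range (T μ ^ a - z μ ^ b)) ν) ?_
      exact ⟨T μ w, (LinearMap.congr_fun h2.eq w).symm⟩
    exact fun w hw => h1 hw
  · intro μ
    have h1 : (⨆ μ, LinearMap.range (T μ ^ a - z μ ^ b)) ≤
        LinearMap.ker (z μ ^ (g.natDegree + 1)) := by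
      refine iSup_le fun ν => ?_
      rintro _ ⟨w, rfl⟩
      rw [LinearMap.mem_ker]
      exact LinearMap.congr_fun (hkill μ ν) w
    exact fun w hw => LinearMap.mem_ker.mp (h1 hw)
  · intro μ w
    refine (le_iSup (fun μ => LinearMap.range (T μ ^ a - z μ ^ b)) μ) ?_
    exact ⟨w, rfl⟩

end Pool.Agent.Lib.MP_240c17_al.Tor
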