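import Pool.Agent.Lib.MP_240c17_al.Tor.Spec
import Pool.Agent.Lib.MP_240c17_al.Two.Mod
import Pool.Agent.Lib.MP_240c17_al.Two.Hilbert

/-!
(T19) Finite generation of `K ⊓ G` modulo `⁅K, G⁆`.
-/

set_option autoImplicit false

namespace Pool.Agent.Lib.MP_240c17_al.Tor

universe u

open Pool.Agent.Lib.MP_240c17_al.Two

theorem xfg : XfgProp.{u} := by
  intro k _ F _ _ n y P' G K hDer hG hK
  have hHil : HilbertProp.{u} := hilbert mod_
  have hBK : (⁅K, G⁆ : LieIdeal k F) ≤ K := LieSubmodule.lie_le_left _ _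
  have hBG : (⁅K, G⁆ : LieIdeal k F) ≤ G := LieSubmodule.lie_le_right _ _
  refine hHil k F (Fin n) (fun j => pw k (y j) P') (⁅K, G⁆ : LieIdeal k F).toSubmodule
    K.toSubmodule (K ⊓ G : LieIdeal k F).toSubmodule (fun j w hw => pw_mem hw _ _) ?_ hK
    (fun j w hw => pw_mem (I := (K ⊓ G : LieIdeal k F)) hw _ _) (le_inf hBK hBG)
    (inf_le_left (a := K) (b := G))
  intro i j w hw
  have h : ∀ e, pw k (y i) P' (pw k (y j) e w) - pw k (y j) e (pw k (y i) P' w) ∈
      (⁅K, G⁆ : LieIdeal k F) := by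
    intro e
    induction e with
    | zero => simp
    | succ e ih =>
      have h5 : pw k (y i) P' (pw k (y j) (e + 1) w) -
          pw k (y j) (e + 1) (pw k (y i) P' w) =
          ⁅pw k (y i) P' (pw k (y j) e w) - pw k (y j) e (pw k (y i) P' w), y j⁆ +
          ⁅pw k (y j) e w, pw k (y i) P' (y j)⁆ := by
        rw [pw_succ, pw_succ, hDer, sub_lie]
        abel
      rw [h5]
      refine add_mem (lie_mem_right ih (y j)) ?_
      exact LieSubmodule.lie_mem_lie (pw_mem (I := K) hw (y j) e) (hG i (y j))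
  exact h P'

end Pool.Agent.Lib.MP_240c17_al.Tor
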