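import Pool.Agent.Lib.MP_240c17_al.Two.Spec

/-!
Left-normed words, powers of `z ↦ ⁅z, y⁆`, the lower central series of the derived algebra, balancedness.
-/

set_option autoImplicit false

namespace Pool.Agent.Lib.MP_240c17_al.Tor

universe u

open Pool.Agent.Lib.MP_240c17_al.Two

section

variable {P : Type u} [LieRing P]

/-- The left-normed product `⁅…⁅⁅a, z₁⁆, z₂⁆ …, z_r⁆`. -/
def wd (a : P) (l : List P) : P := l.foldl (fun b z => ⁅b, z⁆) a

@[simp] theorem wd_nil (a : P) : wd a [] = a := rfl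

@[simp] theorem wd_cons (a z : P) (l : List P) : wd a (z :: l) = wd ⁅a, z⁆ l := rfl

theorem wd_append (a : P) (l l' : List P) : wd a (l ++ l') = wd (wd a l) l' := by
  simp [wd, List.foldl_append]

theorem wd_concat (a : P) (l : List P) (z : P) : wd a (l ++ [z]) = ⁅wd a l, z⁆ := by
  simp [wd_append]

theorem wd_add (a b : P) (l : List P) : wd (a + b) l = wd a l + wd b l := by
  induction l generalizing a b with
  | nil => rfl
  | cons z l ih => simp only [wd_cons, add_lie, ih]

theorem wd_zero (l : List P) : wd (0 : P) l = 0 := by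
  induction l with
  | nil => rfl
  | cons z l ih => simp only [wd_cons, zero_lie, ih]

theorem wd_neg (a : P) (l : List P) : wd (-a) l = -wd a l := by
  induction l generalizing a with
  | nil => rfl
  | cons z l ih => simp only [wd_cons, neg_lie, ih]

theorem wd_sub (a b : P) (l : List P) : wd (a - b) l = wd a l - wd b l := by
  rw [sub_eq_add_neg, wd_add, wd_neg, ← sub_eq_add_neg]

theorem wd_map {Q : Type u} [LieRing Q] {k : Type u} [CommRing k] [LieAlgebra k P]
    [LieAlgebra k Q] (f : P →ₗ⁅k⁆ Q) (a : P) (l : List P) : f (wd a l) = wd (f a) (l.map f) := by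
  induction l generalizing a with
  | nil => rfl
  | cons z l ih => simp only [wd_cons, List.map_cons, ih, LieHom.map_lie]

end

section

variable (k : Type u) [Field k] {P : Type u} [LieRing P] [LieAlgebra k P]

theorem wd_smul (c : k) (a : P) (l : List P) : wd (c • a) l = c • wd a l := by
  induction l generalizing a with
  | nil => rfl
  | cons z l ih => simp only [wd_cons, smul_lie, ih]

/-- Words as linear maps of the first letter. -/
def wdL (l : List P) : Module.End k P where
  toFun a := wd a l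
  map_add' a b := wd_add a b l
  map_smul' c a := wd_smul k c a l

@[simp] theorem wdL_apply (l : List P) (a : P) : wdL k l a = wd a l := rfl

/-- `pw k y e a = ⁅…⁅⁅a, y⁆, y⁆…, y⁆` (`e` times). -/
def pw (y : P) (e : ℕ) : Module.End k P := adr k y ^ e

theorem adr_apply (y a : P) : adr k y a = ⁅a, y⁆ := rfl

@[simp] theorem pw_zero (y a : P) : pw k y 0 a = a := by simp [pw]

@[simp] theorem pw_one (y a : P) : pw k y 1 a = ⁅a, y⁆ := by simp [pw, adr_apply]

theorem pw_add (y : P) (e f : ℕ) (a : P) : pw k y (e + f) a = pw k y e (pw k y f a) := by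
  simp [pw, pow_add]

theorem pw_add' (y : P) (e f : ℕ) (a : P) : pw k y (e + f) a = pw k y f (pw k y e a) := by
  rw [add_comm, pw_add]

theorem pw_succ (y : P) (e : ℕ) (a : P) : pw k y (e + 1) a = ⁅pw k y e a, y⁆ := by
  rw [add_comm, pw_add, pw_one]

theorem pw_succ' (y : P) (e : ℕ) (a : P) : pw k y (e + 1) a = pw k y e ⁅a, y⁆ := by
  rw [pw_add, pw_one]

theorem pw_mul (y : P) (e f : ℕ) : pw k y (e * f) = (pw k y e) ^ f := by
  simp [pw, pow_mul]

theorem pw_iterate (y : P) (e : ℕ) (a : P) : pw k y e a = (fun l => ⁅l, y⁆)^[e] a := by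
  induction e generalizing a with
  | zero => simp
  | succ e ih => rw [pw_succ', ih, Function.iterate_succ_apply]

theorem pw_map {Q : Type u} [LieRing Q] [LieAlgebra k Q] (f : P →ₗ⁅k⁆ Q) (y : P) (e : ℕ) (a : P) :
    f (pw k y e a) = pw k (f y) e (f a) := by
  induction e with
  | zero => simp
  | succ e ih => rw [pw_succ, pw_succ, LieHom.map_lie, ih]

/-- Leibniz. -/
theorem pw_lie (y : P) (e : ℕ) (a b : P) : pw k y e ⁅a, b⁆ =
    ∑ i ∈ Finset.range (e + 1), (e.choose i) • ⁅pw k y i a, pw k y (e - i) b⁆ := by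
  induction e with
  | zero => simp
  | succ e ih =>
    have h1 : ∀ c d : P, ⁅⁅c, d⁆, y⁆ = ⁅⁅c, y⁆, d⁆ + ⁅c, ⁅d, y⁆⁆ := by
      intro c d
      have h := leibniz_lie c d y
      have h2 : ⁅⁅c, d⁆, y⁆ = ⁅c, ⁅d, y⁆⁆ - ⁅d, ⁅c, y⁆⁆ := by rw [h]; abel
      rw [h2, ← lie_skew ⁅c, y⁆ d]
      abel
    have hs : ∀ (s : Finset ℕ) (f : ℕ → P), ⁅∑ i ∈ s, f i, y⁆ = ∑ i ∈ s, ⁅f i, y⁆ := by
      intro s f
      exact map_sum (adr k y) f s
    rw [pw_succ, ih, hs]
    have h2 : ∀ i ∈ Finset.range (e + 1), ⁅(e.choose i) • ⁅pw k y i a, pw k y (e - i) b⁆, y⁆ =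
        (e.choose i) • ⁅pw k y (i + 1) a, pw k y (e - i) b⁆ +
        (e.choose i) • ⁅pw k y i a, pw k y (e + 1 - i) b⁆ := by
      intro i hi
      rw [Finset.mem_range] at hi
      rw [nsmul_lie, h1, nsmul_add, pw_succ, show e + 1 - i = (e - i) + 1 by omega, pw_succ]
    rw [Finset.sum_congr rfl h2, Finset.sum_add_distrib]
    rw [Finset.sum_range_succ' (fun i => ((e + 1).choose i) • ⁅pw k y i a, pw k y (e + 1 - i) b⁆)
      (e + 1)]
    have h3 : ∀ i ∈ Finset.range (e + 1), ((e + 1).choose (i + 1)) •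
        ⁅pw k y (i + 1) a, pw k y (e + 1 - (i + 1)) b⁆ =
        (e.choose i) • ⁅pw k y (i + 1) a, pw k y (e - i) b⁆ +
        (e.choose (i + 1)) • ⁅pw k y (i + 1) a, pw k y (e - i) b⁆ := by
      intro i hi
      rw [Nat.choose_succ_succ, add_smul, show e + 1 - (i + 1) = e - i by omega]
    rw [Finset.sum_congr rfl h3, Finset.sum_add_distrib, add_assoc]
    congr 1
    rw [Finset.sum_range_succ' (fun i => (e.choose i) • ⁅pw k y i a, pw k y (e + 1 - i) b⁆) e,
      Finset.sum_range_succ (fun i => (e.choose (i + 1)) • ⁅pw k y (i + 1) a, pw k y (e - i) b⁆) e]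
    simp only [Nat.choose_succ_self, zero_smul, add_zero, Nat.choose_zero_right]
    congr 1
    apply Finset.sum_congr rfl
    intro i hi
    rw [Finset.mem_range] at hi
    rw [show e + 1 - (i + 1) = e - i by omega]

/-- The lower central series of the derived algebra: `gam 0 = ⊤`, `gam 1 = D1`,
`gam (i + 2) = ⁅gam (i + 1), D1⁆`. -/
def gam (P : Type u) [LieRing P] [LieAlgebra k P] : ℕ → LieIdeal k P
  | 0 => ⊤
  | 1 => D1 k P
  | (i + 2) => ⁅gam P (i + 1), D1 k P⁆

theorem gam_zero : gam k P 0 = ⊤ := rfl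
theorem gam_one : gam k P 1 = D1 k P := rfl
theorem gam_two : gam k P 2 = D2 k P := rfl
theorem gam_succ (i : ℕ) : gam k P (i + 2) = ⁅gam k P (i + 1), D1 k P⁆ := rfl

/-- The point `∑ μ ^ i x i` of the moment curve. -/
def mom {n : ℕ} (x : Fin n → P) (μ : k) : P := ∑ i : Fin n, μ ^ (i : ℕ) • x i

/-- The iterated ideals: `Mid [] = ⊤`, `Mid (y :: l)` is the ideal generated by the `pw y P₀ m`,
`m ∈ Mid l`. -/
def Mid (P₀ : ℕ) : List P → LieIdeal k P
  | [] => ⊤
  | (y :: l) => LieSubmodule.lieSpan k P {w | ∃ m ∈ Mid P₀ l, w = pw k y P₀ m}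

end

section

variable (k : Type u) [Field k] (L : Type u) [LieRing L] [LieAlgebra k L]

/-- `pw y e` is a derivation for every `y`. -/
def Der (e : ℕ) : Prop := ∀ y a b : L, pw k y e ⁅a, b⁆ = ⁅pw k y e a, b⁆ + ⁅a, pw k y e b⁆

/-- Balancedness for words with at most `i` letters between the two special letters. -/
def BalW (i e Q : ℕ) : Prop := ∀ (y a b : L) (zs : List L), zs.length ≤ i →
  ⁅wd (pw k y (e + Q) a) zs, pw k y e b⁆ = ⁅wd (pw k y e a) zs, pw k y (e + Q) b⁆

/-- Balancedness. -/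
def BalInf (e Q : ℕ) : Prop := ∀ (y a b : L) (zs : List L),
  ⁅wd (pw k y (e + Q) a) zs, pw k y e b⁆ = ⁅wd (pw k y e a) zs, pw k y (e + Q) b⁆

/-- The identity (I). -/
def IdI (m : ℕ) (c : ℕ → k) : Prop := ∀ a b y : L,
  ∑ i ∈ Finset.range (m + 1), c i • ⁅pw k y i a, pw k y (m - i) b⁆ = 0

variable {k L}

theorem BalW.mono {i e Q e' : ℕ} (h : BalW k L i e Q) (he : e ≤ e') (l : ℕ) :
    BalW k L i e' (l * Q) := by
  intro y a b zs hz
  have h1 : ∀ (l e : ℕ) (a b : L), BalW k L i e Q →
      ⁅wd (pw k y (e + l * Q) a) zs, pw k y e b⁆ = ⁅wd (pw k y e a) zs, pw k y (e + l * Q) b⁆ := by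
    intro l
    induction l with
    | zero => intro e a b _; simp
    | succ l ih =>
      intro e a b he
      have h2 : pw k y (e + (l + 1) * Q) a = pw k y (e + Q) (pw k y (l * Q) a) := by
        rw [← pw_add]; congr 2; ring
      have h3 : pw k y (e + (l + 1) * Q) b = pw k y (e + l * Q) (pw k y Q b) := by
        rw [← pw_add]; congr 2; ring
      rw [h2, he y _ b zs hz, ← pw_add, h3, ← ih e a (pw k y Q b) he, ← pw_add]
  obtain ⟨t, rfl⟩ := Nat.exists_eq_add_of_le he
  have h2 := h1 l e (pw k y t a) (pw k y t b) h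
  rw [← pw_add, ← pw_add, ← pw_add, ← pw_add] at h2
  rw [show e + t + l * Q = e + l * Q + t by ring]
  exact h2

theorem BalInf.mono {e Q e' : ℕ} (h : BalInf k L e Q) (he : e ≤ e') (l : ℕ) :
    BalInf k L e' (l * Q) := by
  intro y a b zs
  exact BalW.mono (i := zs.length) (fun y a b zs _ => h y a b zs) he l y a b zs le_rfl

end

section Gam

variable {k : Type u} [Field k] {P : Type u} [LieRing P] [LieAlgebra k P]

theorem lie_mem_right {I : LieIdeal k P} {a : P} (ha : a ∈ I) (z : P) : ⁅a, z⁆ ∈ I := by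
  rw [← lie_skew]
  exact I.neg_mem (I.lie_mem ha)

theorem lie_mem_left' {I : LieIdeal k P} {a : P} (ha : a ∈ I) (z : P) : ⁅z, a⁆ ∈ I :=
  I.lie_mem ha

theorem lie_mem_D1 (a b : P) : ⁅a, b⁆ ∈ D1 k P :=
  LieSubmodule.lie_mem_lie (LieSubmodule.mem_top a) (LieSubmodule.mem_top b)

theorem wd_mem {I : LieIdeal k P} {a : P} (ha : a ∈ I) (l : List P) : wd a l ∈ I := by
  induction l generalizing a with
  | nil => exact ha
  | cons z l ih => exact ih (lie_mem_right ha z)

theorem pw_mem {I : LieIdeal k P} {a : P} (ha : a ∈ I) (y : P) (e : ℕ) : pw k y e a ∈ I := by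
  induction e with
  | zero => simpa using ha
  | succ e ih => rw [pw_succ]; exact lie_mem_right ih y

theorem pw_mem_D1 {e : ℕ} (he : 0 < e) (y a : P) : pw k y e a ∈ D1 k P := by
  obtain ⟨e, rfl⟩ := Nat.exists_eq_succ_of_ne_zero he.ne'
  rw [Nat.succ_eq_add_one, pw_succ]
  exact lie_mem_D1 _ _

/-- Jacobi. -/
theorem lie_lie_swap (a z w : P) : ⁅⁅a, z⁆, w⁆ = ⁅⁅a, w⁆, z⁆ + ⁅a, ⁅z, w⁆⁆ := by
  rw [leibniz_lie a z w, ← lie_skew z ⁅a, w⁆]
  abel

theorem lie_lie_right (a z w : P) : ⁅a, ⁅z, w⁆⁆ = ⁅⁅a, z⁆, w⁆ - ⁅⁅a, w⁆, z⁆ := by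
  rw [lie_lie_swap a z w]
  abel

theorem br_span (I J : LieIdeal k P) : (⁅I, J⁆ : LieIdeal k P).toSubmodule =
    Submodule.span k {m | ∃ a ∈ I, ∃ b ∈ J, ⁅a, b⁆ = m} :=
  LieSubmodule.lieIdeal_oper_eq_linear_span' J I

theorem br_le {I J : LieIdeal k P} {Y : Submodule k P} (h : ∀ a ∈ I, ∀ b ∈ J, ⁅a, b⁆ ∈ Y) :
    (⁅I, J⁆ : LieIdeal k P).toSubmodule ≤ Y := by
  rw [br_span, Submodule.span_le]
  rintro _ ⟨a, ha, b, hb, rfl⟩
  exact h a ha b hb

theorem D1_le {Y : Submodule k P} (h : ∀ a b : P, ⁅a, b⁆ ∈ Y) : (D1 k P).toSubmodule ≤ Y :=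
  br_le (fun a _ b _ => h a b)

theorem gam_le (i : ℕ) : gam k P (i + 1) ≤ gam k P i := by
  rcases i with _ | i
  · exact le_top
  · exact LieSubmodule.lie_le_left _ _

theorem gam_anti {i j : ℕ} (h : i ≤ j) : gam k P j ≤ gam k P i := by
  induction j, h using Nat.le_induction with
  | base => exact le_rfl
  | succ j _ ih => exact (gam_le j).trans ih

theorem gam_le_D1 {i : ℕ} (hi : 1 ≤ i) : gam k P i ≤ D1 k P := gam_anti hi

theorem lie_mem_gam {i : ℕ} (hi : 1 ≤ i) {a b : P} (ha : a ∈ gam k P i) (hb : b ∈ D1 k P) :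
    ⁅a, b⁆ ∈ gam k P (i + 1) := by
  obtain ⟨i, rfl⟩ := Nat.exists_eq_add_of_le' hi
  exact LieSubmodule.lie_mem_lie ha hb

theorem gam_succ_le {i : ℕ} (hi : 1 ≤ i) {Y : Submodule k P}
    (h : ∀ a ∈ gam k P i, ∀ b ∈ D1 k P, ⁅a, b⁆ ∈ Y) : (gam k P (i + 1)).toSubmodule ≤ Y := by
  obtain ⟨i, rfl⟩ := Nat.exists_eq_add_of_le' hi
  exact br_le h

theorem lie_mem_gam_gam {i j : ℕ} (hi : 1 ≤ i) (hj : 1 ≤ j) {a b : P} (ha : a ∈ gam k P i)
    (hb : b ∈ gam k P j) : ⁅a, b⁆ ∈ gam k P (i + j) := by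
  induction j, hj using Nat.le_induction generalizing i a b with
  | base => exact lie_mem_gam hi ha hb
  | succ j hj ih =>
    have h1 : (gam k P (j + 1)).toSubmodule ≤
        (gam k P (i + (j + 1))).toSubmodule.comap (LieAlgebra.ad k P a : P →ₗ[k] P) := by
      apply gam_succ_le hj
      intro b hb d hd
      show ⁅a, ⁅b, d⁆⁆ ∈ gam k P (i + (j + 1))
      rw [lie_lie_right]
      refine sub_mem ?_ ?_
      · have h2 := lie_mem_gam (i := i + j) (by omega) (ih hi ha hb) hd
        exact h2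
      · have h2 := ih (i := i + 1) (by omega) (lie_mem_gam hi ha hd) hb
        rwa [show i + 1 + j = i + (j + 1) by ring] at h2
    exact h1 hb

/-- The number of letters in the derived algebra. -/
theorem wd_mem_gam {i : ℕ} (hi : 1 ≤ i) {a : P} (ha : a ∈ gam k P i) (l : List P)
    [DecidablePred fun z : P => z ∈ D1 k P] :
    wd a l ∈ gam k P (i + l.countP (fun z => decide (z ∈ D1 k P))) := by
  induction l generalizing i a with
  | nil => simpa using ha
  | cons z l ih =>
    rw [wd_cons, List.countP_cons]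
    by_cases hz : z ∈ D1 k P
    · have h := ih (i := i + 1) (by omega) (lie_mem_gam hi ha hz)
      simpa [hz, add_assoc, add_comm, add_left_comm] using h
    · have h := ih hi (lie_mem_right ha z)
      simpa [hz] using h

theorem map_mem_gam {Q : Type u} [LieRing Q] [LieAlgebra k Q] (f : P →ₗ⁅k⁆ Q) {i : ℕ} {a : P}
    (ha : a ∈ gam k P i) : f a ∈ gam k Q i := by
  rcases i with _ | i
  · exact LieSubmodule.mem_top _
  induction i generalizing a with
  | zero =>
    have h1 : (D1 k P).toSubmodule ≤ (D1 k Q).toSubmodule.comap (f : P →ₗ[k] Q) := by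
      apply D1_le
      intro a b
      show f ⁅a, b⁆ ∈ D1 k Q
      rw [LieHom.map_lie]
      exact lie_mem_D1 _ _
    exact h1 ha
  | succ i ih =>
    have h1 : (gam k P (i + 1 + 1)).toSubmodule ≤
        (gam k Q (i + 1 + 1)).toSubmodule.comap (f : P →ₗ[k] Q) := by
      apply gam_succ_le (by omega)
      intro a ha b hb
      show f ⁅a, b⁆ ∈ gam k Q (i + 1 + 1)
      rw [LieHom.map_lie]
      refine lie_mem_gam (by omega) (ih ha) ?_
      have h2 : (D1 k P).toSubmodule ≤ (D1 k Q).toSubmodule.comap (f : P →ₗ[k] Q) := by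
        apply D1_le
        intro a b
        show f ⁅a, b⁆ ∈ D1 k Q
        rw [LieHom.map_lie]
        exact lie_mem_D1 _ _
      exact h2 hb
    exact h1 ha

/-- Operators with exponents of the same element commute. -/
theorem pw_comm (y : P) (e f : ℕ) (a : P) : pw k y e (pw k y f a) = pw k y f (pw k y e a) := by
  rw [← pw_add, ← pw_add']

/-- Left-normed words in the generators span. -/
theorem words_span {n : ℕ} {x : Fin n → P} (hx : LieSubalgebra.lieSpan k P (Set.range x) = ⊤) :
    Submodule.span k {w : P | ∃ (i : Fin n) (ls : List (Fin n)), w = wd (x i) (ls.map x)} = ⊤ := by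
  rw [eq_top_iff]
  have h1 : ∀ y ∈ Submodule.span k {w : P | ∃ (i : Fin n) (ls : List (Fin n)),
      w = wd (x i) (ls.map x)}, ∀ z : P, ⁅y, z⁆ ∈ Submodule.span k {w : P | ∃ (i : Fin n)
      (ls : List (Fin n)), w = wd (x i) (ls.map x)} := by
    let Y := Submodule.span k {w : P | ∃ (i : Fin n) (ls : List (Fin n)), w = wd (x i) (ls.map x)}
    have h0 : ∀ j, ∀ y ∈ Y, ⁅y, x j⁆ ∈ Y := by
      intro j y hy
      have h2 : Y ≤ Y.comap (adr k (x j)) := by
        rw [Submodule.span_le]
        rintro _ ⟨i, ls, rfl⟩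
        refine Submodule.subset_span ⟨i, ls ++ [j], ?_⟩
        rw [List.map_append, List.map_singleton, wd_concat]
        rfl
      exact h2 hy
    let T : LieSubalgebra k P :=
      { carrier := {z | ∀ y ∈ Y, ⁅y, z⁆ ∈ Y}
        add_mem' := by
          intro a b ha hb y hy
          rw [lie_add]
          exact Y.add_mem (ha y hy) (hb y hy)
        zero_mem' := by
          intro y _
          rw [lie_zero]
          exact Y.zero_mem
        smul_mem' := by
          intro c a ha y hy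
          rw [lie_smul]
          exact Y.smul_mem c (ha y hy)
        lie_mem' := by
          intro a b ha hb y hy
          rw [lie_lie_right]
          exact Y.sub_mem (hb _ (ha y hy)) (ha _ (hb y hy)) }
    have h2 : LieSubalgebra.lieSpan k P (Set.range x) ≤ T := by
      rw [LieSubalgebra.lieSpan_le]
      rintro _ ⟨i, rfl⟩ y hy
      exact h0 i y hy
    intro y hy z
    have h3 : z ∈ T := by
      apply h2
      rw [hx]
      exact LieSubalgebra.mem_top z
    exact h3 y hy
  let T : LieSubalgebra k P :=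
    { Submodule.span k {w : P | ∃ (i : Fin n) (ls : List (Fin n)), w = wd (x i) (ls.map x)} with
      lie_mem' := fun {a b} ha _ => h1 a ha b }
  have h2 : LieSubalgebra.lieSpan k P (Set.range x) ≤ T := by
    rw [LieSubalgebra.lieSpan_le]
    rintro _ ⟨i, rfl⟩
    exact Submodule.subset_span ⟨i, [], rfl⟩
  intro z _
  have h3 : z ∈ T := by
    apply h2
    rw [hx]
    exact LieSubalgebra.mem_top z
  exact h3

/-- The derived algebra is spanned by the left-normed words of length at least two. -/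
theorem D1_words {n : ℕ} {x : Fin n → P} (hx : LieSubalgebra.lieSpan k P (Set.range x) = ⊤) :
    (D1 k P).toSubmodule = Submodule.span k {w : P | ∃ (i j : Fin n) (ls : List (Fin n)),
      w = wd ⁅x i, x j⁆ (ls.map x)} := by
  apply le_antisymm
  · let Y := Submodule.span k {w : P | ∃ (i j : Fin n) (ls : List (Fin n)),
      w = wd ⁅x i, x j⁆ (ls.map x)}
    have h0 : ∀ j, ∀ a : P, ⁅a, x j⁆ ∈ Y := by
      intro j a
      have h2 : Submodule.span k {w : P | ∃ (i : Fin n) (ls : List (Fin n)),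
          w = wd (x i) (ls.map x)} ≤ Y.comap (adr k (x j)) := by
        rw [Submodule.span_le]
        rintro _ ⟨i, ls, rfl⟩
        show ⁅wd (x i) (ls.map x), x j⁆ ∈ Y
        rcases ls with _ | ⟨i', ls⟩
        · exact Submodule.subset_span ⟨i, j, [], rfl⟩
        · refine Submodule.subset_span ⟨i, i', ls ++ [j], ?_⟩
          rw [List.map_append, List.map_singleton, wd_concat]
          rfl
      rw [words_span hx] at h2
      exact h2 (Submodule.mem_top : a ∈ ⊤)
    let T : LieSubalgebra k P :=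
      { carrier := {z | ∀ y : P, ⁅y, z⁆ ∈ Y}
        add_mem' := by
          intro a b ha hb y
          rw [lie_add]
          exact Y.add_mem (ha y) (hb y)
        zero_mem' := by
          intro y
          rw [lie_zero]
          exact Y.zero_mem
        smul_mem' := by
          intro c a ha y
          rw [lie_smul]
          exact Y.smul_mem c (ha y)
        lie_mem' := by
          intro a b ha hb y
          rw [lie_lie_right]
          exact Y.sub_mem (hb _) (ha _) }
    have h2 : LieSubalgebra.lieSpan k P (Set.range x) ≤ T := by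
      rw [LieSubalgebra.lieSpan_le]
      rintro _ ⟨i, rfl⟩ y
      exact h0 i y
    apply D1_le
    intro a b
    have h3 : b ∈ T := by
      apply h2
      rw [hx]
      exact LieSubalgebra.mem_top b
    exact h3 a
  · rw [Submodule.span_le]
    rintro _ ⟨i, j, ls, rfl⟩
    exact wd_mem (lie_mem_D1 _ _) _

/-- Two letters in a word may be interchanged modulo the next term, if the first entry is in the
derived algebra. -/
theorem lie_comm_mod {i : ℕ} (hi : 1 ≤ i) {a : P} (ha : a ∈ gam k P i) (z w : P) :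
    ⁅⁅a, z⁆, w⁆ - ⁅⁅a, w⁆, z⁆ ∈ gam k P (i + 1) := by
  rw [← lie_lie_right]
  exact lie_mem_gam hi ha (lie_mem_D1 z w)

end Gam

section Defs

/-- A family of vectors depending polynomially, with degree at most `d`, on a parameter. -/
def PF (k : Type u) [Field k] {X : Type u} [AddCommGroup X] [Module k X] (d : ℕ) (f : k → X) : Prop :=
  ∃ q : ℕ → X, ∀ μ, f μ = ∑ l ∈ Finset.range (d + 1), μ ^ l • q l

/-- The operators `T = ∑_{j=1}^c (-1)^{j-1} E_j`, where `E_j` is the coefficient of `lam ^ j` in the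
homomorphism `x i ↦ x i + lam [x i, v, …, v]` (`N / j` letters `v`). -/
def IsOp (k : Type u) [Field k] {F : Type u} [LieRing F] [LieAlgebra k F] {n : ℕ} (x : Fin n → F)
    (c N : ℕ) (lam : ℕ → k) (g : ℕ → ℕ → k) (v : F) (T : Module.End k F) : Prop :=
  ∃ θ : ℕ → ℕ → (F →ₗ⁅k⁆ F),
    (∀ s j i, θ s j (x i) = x i + lam s • pw k v (N / (j + 1)) (x i)) ∧
    ∀ w, T w = ∑ j ∈ Finset.range c, ∑ s ∈ Finset.range (c + 1),
      ((-1) ^ j * g (j + 1) s) • θ s j w

/-- The sum of the ideals `Mid` over the lists of `r` distinct points of the moment curve. -/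
def GG (k : Type u) [Field k] {F : Type u} [LieRing F] [LieAlgebra k F] {n L : ℕ} (x : Fin n → F)
    (P₀ : ℕ) (ν : Fin L → k) (r : ℕ) : LieIdeal k F :=
  ⨆ (l : List (Fin L)) (_ : l.Nodup ∧ l.length = r), Mid k P₀ (l.map fun i => mom k x (ν i))

end Defs

end Pool.Agent.Lib.MP_240c17_al.Tor
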