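import Pool.Agent.Lib.MP_240c17_al.Tor.Spec
import Pool.Agent.Lib.MP_240c17_al.Tor.Rel
import Pool.Agent.Lib.MP_240c17_al.Two.Integral
import Pool.Agent.Lib.MP_240c17_al.Two.LieGen

/-!
(T18) Finite generation of a finitely generated ideal `K` modulo `⁅K, G⁆` over powers of the generators.
-/

set_option autoImplicit false

namespace Pool.Agent.Lib.MP_240c17_al.Tor

universe u

open Pool.Agent.Lib.MP_240c17_al.Two

section

variable {k : Type u} [Field k] {F : Type u} [LieRing F] [LieAlgebra k F]

/-- The filtration. -/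
private def kfgF (K B : LieIdeal k F) : ℕ → LieIdeal k F
  | 0 => K
  | (j + 1) => ⁅kfgF K B j, D1 k F⁆ ⊔ B

private theorem kfg_B_le {K B : LieIdeal k F} (hB : B ≤ K) (j : ℕ) : B ≤ kfgF K B j := by
  rcases j with _ | j
  · exact hB
  · exact le_sup_right

private theorem kfg_br_le (K B : LieIdeal k F) (j : ℕ) :
    (⁅kfgF K B j, D1 k F⁆ : LieIdeal k F) ≤ kfgF K B (j + 1) := le_sup_left

private theorem kfg_succ_le {K B : LieIdeal k F} (hB : B ≤ K) (j : ℕ) :
    kfgF K B (j + 1) ≤ kfgF K B j :=
  sup_le (LieSubmodule.lie_le_left _ _) (kfg_B_le hB j)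

private theorem kfg_le {K B : LieIdeal k F} (hB : B ≤ K) (j : ℕ) : kfgF K B j ≤ K := by
  induction j with
  | zero => exact le_rfl
  | succ j ih => exact (kfg_succ_le hB j).trans ih

private theorem kfg_gam {K B : LieIdeal k F} (j : ℕ) :
    kfgF K B (j + 1) ≤ gam k F (j + 1) ⊔ B := by
  induction j with
  | zero =>
    exact sup_le (le_sup_of_le_left (LieSubmodule.lie_le_right _ _)) le_sup_right
  | succ j ih =>
    refine sup_le ?_ le_sup_right
    have h : (⁅kfgF K B (j + 1), D1 k F⁆ : LieIdeal k F).toSubmodule ≤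
        (gam k F (j + 1 + 1) ⊔ B : LieIdeal k F).toSubmodule := by
      apply br_le
      intro a ha b hb
      obtain ⟨a1, ha1, a2, ha2, rfl⟩ := (LieSubmodule.mem_sup _ _ _).mp (ih ha)
      rw [add_lie]
      refine add_mem ?_ ?_
      · exact (le_sup_left : gam k F (j + 1 + 1) ≤ gam k F (j + 1 + 1) ⊔ B)
          (lie_mem_gam (by omega) ha1 hb)
      · exact (le_sup_right : B ≤ gam k F (j + 1 + 1) ⊔ B) (lie_mem_right ha2 b)
    exact h

private theorem kfg_comm {I J : LieIdeal k F} (hIJ : (⁅I, D1 k F⁆ : LieIdeal k F) ≤ J)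
    (y1 y2 : F) (e1 e2 : ℕ) : ∀ a ∈ I,
    pw k y1 e1 (pw k y2 e2 a) - pw k y2 e2 (pw k y1 e1 a) ∈ J := by
  have h1 : ∀ (y1 y2 : F) (e : ℕ), ∀ a ∈ I, ⁅pw k y2 e a, y1⁆ - pw k y2 e ⁅a, y1⁆ ∈ J := by
    intro y1 y2 e
    induction e with
    | zero => intro a _; simp
    | succ e ih =>
      intro a ha
      have h2 : ⁅pw k y2 (e + 1) a, y1⁆ - pw k y2 (e + 1) ⁅a, y1⁆ =
          ⁅⁅pw k y2 e a, y1⁆ - pw k y2 e ⁅a, y1⁆, y2⁆ + ⁅pw k y2 e a, ⁅y2, y1⁆⁆ := by
        rw [pw_succ, pw_succ, sub_lie, lie_lie_swap (pw k y2 e a) y2 y1]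
        abel
      rw [h2]
      refine add_mem (lie_mem_right (ih a ha) y2) (hIJ ?_)
      exact LieSubmodule.lie_mem_lie (pw_mem ha y2 e) (lie_mem_D1 _ _)
  induction e1 with
  | zero => intro a _; simp
  | succ e1 ih =>
    intro a ha
    have h2 : pw k y1 (e1 + 1) (pw k y2 e2 a) - pw k y2 e2 (pw k y1 (e1 + 1) a) =
        ⁅pw k y1 e1 (pw k y2 e2 a) - pw k y2 e2 (pw k y1 e1 a), y1⁆ +
        (⁅pw k y2 e2 (pw k y1 e1 a), y1⁆ - pw k y2 e2 ⁅pw k y1 e1 a, y1⁆) := by
      rw [pw_succ, pw_succ, sub_lie]
      abel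
    rw [h2]
    exact add_mem (lie_mem_right (ih a ha) y1) (h1 y1 y2 e2 _ (pw_mem ha y1 e1))

end

theorem kfg : KfgProp.{u} := by
  classical
  intro k _ F _ _ n y c P' G K hy hgam hP' hG hK
  obtain ⟨S0, hS0⟩ := hK
  let B : LieIdeal k F := ⁅K, G⁆
  have hBK : B ≤ K := LieSubmodule.lie_le_left _ _
  -- a finite set generating `D1` modulo `G`
  obtain ⟨W, hW⟩ := rel_fc_comap (hG.mono le_rfl (le_top : (D1 k F).toSubmodule ≤ ⊤))
  have hWD : ∀ d ∈ D1 k F, ∃ g ∈ G, ∃ s ∈ Submodule.span k
      ((W.image (fun w : ↥(D1 k F).toSubmodule => (w : F)) : Finset F) : Set F), d = g + s := by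
    intro d hd
    obtain ⟨a, ha, b, hb, hab⟩ := Submodule.mem_sup.mp
      (hW (Submodule.mem_top : (⟨d, hd⟩ : ↥(D1 k F).toSubmodule) ∈ ⊤))
    refine ⟨a, ha, b, ?_, ?_⟩
    · have h4 : (b : F) ∈ Submodule.map (D1 k F).toSubmodule.subtype
          (Submodule.span k (W : Set ↥(D1 k F).toSubmodule)) := ⟨b, hb, rfl⟩
      rw [Submodule.map_span] at h4
      rw [Finset.coe_image]
      exact h4
    · have := congrArg (fun w : ↥(D1 k F).toSubmodule => (w : F)) hab
      simpa using this.symm
  -- the layers
  have hlay : ∀ j, ∃ S : Finset F, gen (fun i => adr k (y i)) (S : Set F) ⊔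
      (kfgF K B (j + 1)).toSubmodule = (kfgF K B j).toSubmodule := by
    intro j
    induction j with
    | zero =>
      refine ⟨S0, ?_⟩
      rw [← idealGen k F n y hy, hS0]
      exact sup_eq_left.mpr (kfg_succ_le hBK 0)
    | succ j ih =>
      obtain ⟨S, hS⟩ := ih
      have hSK : ∀ s ∈ S, s ∈ kfgF K B j := by
        intro s hs
        have h : s ∈ (kfgF K B j).toSubmodule := by
          rw [← hS]
          exact (le_sup_left : gen (fun i => adr k (y i)) (S : Set F) ≤ _) (subset_gen _ _ hs)
        exact h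
      let W' : Finset F := W.image (fun w : ↥(D1 k F).toSubmodule => (w : F))
      have hW'D : ∀ w ∈ W', w ∈ D1 k F := by
        intro w hw
        obtain ⟨w, _, rfl⟩ := Finset.mem_image.mp hw
        exact w.2
      let S' : Finset F := Finset.image₂ (fun s w => ⁅s, w⁆) S W'
      refine ⟨S', le_antisymm ?_ ?_⟩
      · refine sup_le ?_ (kfg_succ_le hBK (j + 1))
        refine gen_le (fun i a ha => lie_mem_right (I := kfgF K B (j + 1)) ha (y i)) ?_
        intro x hx
        obtain ⟨s, hs, w, hw, rfl⟩ := Finset.mem_image₂.mp (Finset.mem_coe.mp hx)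
        exact kfg_br_le K B j (LieSubmodule.lie_mem_lie (hSK s hs) (hW'D w hw))
      · obtain ⟨U, hU⟩ : ∃ U : Submodule k F, U = gen (fun i => adr k (y i)) (S' : Set F) ⊔
          (kfgF K B (j + 1 + 1)).toSubmodule := ⟨_, rfl⟩
        rw [← hU]
        have hUs : ∀ i, ∀ w ∈ U, ⁅w, y i⁆ ∈ U := by
          intro i w hw
          have h : Stab (fun i => adr k (y i)) U := by
            rw [hU]
            exact (gen_stab _ _).sup
              (fun i a ha => lie_mem_right (I := kfgF K B (j + 1 + 1)) ha (y i))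
          exact h i w hw
        have hBU : B.toSubmodule ≤ U := by
          rw [hU]
          exact le_sup_of_le_right (kfg_B_le hBK (j + 1 + 1))
        have hKU : (kfgF K B (j + 1 + 1)).toSubmodule ≤ U := by rw [hU]; exact le_sup_right
        let C : Submodule k F :=
          { carrier := {κ | ∀ d ∈ D1 k F, ⁅κ, d⁆ ∈ U}
            add_mem' := by
              intro a b ha hb d hd
              rw [add_lie]
              exact U.add_mem (ha d hd) (hb d hd)
            zero_mem' := by
              intro d _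
              rw [zero_lie]
              exact U.zero_mem
            smul_mem' := by
              intro t a ha d hd
              rw [smul_lie]
              exact U.smul_mem t (ha d hd) }
        have hC : (kfgF K B j).toSubmodule ≤ C := by
          rw [← hS]
          refine sup_le (gen_le ?_ ?_) ?_
          · intro i κ hκ d hd
            show ⁅⁅κ, y i⁆, d⁆ ∈ U
            rw [lie_lie_swap κ (y i) d]
            exact U.add_mem (hUs i _ (hκ d hd)) (hκ _ (lie_mem_D1 _ _))
          · intro s hs d hd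
            obtain ⟨g, hg, s', hs', rfl⟩ := hWD d hd
            rw [lie_add]
            refine U.add_mem (hBU ?_) ?_
            · exact LieSubmodule.lie_mem_lie (kfg_le hBK j (hSK s hs)) hg
            · have h1 : Submodule.span k ((W' : Finset F) : Set F) ≤
                  U.comap (LieAlgebra.ad k F s : F →ₗ[k] F) := by
                rw [Submodule.span_le]
                intro w hw
                show ⁅s, w⁆ ∈ U
                rw [hU]
                refine (le_sup_left : gen (fun i => adr k (y i)) (S' : Set F) ≤ _)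
                  (subset_gen _ _ ?_)
                exact Finset.mem_coe.mpr (Finset.mem_image₂.mpr ⟨s, hs, w, hw, rfl⟩)
              exact h1 hs'
          · intro κ hκ d hd
            exact hKU (kfg_br_le K B (j + 1) (LieSubmodule.lie_mem_lie hκ hd))
        have h2 : (⁅kfgF K B j, D1 k F⁆ : LieIdeal k F).toSubmodule ≤ U :=
          br_le (fun a ha b hb => hC ha b hb)
        intro w hw
        obtain ⟨a, ha, b, hb, rfl⟩ := (LieSubmodule.mem_sup _ _ _).mp hw
        exact U.add_mem (h2 ha) (hBU hb)
  -- over the powers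
  have hlay2 : ∀ j, ∃ S : Finset F, gen (fun i => pw k (y i) P') (S : Set F) ⊔
      (kfgF K B (j + 1)).toSubmodule = (kfgF K B j).toSubmodule := by
    intro j
    obtain ⟨S, hS⟩ := hlay j
    have hpw1 : ∀ i, adr k (y i) = pw k (y i) 1 := fun i => (pow_one _).symm
    apply integral k F (Fin n) (Fin n) (fun i => pw k (y i) P') (fun i => adr k (y i))
    · rintro (i | i) w hw
      · exact pw_mem (I := kfgF K B (j + 1)) hw _ _
      · exact lie_mem_right (I := kfgF K B (j + 1)) hw _
    · rintro (i | i) (l | l) w hw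
      · exact kfg_comm (kfg_br_le K B j) (y i) (y l) P' P' w hw
      · show pw k (y i) P' (adr k (y l) w) - adr k (y l) (pw k (y i) P' w) ∈ _
        rw [hpw1]
        exact kfg_comm (kfg_br_le K B j) (y i) (y l) P' 1 w hw
      · show adr k (y i) (pw k (y l) P' w) - pw k (y l) P' (adr k (y i) w) ∈ _
        rw [hpw1]
        exact kfg_comm (kfg_br_le K B j) (y i) (y l) 1 P' w hw
      · show adr k (y i) (adr k (y l) w) - adr k (y l) (adr k (y i) w) ∈ _
        rw [hpw1, hpw1]
        exact kfg_comm (kfg_br_le K B j) (y i) (y l) 1 1 w hw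
    · refine ⟨S, le_antisymm ?_ ?_⟩
      · refine sup_le ?_ (kfg_succ_le hBK j)
        refine gen_le ?_ ?_
        · rintro (i | i) w hw
          · exact pw_mem (I := kfgF K B j) hw _ _
          · exact lie_mem_right (I := kfgF K B j) hw _
        · intro s hs
          rw [SetLike.mem_coe, ← hS]
          exact (le_sup_left : gen (fun i => adr k (y i)) (S : Set F) ≤ _) (subset_gen _ _ hs)
      · rw [← hS]
        refine sup_le_sup_right ?_ _
        exact gen_le (stab_elim.mp (gen_stab (Sum.elim (fun i => pw k (y i) P')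
          (fun i => adr k (y i))) (S : Set F))).2 (subset_gen _ _)
    · intro i
      refine ⟨P', fun l => if l = 0 then pw k (y i) P' else 0, ?_, ?_⟩
      · intro l
        by_cases hl : l = 0
        · simp only [if_pos hl]
          exact Algebra.subset_adjoin ⟨i, rfl⟩
        · simp only [if_neg hl]
          exact zero_mem _
      · intro w _
        rw [Finset.sum_eq_single 0]
        · simp only [if_true, pow_zero, Module.End.one_apply]
          have h1 : (adr k (y i) ^ P') w = pw k (y i) P' w := rfl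
          rw [h1, sub_self]
          exact Submodule.zero_mem _
        · intro l _ hl
          simp only [if_neg hl, LinearMap.zero_apply]
        · intro h0
          exact absurd (Finset.mem_range.mpr hP') h0
  have hfin : ∀ j, ∃ S : Finset F, gen (fun i => pw k (y i) P') (S : Set F) ⊔
      (kfgF K B j).toSubmodule = K.toSubmodule := by
    intro j
    induction j with
    | zero =>
      refine ⟨∅, ?_⟩
      have h1 : gen (fun i => pw k (y i) P') ((∅ : Finset F) : Set F) ≤ K.toSubmodule :=
        gen_le (fun i w hw => pw_mem (I := K) hw _ _) (by simp)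
      exact sup_eq_right.mpr h1
    | succ j ih =>
      obtain ⟨S, hS⟩ := ih
      obtain ⟨S', hS'⟩ := hlay2 j
      refine ⟨S ∪ S', ?_⟩
      rw [Finset.coe_union, gen_union, sup_assoc, hS', hS]
  obtain ⟨S, hS⟩ := hfin (c + 1)
  refine ⟨S, ?_⟩
  have h1 : kfgF K B (c + 1) = B := by
    apply le_antisymm
    · have h2 := kfg_gam (K := K) (B := B) c
      rw [hgam, bot_sup_eq] at h2
      exact h2
    · exact kfg_B_le hBK _
  rw [h1] at hS
  exact hS

end Pool.Agent.Lib.MP_240c17_al.Tor
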